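import Pool.Agent.Helper79.VCL.Alg

/-!
# Two-sided ideals in finite monoids and eventual ideals of multiplicative labellings
-/

set_option autoImplicit false
set_option linter.unusedSectionVars false
set_option linter.unusedVariables false

namespace Pool.Agent.Helper97.LO

open Set

/-! ### finite monoids -/

section AL

variable {G : Type} [Monoid G]

/-- the two-sided ideal generated by `s` -/
def Idl (s : G) : Set G := {t | ∃ a b, t = a * s * b}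

theorem mem_Idl_self (s : G) : s ∈ Idl s := ⟨1, 1, by simp⟩

theorem Idl_subset {s t : G} (h : s ∈ Idl t) : Idl s ⊆ Idl t := by
  obtain ⟨a, b, rfl⟩ := h
  rintro _ ⟨c, d, rfl⟩
  exact ⟨c * a, b * d, by simp only [mul_assoc]⟩

theorem Idl_mul_left (a s : G) : Idl (a * s) ⊆ Idl s :=
  Idl_subset ⟨a, 1, by simp⟩

theorem Idl_mul_right (s b : G) : Idl (s * b) ⊆ Idl s :=
  Idl_subset ⟨1, b, by simp⟩

/-- stability -/
theorem stab_right [Finite G] {s t b : G} (h : s = t * b) (h' : t ∈ Idl s) : ∃ c, t = s * c := by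
  subst h
  obtain ⟨u, v, h'⟩ := h'
  exact Alg.stab_right h'

theorem stab_left [Finite G] {s t b : G} (h : s = b * t) (h' : t ∈ Idl s) : ∃ c, t = c * s := by
  subst h
  obtain ⟨u, v, h'⟩ := h'
  exact Alg.stab_left h'

/-- **Green.** -/
theorem green [Finite G] {a s t q : G} (h1 : t = s * q) (h2 : a * s = a * t)
    (h3 : s ∈ Idl (a * s)) : s = t := by
  obtain ⟨p, hp⟩ := stab_left rfl h3
  calc s = p * (a * s) := hp
    _ = p * (a * t) := by rw [h2]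
    _ = p * (a * (s * q)) := by rw [← h1]
    _ = p * (a * s) * q := by simp only [mul_assoc]
    _ = s * q := by rw [← hp]
    _ = t := h1.symm

end AL

/-! ### eventual ideals of a labelling -/

section FAR

variable {M G : Type} [Monoid G] [Preorder M]

/-- `u₀` is a base point of the labelling `lab` of `D` with eventual ideal `J` -/
structure IsBse (D : Set M) (lab : M → M → G) (J : Set G) (u₀ : M) : Prop where
  tot : ∀ a b : M, a ≤ b ∨ b ≤ a
  mul : ∀ a b c : M, a ≤ b → b ≤ c → lab a c = lab a b * lab b c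
  mem : u₀ ∈ D
  up : ∀ u ∈ D, u₀ ≤ u → ∀ w ∈ D, u ≤ w → J ⊆ Idl (lab u w)
  far : ∀ u ∈ D, u₀ ≤ u → ∃ v ∈ D, u ≤ v ∧ ∀ w ∈ D, v ≤ w → Idl (lab u w) = J

/-- far pairs -/
def Far (lab : M → M → G) (J : Set G) (u w : M) : Prop := u ≤ w ∧ Idl (lab u w) = J

theorem exists_bse [Finite G] {D : Set M} {lab : M → M → G}
    (tot : ∀ a b : M, a ≤ b ∨ b ≤ a)
    (mul : ∀ a b c : M, a ≤ b → b ≤ c → lab a c = lab a b * lab b c) {x : M} (hx : x ∈ D) :
    ∃ J u₀, x ≤ u₀ ∧ IsBse D lab J u₀ := by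
  classical
  have anti : ∀ u w w', u ≤ w → w ≤ w' → Idl (lab u w') ⊆ Idl (lab u w) := by
    intro u w w' h1 h2
    rw [mul u w w' h1 h2]
    exact Idl_mul_right _ _
  have mono : ∀ u u' w, u ≤ u' → u' ≤ w → Idl (lab u w) ⊆ Idl (lab u' w) := by
    intro u u' w h1 h2
    rw [mul u u' w h1 h2]
    exact Idl_mul_left _ _
  -- the eventual ideal
  have hev : ∀ u ∈ D, ∃ v ∈ D, u ≤ v ∧ ∀ w ∈ D, v ≤ w → Idl (lab u w) = Idl (lab u v) := by
    intro u hu
    have hne : ((fun w => (Idl (lab u w)).ncard) '' {w | w ∈ D ∧ u ≤ w}).Nonempty :=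
      ⟨_, u, ⟨hu, le_rfl⟩, rfl⟩
    obtain ⟨v, ⟨hv, huv⟩, hv'⟩ := Nat.sInf_mem hne
    refine ⟨v, hv, huv, fun w hw hvw => ?_⟩
    have h1 := anti u v w huv hvw
    refine Set.eq_of_subset_of_ncard_le h1 ?_ (toFinite _)
    have h2 : sInf ((fun w => (Idl (lab u w)).ncard) '' {w | w ∈ D ∧ u ≤ w}) ≤
        (Idl (lab u w)).ncard := Nat.sInf_le ⟨w, ⟨hw, huv.trans hvw⟩, rfl⟩
    rw [← hv'] at h2
    exact h2
  choose! f hfD hfu hf using hev
  -- the base point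
  have hne : ((fun u => (Idl (lab u (f u))).ncard) '' {u | u ∈ D ∧ x ≤ u}).Nonempty :=
    ⟨_, x, ⟨hx, le_rfl⟩, rfl⟩
  have hbd : BddAbove ((fun u => (Idl (lab u (f u))).ncard) '' {u | u ∈ D ∧ x ≤ u}) := by
    refine ⟨Nat.card G, ?_⟩
    rintro _ ⟨u, -, rfl⟩
    have := Set.ncard_le_ncard (subset_univ (Idl (lab u (f u)))) (toFinite _)
    rwa [Set.ncard_univ] at this
  obtain ⟨u₀, ⟨hu₀, hxu₀⟩, hmax⟩ := Nat.sSup_mem hne hbd
  have hle : ∀ u u', u ∈ D → u' ∈ D → u ≤ u' → Idl (lab u (f u)) ⊆ Idl (lab u' (f u')) := by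
    intro u u' hu hu' huu
    obtain ⟨w, hw, h1, h2⟩ : ∃ w ∈ D, f u ≤ w ∧ f u' ≤ w := by
      rcases tot (f u) (f u') with h | h
      · exact ⟨f u', hfD u' hu', h, le_rfl⟩
      · exact ⟨f u, hfD u hu, le_rfl, h⟩
    rw [← hf u hu w hw h1, ← hf u' hu' w hw h2]
    exact mono u u' w huu ((hfu u' hu').trans h2)
  have hJ : ∀ u ∈ D, u₀ ≤ u → Idl (lab u (f u)) = Idl (lab u₀ (f u₀)) := by
    intro u hu h0
    symm
    refine Set.eq_of_subset_of_ncard_le (hle u₀ u hu₀ hu h0) ?_ (toFinite _)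
    have h1 := le_csSup hbd ⟨u, ⟨hu, hxu₀.trans h0⟩, rfl⟩
    rw [← hmax] at h1
    exact h1
  refine ⟨Idl (lab u₀ (f u₀)), u₀, hxu₀, tot, mul, hu₀, fun u hu h0 w hw huw => ?_,
    fun u hu h0 => ⟨f u, hfD u hu, hfu u hu, fun w hw h1 => ?_⟩⟩
  · rw [← hJ u hu h0]
    rcases tot (f u) w with h | h
    · rw [hf u hu w hw h]
    · exact anti u w (f u) huw h
  · rw [hf u hu w hw h1, hJ u hu h0]

variable {D : Set M} {lab : M → M → G} {J : Set G} {u₀ : M}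

theorem Far.left (hB : IsBse D lab J u₀) {u' u w : M} (hu' : u' ∈ D) (hw : w ∈ D)
    (h0 : u₀ ≤ u') (h1 : u' ≤ u) (h : Far lab J u w) : Far lab J u' w := by
  refine ⟨h1.trans h.1, Subset.antisymm ?_ (hB.up u' hu' h0 w hw (h1.trans h.1))⟩
  rw [hB.mul u' u w h1 h.1, ← h.2]
  exact Idl_mul_left _ _

theorem Far.right (hB : IsBse D lab J u₀) {u w w' : M} (hu : u ∈ D) (hw' : w' ∈ D)
    (h0 : u₀ ≤ u) (h1 : w ≤ w') (h : Far lab J u w) : Far lab J u w' := by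
  refine ⟨h.1.trans h1, Subset.antisymm ?_ (hB.up u hu h0 w' hw' (h.1.trans h1))⟩
  rw [hB.mul u w w' h.1 h1, ← h.2]
  exact Idl_mul_right _ _

/-- every element is far from all late elements -/
theorem IsBse.exists_far (hB : IsBse D lab J u₀) {u : M} (hu : u ∈ D) (h0 : u₀ ≤ u) :
    ∃ v ∈ D, u ≤ v ∧ ∀ w ∈ D, v ≤ w → Far lab J u w := by
  obtain ⟨v, hv, huv, h⟩ := hB.far u hu h0
  exact ⟨v, hv, huv, fun w hw h1 => ⟨huv.trans h1, h w hw h1⟩⟩

/-- the right ideal generated by the labels of far pairs -/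
def rho (D : Set M) (lab : M → M → G) (J : Set G) (u : M) : Set G :=
  {t | ∃ w ∈ D, Far lab J u w ∧ ∃ b, t = lab u w * b}

theorem rho_eq [Finite G] (hB : IsBse D lab J u₀) {u w : M} (hu : u ∈ D) (h0 : u₀ ≤ u)
    (hw : w ∈ D) (h : Far lab J u w) : rho D lab J u = {t | ∃ b, t = lab u w * b} := by
  apply Subset.antisymm
  · rintro t ⟨w', hw', h', b, rfl⟩
    rcases hB.tot w w' with h1 | h1
    · refine ⟨lab w w' * b, ?_⟩
      rw [hB.mul u w w' h.1 h1, mul_assoc]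
    · have h2 := hB.mul u w' w h'.1 h1
      obtain ⟨c, hc⟩ := stab_right h2 (by
        rw [h.2, ← h'.2]
        exact mem_Idl_self _)
      refine ⟨c * b, ?_⟩
      rw [← mul_assoc, ← hc]
  · rintro t ⟨b, rfl⟩
    exact ⟨w, hw, h, b, rfl⟩

theorem rho_mul [Finite G] (hB : IsBse D lab J u₀) {u v : M} (hu : u ∈ D) (h0 : u₀ ≤ u)
    (hv : v ∈ D) (huv : u ≤ v) :
    rho D lab J u = {t | ∃ s ∈ rho D lab J v, t = lab u v * s} := by
  obtain ⟨w, hw, hvw, hfar⟩ := hB.exists_far hv (h0.trans huv)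
  have h1 := hfar w hw le_rfl
  have h2 := h1.left hB hu hw h0 huv
  rw [rho_eq hB hu h0 hw h2, rho_eq hB hv (h0.trans huv) hw h1]
  ext t
  constructor
  · rintro ⟨b, rfl⟩
    exact ⟨lab v w * b, ⟨b, rfl⟩, by rw [hB.mul u v w huv hvw, mul_assoc]⟩
  · rintro ⟨_, ⟨b, rfl⟩, rfl⟩
    exact ⟨b, by rw [hB.mul u v w huv hvw, mul_assoc]⟩

/-- **The labels of far pairs are determined by unary data.** -/
theorem far_lab [Finite G] (hB : IsBse D lab J u₀) {u w u' w' : M} (hu : u ∈ D) (h0 : u₀ ≤ u)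
    (hw : w ∈ D) (hu' : u' ∈ D) (h0' : u₀ ≤ u') (hw' : w' ∈ D) (h : Far lab J u w)
    (h' : Far lab J u' w') (h1 : lab u₀ u = lab u₀ u') (h2 : rho D lab J u = rho D lab J u')
    (h3 : lab u₀ w = lab u₀ w') : lab u w = lab u' w' := by
  rw [rho_eq hB hu h0 hw h, rho_eq hB hu' h0' hw' h'] at h2
  have h4 : lab u' w' ∈ {t | ∃ b, t = lab u w * b} := by
    rw [h2]
    exact ⟨1, by simp⟩
  obtain ⟨q, hq⟩ := h4
  have e1 := hB.mul u₀ u w h0 h.1
  have e2 := hB.mul u₀ u' w' h0' h'.1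
  refine green hq (a := lab u₀ u) ?_ ?_
  · rw [← e1, h3, e2, h1]
  · rw [← e1]
    have h5 : lab u w ∈ J := by
      rw [← h.2]
      exact mem_Idl_self _
    exact hB.up u₀ hB.mem le_rfl w hw (h0.trans h.1) h5

/-- labels to elements above `D` -/
theorem high_lab [Finite G] (hB : IsBse D lab J u₀) {u u' g : M} (hu : u ∈ D) (h0 : u₀ ≤ u)
    (hu' : u' ∈ D) (h0' : u₀ ≤ u') (h1 : lab u₀ u = lab u₀ u')
    (h2 : rho D lab J u = rho D lab J u') (hg : ∀ d ∈ D, d ≤ g) : lab u g = lab u' g := by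
  obtain ⟨v, hv, huv, hf⟩ := hB.exists_far hu h0
  obtain ⟨v', hv', huv', hf'⟩ := hB.exists_far hu' h0'
  obtain ⟨w, hw, h3, h4⟩ : ∃ w ∈ D, v ≤ w ∧ v' ≤ w := by
    rcases hB.tot v v' with h | h
    · exact ⟨v', hv', h, le_rfl⟩
    · exact ⟨v, hv, le_rfl, h⟩
  rw [hB.mul u w g (huv.trans h3) (hg w hw), hB.mul u' w g (huv'.trans h4) (hg w hw),
    far_lab hB hu h0 hw hu' h0' hw (hf w hw h3) (hf' w hw h4) h1 h2 rfl]

end FAR

end Pool.Agent.Helper97.LO
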