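import Pool.Agent.Helper6.T2.Defs
import Pool.Agent.Helper5.VCM.Ord
import Pool.Agent.Helper68.VCM.NBA2

/-!
# Labelled ordered sums: composition, intervals, Scott levels, tame unions
-/

set_option autoImplicit false
set_option linter.unusedSectionVars false
set_option linter.unusedVariables false

namespace Pool.Agent.Helper97.LO

open Set Pool.Agent.Helper5.DU Pool.Agent.Helper6.Str Pool.Agent.Helper79.VC
  Pool.Agent.Helper97.VC Pool.Agent.Helper97.MD

variable {L : FirstOrder.Language.{0, 0}} {M N P : Type}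

/-! ### general composition over named pairs -/

/-- **Composition over named pairs.** -/
theorem BFR.comp_over (hL : Ar2 L) {S : L.Structure M} {S' : L.Structure N} {I : Type}
    [Nonempty I] (π : M → I) (π' : N → I) {U : Set M} {V : Set N} {q : I → Set (M × N)}
    {Q : Set (M × N)} (hQ : ∀ i, Q ⊆ q i)
    (H : ∀ a b : M × N, a.1 ∈ U → a.2 ∈ V → π a.1 = π' a.2 → b.1 ∈ U → b.2 ∈ V →
      π b.1 = π' b.2 → π a.1 ≠ π b.1 → AtEq S S' (insert a (q (π a.1))) →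
      AtEq S S' (insert b (q (π b.1))) → AtEq S S' {a, b}) (γ : Ordinal.{0}) :
    ∀ {p : Set (M × N)}, (∀ a ∈ p, a.1 ∈ U ∧ a.2 ∈ V ∧ π a.1 = π' a.2) →
      (∀ i, BFR S S' {a ∈ U | π a = i} {b ∈ V | π' b = i} γ ({a ∈ p | π a.1 = i} ∪ q i)) →
      BFR S S' U V γ (p ∪ Q) := by
  induction γ using WellFoundedLT.induction with
  | _ γ ih =>
    intro p hp h
    rw [BFR.def]
    refine ⟨?_, fun β hβ => ⟨fun x hx => ?_, fun y hy => ?_⟩⟩
    · obtain ⟨i₀⟩ := ‹Nonempty I›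
      refine atEq_of_pairs hL fun a ha b hb => ?_
      rcases ha with ha | ha
      · have h1 : AtEq S S' (insert a (q (π a.1))) := by
          refine AtEq.anti ?_ (h (π a.1)).atEq
          rintro c (rfl | hc)
          · exact Or.inl ⟨ha, rfl⟩
          · exact Or.inr hc
        rcases hb with hb | hb
        · by_cases hab : π a.1 = π b.1
          · refine AtEq.anti ?_ (h (π a.1)).atEq
            rintro c (rfl | rfl)
            · exact Or.inl ⟨ha, rfl⟩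
            · exact Or.inl ⟨hb, hab.symm⟩
          · obtain ⟨ha1, ha2, ha3⟩ := hp a ha
            obtain ⟨hb1, hb2, hb3⟩ := hp b hb
            refine H a b ha1 ha2 ha3 hb1 hb2 hb3 hab h1 ?_
            refine AtEq.anti ?_ (h (π b.1)).atEq
            rintro c (rfl | hc)
            · exact Or.inl ⟨hb, rfl⟩
            · exact Or.inr hc
        · refine AtEq.anti ?_ h1
          rintro c (rfl | rfl)
          · exact mem_insert _ _
          · exact mem_insert_of_mem _ (hQ _ hb)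
      · rcases hb with hb | hb
        · refine AtEq.anti ?_ (h (π b.1)).atEq
          rintro c (rfl | rfl)
          · exact Or.inr (hQ _ ha)
          · exact Or.inl ⟨hb, rfl⟩
        · refine AtEq.anti ?_ (h i₀).atEq
          rintro c (rfl | rfl)
          · exact Or.inr (hQ _ ha)
          · exact Or.inr (hQ _ hb)
    · obtain ⟨y, ⟨hyV, hyπ⟩, hy⟩ := (h (π x)).forth hβ (x := x) ⟨hx, rfl⟩
      refine ⟨y, hyV, ?_⟩
      rw [← insert_union]
      refine ih β hβ ?_ fun i => ?_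
      · rintro a (rfl | ha)
        · exact ⟨hx, hyV, hyπ.symm⟩
        · exact hp a ha
      · by_cases hi : π x = i
        · subst hi
          refine BFR.anti ?_ hy
          rintro a (⟨rfl | ha, hai⟩ | ha)
          · exact mem_insert _ _
          · exact mem_insert_of_mem _ (Or.inl ⟨ha, hai⟩)
          · exact mem_insert_of_mem _ (Or.inr ha)
        · refine BFR.anti ?_ ((h i).mono hβ.le)
          rintro a (⟨rfl | ha, hai⟩ | ha)
          · exact absurd hai hi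
          · exact Or.inl ⟨ha, hai⟩
          · exact Or.inr ha
    · obtain ⟨x, ⟨hxU, hxπ⟩, hx⟩ := (h (π' y)).back hβ (y := y) ⟨hy, rfl⟩
      refine ⟨x, hxU, ?_⟩
      rw [← insert_union]
      refine ih β hβ ?_ fun i => ?_
      · rintro a (rfl | ha)
        · exact ⟨hxU, hy, hxπ⟩
        · exact hp a ha
      · by_cases hi : π' y = i
        · subst hi
          refine BFR.anti ?_ hx
          rintro a (⟨rfl | ha, hai⟩ | ha)
          · exact mem_insert _ _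
          · exact mem_insert_of_mem _ (Or.inl ⟨ha, hai⟩)
          · exact mem_insert_of_mem _ (Or.inr ha)
        · refine BFR.anti ?_ ((h i).mono hβ.le)
          rintro a (⟨rfl | ha, hai⟩ | ha)
          · exact absurd (hxπ.symm.trans hai) hi
          · exact Or.inl ⟨ha, hai⟩
          · exact Or.inr ha

/-- **Binary composition over named pairs.** -/
theorem BFR.comp2_over (hL : Ar2 L) {S : L.Structure M} {S' : L.Structure N}
    {U₁ U₂ : Set M} {V₁ V₂ : Set N} {q : Set (M × N)} (hU : ∀ a ∈ U₁, a ∉ U₂)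
    (hV : ∀ a ∈ V₁, a ∉ V₂)
    (H : ∀ a b : M × N, a.1 ∈ U₁ → a.2 ∈ V₁ → b.1 ∈ U₂ → b.2 ∈ V₂ →
      AtEq S S' (insert a q) → AtEq S S' (insert b q) → AtEq S S' {a, b})
    {γ : Ordinal.{0}} {p₁ p₂ : Set (M × N)} (hp₁ : ∀ a ∈ p₁, a.1 ∈ U₁ ∧ a.2 ∈ V₁)
    (hp₂ : ∀ a ∈ p₂, a.1 ∈ U₂ ∧ a.2 ∈ V₂) (h₁ : BFR S S' U₁ V₁ γ (p₁ ∪ q))
    (h₂ : BFR S S' U₂ V₂ γ (p₂ ∪ q)) : BFR S S' (U₁ ∪ U₂) (V₁ ∪ V₂) γ (p₁ ∪ p₂ ∪ q) := by
  classical
  have hb : ∀ i : Bool, i = false ∨ i = true := by decide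
  have e1 : {a ∈ U₁ ∪ U₂ | decide (a ∈ U₂) = false} = U₁ := by
    ext a
    constructor
    · rintro ⟨h1 | h1, h2⟩
      · exact h1
      · exact absurd h1 (of_decide_eq_false h2)
    · intro h1
      exact ⟨Or.inl h1, decide_eq_false (hU a h1)⟩
  have e2 : {a ∈ V₁ ∪ V₂ | decide (a ∈ V₂) = false} = V₁ := by
    ext a
    constructor
    · rintro ⟨h1 | h1, h2⟩
      · exact h1
      · exact absurd h1 (of_decide_eq_false h2)
    · intro h1
      exact ⟨Or.inl h1, decide_eq_false (hV a h1)⟩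
  have e3 : {a ∈ U₁ ∪ U₂ | decide (a ∈ U₂) = true} = U₂ := by
    ext a
    constructor
    · rintro ⟨h1 | h1, h2⟩
      · exact of_decide_eq_true h2
      · exact h1
    · intro h1
      exact ⟨Or.inr h1, decide_eq_true h1⟩
  have e4 : {a ∈ V₁ ∪ V₂ | decide (a ∈ V₂) = true} = V₂ := by
    ext a
    constructor
    · rintro ⟨h1 | h1, h2⟩
      · exact of_decide_eq_true h2
      · exact h1
    · intro h1
      exact ⟨Or.inr h1, decide_eq_true h1⟩
  refine BFR.comp_over hL (I := Bool) (fun a => decide (a ∈ U₂)) (fun a => decide (a ∈ V₂))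
    (q := fun _ => q) (fun _ => Subset.rfl) ?_ γ ?_ ?_
  · intro a b ha1 ha2 ha3 hb1 hb2 hb3 hab h1 h2
    by_cases ha : a.1 ∈ U₂
    · have ha' : a.2 ∈ V₂ := by
        have : decide (a.1 ∈ U₂) = decide (a.2 ∈ V₂) := ha3
        rw [decide_eq_true ha] at this
        exact of_decide_eq_true this.symm
      have hb' : b.1 ∉ U₂ := fun h => hab (by
        show decide (a.1 ∈ U₂) = decide (b.1 ∈ U₂)
        rw [decide_eq_true ha, decide_eq_true h])
      have hb'' : b.2 ∉ V₂ := by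
        have : decide (b.1 ∈ U₂) = decide (b.2 ∈ V₂) := hb3
        rw [decide_eq_false hb'] at this
        exact of_decide_eq_false this.symm
      rw [pair_comm]
      exact H b a (hb1.resolve_right hb') (hb2.resolve_right hb'') ha ha' h2 h1
    · have ha' : a.2 ∉ V₂ := by
        have : decide (a.1 ∈ U₂) = decide (a.2 ∈ V₂) := ha3
        rw [decide_eq_false ha] at this
        exact of_decide_eq_false this.symm
      have hb' : b.1 ∈ U₂ := by
        by_contra h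
        exact hab (by
          show decide (a.1 ∈ U₂) = decide (b.1 ∈ U₂)
          rw [decide_eq_false ha, decide_eq_false h])
      have hb'' : b.2 ∈ V₂ := by
        have : decide (b.1 ∈ U₂) = decide (b.2 ∈ V₂) := hb3
        rw [decide_eq_true hb'] at this
        exact of_decide_eq_true this.symm
      exact H a b (ha1.resolve_right ha) (ha2.resolve_right ha') hb' hb'' h1 h2
  · rintro a (ha | ha)
    · obtain ⟨h1, h2⟩ := hp₁ a ha
      refine ⟨Or.inl h1, Or.inl h2, ?_⟩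
      simp [hU _ h1, hV _ h2]
    · obtain ⟨h1, h2⟩ := hp₂ a ha
      refine ⟨Or.inr h1, Or.inr h2, ?_⟩
      simp [h1, h2]
  · intro i
    rcases hb i with rfl | rfl
    · rw [e1, e2]
      refine BFR.anti (union_subset_union_left _ ?_) h₁
      rintro a ⟨h1 | h1, h2⟩
      · exact h1
      · exact absurd (hp₂ a h1).1 (of_decide_eq_false h2)
    · rw [e3, e4]
      refine BFR.anti (union_subset_union_left _ ?_) h₂
      rintro a ⟨h1 | h1, h2⟩
      · exact absurd (of_decide_eq_true h2) (hU _ (hp₁ a h1).1)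
      · exact h1

/-- **Change of named pairs.** -/
theorem BFR.param (hL : Ar2 L) {S : L.Structure M} {S' : L.Structure N} {U : Set M} {V : Set N}
    {q q' : Set (M × N)} (H₀ : AtEq S S' q → AtEq S S' q')
    (H : ∀ a : M × N, a.1 ∈ U → a.2 ∈ V → AtEq S S' (insert a q) → AtEq S S' (insert a q'))
    (γ : Ordinal.{0}) : ∀ {p : Set (M × N)}, (∀ a ∈ p, a.1 ∈ U ∧ a.2 ∈ V) →
      BFR S S' U V γ (p ∪ q) → BFR S S' U V γ (p ∪ q') := by
  induction γ using WellFoundedLT.induction with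
  | _ γ ih =>
    intro p hp h
    rw [BFR.def]
    refine ⟨?_, fun β hβ => ⟨fun x hx => ?_, fun y hy => ?_⟩⟩
    · have key : ∀ a ∈ p, AtEq S S' (insert a q') := fun a ha =>
        H a (hp a ha).1 (hp a ha).2 (AtEq.anti (by
          rintro c (rfl | hc)
          · exact Or.inl ha
          · exact Or.inr hc) h.atEq)
      refine atEq_of_pairs hL fun a ha b hb => ?_
      rcases ha with ha | ha
      · rcases hb with hb | hb
        · refine AtEq.anti ?_ h.atEq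
          rintro c (rfl | rfl)
          · exact Or.inl ha
          · exact Or.inl hb
        · refine AtEq.anti ?_ (key a ha)
          rintro c (rfl | rfl)
          · exact mem_insert _ _
          · exact mem_insert_of_mem _ hb
      · rcases hb with hb | hb
        · refine AtEq.anti ?_ (key b hb)
          rintro c (rfl | rfl)
          · exact mem_insert_of_mem _ ha
          · exact mem_insert _ _
        · refine AtEq.anti ?_ (H₀ (AtEq.anti subset_union_right h.atEq))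
          rintro c (rfl | rfl)
          · exact ha
          · exact hb
    · obtain ⟨y, hyV, hy⟩ := h.forth hβ hx
      refine ⟨y, hyV, ?_⟩
      rw [← insert_union]
      refine ih β hβ ?_ (by rwa [insert_union])
      rintro a (rfl | ha)
      · exact ⟨hx, hyV⟩
      · exact hp a ha
    · obtain ⟨x, hxU, hx⟩ := h.back hβ hy
      refine ⟨x, hxU, ?_⟩
      rw [← insert_union]
      refine ih β hβ ?_ (by rwa [insert_union])
      rintro a (rfl | ha)
      · exact ⟨hxU, hy⟩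
      · exact hp a ha

/-! ### order -/

section

variable [Preorder M] [Preorder N] {G : Type} [Monoid G] {r : L.Relations 2} {o : Bool}
  {S : L.Structure M} {T : L.Structure N} {lab : M → M → G} {lab' : N → N → G}

theorem LSt.le_congr₂ (hS : LSt r o lab S) (hT : LSt r o lab' T) {p : Set (M × N)}
    (h : AtEq S T p) {a b : M × N} (ha : a ∈ p) (hb : b ∈ p) : a.1 ≤ b.1 ↔ a.2 ≤ b.2 := by
  rw [hS.le_iff, hT.le_iff]
  have key : ∀ a ∈ p, ∀ b ∈ p, S.RelMap r ![a.1, b.1] ↔ T.RelMap r ![a.2, b.2] := by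
    intro a ha b hb
    have h1 := h.2 2 r ![a, b] (by
      intro i
      fin_cases i
      · exact ha
      · exact hb)
    have e1 : (fun i => ((![a, b] : Fin 2 → M × N) i).1) = ![a.1, b.1] := by
      funext i
      fin_cases i <;> rfl
    have e2 : (fun i => ((![a, b] : Fin 2 → M × N) i).2) = ![a.2, b.2] := by
      funext i
      fin_cases i <;> rfl
    rw [e1, e2] at h1
    exact h1
  cases o
  · simpa using key b hb a ha
  · simpa using key a ha b hb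

theorem LSt.lt_congr₂ (hS : LSt r o lab S) (hT : LSt r o lab' T) {p : Set (M × N)}
    (h : AtEq S T p) {a b : M × N} (ha : a ∈ p) (hb : b ∈ p) : a.1 < b.1 ↔ a.2 < b.2 := by
  rw [lt_iff_le_not_ge, lt_iff_le_not_ge, hS.le_congr₂ hT h ha hb, hS.le_congr₂ hT h hb ha]

theorem LSt.le_congr (hO : LSt r o lab S) {p : Set (M × M)} (h : AtEq S S p) {a b : M × M}
    (ha : a ∈ p) (hb : b ∈ p) : a.1 ≤ b.1 ↔ a.2 ≤ b.2 := hO.le_congr₂ hO h ha hb

theorem LSt.lt_congr (hO : LSt r o lab S) {p : Set (M × M)} (h : AtEq S S p) {a b : M × M}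
    (ha : a ∈ p) (hb : b ∈ p) : a.1 < b.1 ↔ a.2 < b.2 := hO.lt_congr₂ hO h ha hb

theorem LSt.lt_of_not_le (hS : LSt r o lab S) {a b : M} (h : ¬ a ≤ b) : b < a := by
  rcases hS.total a b with h1 | h1
  · exact absurd h1 h
  · exact lt_iff_le_not_ge.2 ⟨h1, h⟩

theorem LSt.not_le (hS : LSt r o lab S) {a b : M} : ¬ a ≤ b ↔ b < a :=
  ⟨hS.lt_of_not_le, fun h h' => (lt_irrefl _ (h.trans_le h'))⟩

theorem LSt.not_lt (hS : LSt r o lab S) {a b : M} : ¬ a < b ↔ b ≤ a := by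
  rw [← hS.not_le, not_not]

/-- the label does not change inside the class of the first element -/
theorem LSt.lab_left (hS : LSt r o lab S) {a a' b : M} (h1 : a ≤ a') (h2 : a' ≤ a)
    (h3 : a' ≤ b) : lab a b = lab a' b := by
  rw [hS.mul a a' b h1 h3, hS.one a a' h1 h2, one_mul]

/-- the label does not change inside the class of the second element -/
theorem LSt.lab_right (hS : LSt r o lab S) {a b b' : M} (h1 : b ≤ b') (h2 : b' ≤ b)
    (h3 : a ≤ b) : lab a b' = lab a b := by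
  rw [hS.mul a b b' h3 h1, hS.one b b' h1 h2, mul_one]

/-! ### intervals are respected -/

theorem LSt.ioi (hS : LSt r o lab S) (hT : LSt r o lab' T) {X : Set M} {Y : Set N}
    {u : M} {u' : N} {γ : Ordinal.{0}} {p : Set (M × N)} (hu : (u, u') ∈ p)
    (h : BFR S T X Y γ p) : BFR S T (X ∩ Ioi u) (Y ∩ Ioi u') γ p :=
  BFR.restr₀ inter_subset_left inter_subset_left (fun x hx y hy h' => by
    have := hS.lt_congr₂ hT h' (a := (u, u')) (b := (x, y)) (mem_insert_of_mem _ hu)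
      (mem_insert _ _)
    exact ⟨fun hh => ⟨hy, this.1 hh.2⟩, fun hh => ⟨hx, this.2 hh.2⟩⟩) h

theorem LSt.ici (hS : LSt r o lab S) (hT : LSt r o lab' T) {X : Set M} {Y : Set N}
    {u : M} {u' : N} {γ : Ordinal.{0}} {p : Set (M × N)} (hu : (u, u') ∈ p)
    (h : BFR S T X Y γ p) : BFR S T (X ∩ Ici u) (Y ∩ Ici u') γ p :=
  BFR.restr₀ inter_subset_left inter_subset_left (fun x hx y hy h' => by
    have := hS.le_congr₂ hT h' (a := (u, u')) (b := (x, y)) (mem_insert_of_mem _ hu)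
      (mem_insert _ _)
    exact ⟨fun hh => ⟨hy, this.1 hh.2⟩, fun hh => ⟨hx, this.2 hh.2⟩⟩) h

theorem LSt.iio (hS : LSt r o lab S) (hT : LSt r o lab' T) {X : Set M} {Y : Set N}
    {u : M} {u' : N} {γ : Ordinal.{0}} {p : Set (M × N)} (hu : (u, u') ∈ p)
    (h : BFR S T X Y γ p) : BFR S T (X ∩ Iio u) (Y ∩ Iio u') γ p :=
  BFR.restr₀ inter_subset_left inter_subset_left (fun x hx y hy h' => by
    have := hS.lt_congr₂ hT h' (b := (u, u')) (a := (x, y)) (mem_insert _ _)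
      (mem_insert_of_mem _ hu)
    exact ⟨fun hh => ⟨hy, this.1 hh.2⟩, fun hh => ⟨hx, this.2 hh.2⟩⟩) h

theorem LSt.iic (hS : LSt r o lab S) (hT : LSt r o lab' T) {X : Set M} {Y : Set N}
    {u : M} {u' : N} {γ : Ordinal.{0}} {p : Set (M × N)} (hu : (u, u') ∈ p)
    (h : BFR S T X Y γ p) : BFR S T (X ∩ Iic u) (Y ∩ Iic u') γ p :=
  BFR.restr₀ inter_subset_left inter_subset_left (fun x hx y hy h' => by
    have := hS.le_congr₂ hT h' (b := (u, u')) (a := (x, y)) (mem_insert _ _)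
      (mem_insert_of_mem _ hu)
    exact ⟨fun hh => ⟨hy, this.1 hh.2⟩, fun hh => ⟨hx, this.2 hh.2⟩⟩) h

theorem LSt.icc (hS : LSt r o lab S) (hT : LSt r o lab' T) {X : Set M} {Y : Set N}
    {u v : M} {u' v' : N} {γ : Ordinal.{0}} {p : Set (M × N)} (hu : (u, u') ∈ p)
    (hv : (v, v') ∈ p) (h : BFR S T X Y γ p) :
    BFR S T (X ∩ Icc u v) (Y ∩ Icc u' v') γ p := by
  have h1 := hS.iic hT hv (hS.ici hT hu h)
  rwa [inter_assoc, inter_assoc] at h1

theorem LSt.ioc (hS : LSt r o lab S) (hT : LSt r o lab' T) {X : Set M} {Y : Set N}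
    {u v : M} {u' v' : N} {γ : Ordinal.{0}} {p : Set (M × N)} (hu : (u, u') ∈ p)
    (hv : (v, v') ∈ p) (h : BFR S T X Y γ p) :
    BFR S T (X ∩ Ioc u v) (Y ∩ Ioc u' v') γ p := by
  have h1 := hS.iic hT hv (hS.ioi hT hu h)
  rwa [inter_assoc, inter_assoc] at h1

theorem LSt.ico (hS : LSt r o lab S) (hT : LSt r o lab' T) {X : Set M} {Y : Set N}
    {u v : M} {u' v' : N} {γ : Ordinal.{0}} {p : Set (M × N)} (hu : (u, u') ∈ p)
    (hv : (v, v') ∈ p) (h : BFR S T X Y γ p) :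
    BFR S T (X ∩ Ico u v) (Y ∩ Ico u' v') γ p := by
  have h1 := hS.iio hT hv (hS.ici hT hu h)
  rwa [inter_assoc, inter_assoc] at h1

theorem LSt.ioo (hS : LSt r o lab S) (hT : LSt r o lab' T) {X : Set M} {Y : Set N}
    {u v : M} {u' v' : N} {γ : Ordinal.{0}} {p : Set (M × N)} (hu : (u, u') ∈ p)
    (hv : (v, v') ∈ p) (h : BFR S T X Y γ p) :
    BFR S T (X ∩ Ioo u v) (Y ∩ Ioo u' v') γ p := by
  have h1 := hS.iio hT hv (hS.ioi hT hu h)
  rwa [inter_assoc, inter_assoc] at h1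

/-! ### cross rules -/

/-- labels of a pair are respected -/
theorem LSt.lab_congr (hS : LSt r o lab S) {a b : M × M} (hab : a.1 ≤ b.1)
    (h : AtEq S S {a, b}) : lab a.1 b.1 = lab a.2 b.2 :=
  hS.inv a.1 b.1 a.2 b.2 hab h

/-- **Labels over a named point.** -/
theorem LSt.lab_at (hS : LSt r o lab S) {a b m : M × M} (h₁ : a.1 ≤ m.1) (h₂ : m.1 ≤ b.1)
    (h : AtEq S S {a, m}) (h' : AtEq S S {b, m}) : lab a.1 b.1 = lab a.2 b.2 := by
  have h₁' : a.2 ≤ m.2 := (hS.le_congr₂ hS h (mem_insert _ _) (mem_insert_of_mem _ rfl)).1 h₁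
  have h₂' : m.2 ≤ b.2 := (hS.le_congr₂ hS h' (mem_insert_of_mem _ rfl) (mem_insert _ _)).1 h₂
  rw [hS.mul _ _ _ h₁ h₂, hS.mul _ _ _ h₁' h₂', hS.lab_congr h₁ h,
    hS.lab_congr h₂ (by rwa [pair_comm] at h')]

/-- **Cross rule at a named point.** -/
theorem LSt.cross_at (hS : LSt r o lab S) {a b m : M × M} (h₁ : a.1 ≤ m.1)
    (h₂ : m.1 ≤ b.1) (hab : a.1 < b.1) (hab' : a.2 < b.2) (h : AtEq S S {a, m})
    (h' : AtEq S S {b, m}) : AtEq S S {a, b} :=
  hS.cross a.1 b.1 a.2 b.2 hab hab' (hS.lab_at h₁ h₂ h h')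
    (AtEq.anti (singleton_subset_iff.2 (mem_insert _ _)) h)
    (AtEq.anti (singleton_subset_iff.2 (mem_insert _ _)) h')

/-- a named point replaced by an equivalent one of the same class -/
theorem LSt.cross_cl (hS : LSt r o lab S) {a a' m m' : M} (hmm : m ≤ m') (hmm' : m' ≤ m)
    (h1 : AtEq S S {(m, m')}) (h : AtEq S S {(a, a'), (m, m)}) (h2 : a < m ∨ m < a) :
    AtEq S S {(a, a'), (m, m')} := by
  have hA : AtEq S S {(a, a')} := AtEq.anti (singleton_subset_iff.2 (mem_insert _ _)) h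
  rcases h2 with h2 | h2
  · have h3 : a' < m := (hS.lt_congr₂ hS h (a := (a, a')) (b := (m, m)) (mem_insert _ _)
      (mem_insert_of_mem _ rfl)).1 h2
    refine hS.cross a m a' m' h2 (lt_of_lt_of_le h3 hmm) ?_ hA h1
    rw [hS.inv a m a' m h2.le h, hS.lab_right hmm hmm' h3.le]
  · have h3 : m < a' := (hS.lt_congr₂ hS h (a := (m, m)) (b := (a, a')) (mem_insert_of_mem _ rfl)
      (mem_insert _ _)).1 h2
    rw [pair_comm] at h ⊢
    refine hS.cross m a m' a' h2 (lt_of_le_of_lt hmm' h3) ?_ h1 hA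
    rw [hS.inv m a m a' h2.le h, hS.lab_left hmm hmm' (hmm'.trans h3.le)]

end

section

variable [Preorder N] {G : Type} [Monoid G] {r : L.Relations 2} {o : Bool}
  {T : L.Structure N} {lab : N → N → G}

/-! ### composition -/

/-- **Composition along a linear order**: the labels of cross pairs are determined over the
named pairs. -/
theorem LSt.compq (hL : Ar2 L) (hT : LSt r o lab T) {I : Type} [LinearOrder I] [Nonempty I]
    (π π' : N → I) {U V : Set N} {q : I → Set (N × N)} {Q : Set (N × N)} (hQ : ∀ i, Q ⊆ q i)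
    (hU : ∀ a ∈ U, ∀ b ∈ U, π a < π b → a < b) (hV : ∀ a ∈ V, ∀ b ∈ V, π' a < π' b → a < b)
    (H : ∀ a b : N × N, a.1 ∈ U → a.2 ∈ V → π a.1 = π' a.2 → b.1 ∈ U → b.2 ∈ V →
      π b.1 = π' b.2 → π a.1 < π b.1 → AtEq T T (insert a (q (π a.1))) →
      AtEq T T (insert b (q (π b.1))) → lab a.1 b.1 = lab a.2 b.2) {γ : Ordinal.{0}}
    {p : Set (N × N)} (hp : ∀ a ∈ p, a.1 ∈ U ∧ a.2 ∈ V ∧ π a.1 = π' a.2)
    (h : ∀ i, BFR T T {a ∈ U | π a = i} {b ∈ V | π' b = i} γ ({a ∈ p | π a.1 = i} ∪ q i)) :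
    BFR T T U V γ (p ∪ Q) := by
  refine BFR.comp_over hL π π' hQ ?_ γ hp h
  have key : ∀ a b : N × N, a.1 ∈ U → a.2 ∈ V → π a.1 = π' a.2 → b.1 ∈ U → b.2 ∈ V →
      π b.1 = π' b.2 → π a.1 < π b.1 → AtEq T T (insert a (q (π a.1))) →
      AtEq T T (insert b (q (π b.1))) → AtEq T T {a, b} := by
    intro a b ha1 ha2 ha3 hb1 hb2 hb3 hab h1 h2
    exact hT.cross a.1 b.1 a.2 b.2 (hU _ ha1 _ hb1 hab) (hV _ ha2 _ hb2 (by rwa [← ha3, ← hb3]))
      (H a b ha1 ha2 ha3 hb1 hb2 hb3 hab h1 h2)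
      (AtEq.anti (singleton_subset_iff.2 (mem_insert _ _)) h1)
      (AtEq.anti (singleton_subset_iff.2 (mem_insert _ _)) h2)
  intro a b ha1 ha2 ha3 hb1 hb2 hb3 hab h1 h2
  rcases lt_or_gt_of_ne hab with h3 | h3
  · exact key a b ha1 ha2 ha3 hb1 hb2 hb3 h3 h1 h2
  · rw [pair_comm]
    exact key b a hb1 hb2 hb3 ha1 ha2 ha3 h3 h2 h1

/-- **Binary composition**: the labels of cross pairs are determined over the named pairs. -/
theorem LSt.comp2q (hL : Ar2 L) (hT : LSt r o lab T) {U₁ U₂ V₁ V₂ : Set N}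
    (hU : ∀ a ∈ U₁, ∀ b ∈ U₂, a < b) (hV : ∀ a ∈ V₁, ∀ b ∈ V₂, a < b) {γ : Ordinal.{0}}
    {p₁ p₂ q : Set (N × N)} (hp₁ : ∀ a ∈ p₁, a.1 ∈ U₁ ∧ a.2 ∈ V₁)
    (hp₂ : ∀ a ∈ p₂, a.1 ∈ U₂ ∧ a.2 ∈ V₂)
    (hq : ∀ a ∈ U₁, ∀ a' ∈ V₁, ∀ b ∈ U₂, ∀ b' ∈ V₂, AtEq T T (insert (a, a') q) →
      AtEq T T (insert (b, b') q) → lab a b = lab a' b')
    (h₁ : BFR T T U₁ V₁ γ (p₁ ∪ q)) (h₂ : BFR T T U₂ V₂ γ (p₂ ∪ q)) :
    BFR T T (U₁ ∪ U₂) (V₁ ∪ V₂) γ (p₁ ∪ p₂ ∪ q) := by
  refine BFR.comp2_over hL (fun a h1 h2 => lt_irrefl _ (hU a h1 a h2))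
    (fun a h1 h2 => lt_irrefl _ (hV a h1 a h2)) ?_ hp₁ hp₂ h₁ h₂
  intro a b ha1 ha2 hb1 hb2 h1 h2
  exact hT.cross a.1 b.1 a.2 b.2 (hU _ ha1 _ hb1) (hV _ ha2 _ hb2)
    (hq a.1 ha1 a.2 ha2 b.1 hb1 b.2 hb2 h1 h2)
    (AtEq.anti (singleton_subset_iff.2 (mem_insert _ _)) h1)
    (AtEq.anti (singleton_subset_iff.2 (mem_insert _ _)) h2)

/-- **Gluing at a named point.** -/
theorem LSt.glue (hL : Ar2 L) (hT : LSt r o lab T) {U₁ U₂ V₁ V₂ : Set N} {m m' : N}
    (hU : ∀ a ∈ U₁, ∀ b ∈ U₂, a < b) (hV : ∀ a ∈ V₁, ∀ b ∈ V₂, a < b)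
    (hU₁ : ∀ a ∈ U₁, a ≤ m) (hU₂ : ∀ a ∈ U₂, m ≤ a) {q : Set (N × N)} (hq : (m, m') ∈ q)
    {γ : Ordinal.{0}} {p₁ p₂ : Set (N × N)} (hp₁ : ∀ a ∈ p₁, a.1 ∈ U₁ ∧ a.2 ∈ V₁)
    (hp₂ : ∀ a ∈ p₂, a.1 ∈ U₂ ∧ a.2 ∈ V₂) (h₁ : BFR T T U₁ V₁ γ (p₁ ∪ q))
    (h₂ : BFR T T U₂ V₂ γ (p₂ ∪ q)) : BFR T T (U₁ ∪ U₂) (V₁ ∪ V₂) γ (p₁ ∪ p₂ ∪ q) := by
  refine hT.comp2q hL hU hV hp₁ hp₂ ?_ h₁ h₂
  intro a ha a' ha' b hb b' hb' h1 h2
  refine hT.lab_at (a := (a, a')) (b := (b, b')) (m := (m, m')) (hU₁ _ ha) (hU₂ _ hb)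
    (AtEq.anti ?_ h1) (AtEq.anti ?_ h2)
  · rintro c (rfl | rfl)
    · exact mem_insert _ _
    · exact mem_insert_of_mem _ hq
  · rintro c (rfl | rfl)
    · exact mem_insert _ _
    · exact mem_insert_of_mem _ hq

/-- gluing at a named point: version with only the named pair -/
theorem LSt.glue' (hL : Ar2 L) (hT : LSt r o lab T) {U₁ U₂ V₁ V₂ : Set N} {m m' : N}
    (hU : ∀ a ∈ U₁, ∀ b ∈ U₂, a < b) (hV : ∀ a ∈ V₁, ∀ b ∈ V₂, a < b)
    (hU₁ : ∀ a ∈ U₁, a ≤ m) (hU₂ : ∀ a ∈ U₂, m ≤ a)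
    {γ : Ordinal.{0}} {p₁ p₂ : Set (N × N)} (hp₁ : ∀ a ∈ p₁, a.1 ∈ U₁ ∧ a.2 ∈ V₁)
    (hp₂ : ∀ a ∈ p₂, a.1 ∈ U₂ ∧ a.2 ∈ V₂) (h₁ : BFR T T U₁ V₁ γ (insert (m, m') p₁))
    (h₂ : BFR T T U₂ V₂ γ (insert (m, m') p₂)) :
    BFR T T (U₁ ∪ U₂) (V₁ ∪ V₂) γ (insert (m, m') (p₁ ∪ p₂)) := by
  have e : ∀ p : Set (N × N), insert (m, m') p = p ∪ {(m, m')} := fun p => by
    rw [union_comm]
    rfl
  rw [e] at h₁ h₂ ⊢
  exact hT.glue hL hU hV hU₁ hU₂ (mem_singleton _) hp₁ hp₂ h₁ h₂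

/-- **Composition at a named point.** -/
theorem LSt.comp2n (hL : Ar2 L) (hT : LSt r o lab T) {U₁ U₂ V₁ V₂ : Set N} {m m' : N}
    (hU₁ : ∀ a ∈ U₁, a ≤ m) (hU₂ : ∀ b ∈ U₂, m < b) (hV₁ : ∀ a ∈ V₁, a ≤ m')
    (hV₂ : ∀ b ∈ V₂, m' < b) {γ : Ordinal.{0}} {p₁ p₂ : Set (N × N)}
    (hp₁ : ∀ a ∈ p₁, a.1 ∈ U₁ ∧ a.2 ∈ V₁) (hp₂ : ∀ a ∈ p₂, a.1 ∈ U₂ ∧ a.2 ∈ V₂)
    (h₁ : BFR T T U₁ V₁ γ (insert (m, m') p₁)) (h₂ : BFR T T U₂ V₂ γ (insert (m, m') p₂)) :
    BFR T T (U₁ ∪ U₂) (V₁ ∪ V₂) γ (insert (m, m') (p₁ ∪ p₂)) :=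
  hT.glue' hL (fun a ha b hb => lt_of_le_of_lt (hU₁ a ha) (hU₂ b hb))
    (fun a ha b hb => lt_of_le_of_lt (hV₁ a ha) (hV₂ b hb)) hU₁
    (fun b hb => le_of_lt (hU₂ b hb)) hp₁ hp₂ h₁ h₂

/-- the identity with a named point replaced by an equivalent one of the same class -/
theorem LSt.refl_cl (hL : Ar2 L) (hT : LSt r o lab T) {U : Set N} {m m' : N}
    (hmm : m ≤ m') (hmm' : m' ≤ m) (h1 : AtEq T T {(m, m')})
    (hU : ∀ a ∈ U, a < m ∨ m < a) (γ : Ordinal.{0}) {p : Set (N × N)}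
    (hp : ∀ a ∈ p, a.1 ∈ U ∧ a.1 = a.2) : BFR T T U U γ (insert (m, m') p) := by
  have h2 : BFR T T U U γ (p ∪ {(m, m)}) := by
    have h3 : BFR T T (U ∪ {m}) (U ∪ {m}) γ (p ∪ {(m, m)}) := by
      refine BFR.refl T _ γ ?_
      rintro a (ha | rfl)
      · exact ⟨Or.inl (hp a ha).1, (hp a ha).2.symm⟩
      · exact ⟨Or.inr rfl, rfl⟩
    refine BFR.restr₀ subset_union_left subset_union_left (fun x hx y hy h' => ?_) h3
    have hxy : x = m ↔ y = m :=
      h'.1 (x, y) (mem_insert _ _) (m, m) (mem_insert_of_mem _ (Or.inr rfl))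
    have hmU : m ∉ U := fun h => by
      rcases hU m h with h | h
      · exact lt_irrefl _ h
      · exact lt_irrefl _ h
    constructor
    · intro hxU
      rcases hy with hy | hy
      · exact hy
      · exact absurd (hxy.2 hy ▸ hxU) hmU
    · intro hyU
      rcases hx with hx | hx
      · exact hx
      · exact absurd (hxy.1 hx ▸ hyU) hmU
  have e : insert (m, m') p = p ∪ {(m, m')} := by
    rw [union_comm]
    rfl
  rw [e]
  refine BFR.param hL (fun _ => h1) ?_ γ (fun a ha => ⟨(hp a ha).1, (hp a ha).2 ▸ (hp a ha).1⟩) h2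
  intro a ha1 ha2 h3
  exact hT.cross_cl hmm hmm' h1 h3 (hU _ ha1)

/-! ### Scott levels of intervals -/

/-- replacing an element by an equivalent one at the bottom -/
theorem LSt.bot_congr (hT : LSt r o lab T) {X Y : Set N} {u u' : N} (hu : u ∈ X)
    (hu' : u' ∈ Y) {p : Set (N × N)} (hup : (u, u') ∈ p) (h : BFR T T X Y 1 p) :
    (∀ y ∈ X, u ≤ y) ↔ ∀ y ∈ Y, u' ≤ y := by
  constructor
  · intro hh y hy
    obtain ⟨x, hx, hxy⟩ := h.back (β := 0) zero_lt_one hy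
    exact (hT.le_congr₂ hT hxy.atEq (a := (u, u')) (b := (x, y)) (mem_insert_of_mem _ hup)
      (mem_insert _ _)).1 (hh x hx)
  · intro hh x hx
    obtain ⟨y, hy, hxy⟩ := h.forth (β := 0) zero_lt_one hx
    exact (hT.le_congr₂ hT hxy.atEq (a := (u, u')) (b := (x, y)) (mem_insert_of_mem _ hup)
      (mem_insert _ _)).2 (hh y hy)

theorem LSt.top_congr (hT : LSt r o lab T) {X Y : Set N} {u u' : N} (hu : u ∈ X)
    (hu' : u' ∈ Y) {p : Set (N × N)} (hup : (u, u') ∈ p) (h : BFR T T X Y 1 p) :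
    (∀ y ∈ X, y ≤ u) ↔ ∀ y ∈ Y, y ≤ u' := by
  constructor
  · intro hh y hy
    obtain ⟨x, hx, hxy⟩ := h.back (β := 0) zero_lt_one hy
    exact (hT.le_congr₂ hT hxy.atEq (b := (u, u')) (a := (x, y)) (mem_insert _ _)
      (mem_insert_of_mem _ hup)).1 (hh x hx)
  · intro hh x hx
    obtain ⟨y, hy, hxy⟩ := h.forth (β := 0) zero_lt_one hx
    exact (hT.le_congr₂ hT hxy.atEq (b := (u, u')) (a := (x, y)) (mem_insert _ _)
      (mem_insert_of_mem _ hup)).2 (hh y hy)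

/-- **Inheritance.** -/
theorem LSt.sl_icc (hL : Ar2 L) (hT : LSt r o lab T) {X : Set N}
    {α : Ordinal.{0}} (h : SL T X α) {u v : N} (hu : u ∈ X) (hv : v ∈ X) :
    SL T (X ∩ Icc u v) (α + Ordinal.omega0) := by
  intro p hp hpX hb γ hγ
  by_cases huv : u ≤ v
  swap
  · have he : X ∩ Icc u v = ∅ := by
      ext a
      constructor
      · rintro ⟨_, h1, h2⟩
        exact absurd (h1.trans h2) huv
      · intro ha
        exact absurd ha (notMem_empty a)
    rw [he] at hb ⊢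
    rw [BFR.def]
    exact ⟨hb.atEq, fun β _ => ⟨fun x hx => absurd hx (notMem_empty x),
      fun x hx => absurd hx (notMem_empty x)⟩⟩
  -- two moves
  have h1 : BFR T T (X ∩ Icc u v) (X ∩ Icc u v) (α + 1 + ((2 : ℕ) : Ordinal.{0})) p := by
    refine hb.mono ?_
    rw [add_assoc]
    gcongr
    have : (1 : Ordinal.{0}) + ((2 : ℕ) : Ordinal.{0}) = ((1 + 2 : ℕ) : Ordinal.{0}) := by
      rw [Nat.cast_add, Nat.cast_one]
    rw [this]
    exact (Ordinal.natCast_lt_omega0 _).le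
  have huX : u ∈ X ∩ Icc u v := ⟨hu, le_refl u, huv⟩
  have hvX : v ∈ X ∩ Icc u v := ⟨hv, huv, le_refl v⟩
  obtain ⟨y, hy, h2⟩ := BFR.forth_many 2 h1 ![u, v] (by
    intro i
    fin_cases i
    · exact huX
    · exact hvX)
  set u' := y 0
  set v' := y 1
  have hu' : u' ∈ X ∩ Icc u v := hy 0
  have hv' : v' ∈ X ∩ Icc u v := hy 1
  have h3 : BFR T T (X ∩ Icc u v) (X ∩ Icc u v) (α + 1) (insert (u, u') (insert (v, v') p)) := by
    refine BFR.anti ?_ h2
    rintro a (rfl | rfl | ha)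
    · exact Or.inr ⟨0, rfl⟩
    · exact Or.inr ⟨1, rfl⟩
    · exact Or.inl ha
  have huu : u' ≤ u := by
    have := (hT.bot_congr huX hu' (mem_insert _ _) (h3.mono le_add_self)).1
      (fun a ha => ha.2.1)
    exact this u huX
  have hvv : v ≤ v' := by
    have := (hT.top_congr hvX hv' (mem_insert_of_mem _ (mem_insert _ _))
      (h3.mono le_add_self)).1 (fun a ha => ha.2.2)
    exact this v hvX
  -- extension by the identity
  have h4 : BFR T T (X ∩ Icc u v) (X ∩ Icc u v) α (insert (u, u') (insert (v, v') p)) :=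
    h3.mono le_self_add
  have hpp : ∀ a ∈ (insert (u, u') (insert (v, v') p) : Set (N × N)),
      a.1 ∈ X ∩ Icc u v ∧ a.2 ∈ X ∩ Icc u v := by
    rintro a (rfl | rfl | ha)
    · exact ⟨huX, hu'⟩
    · exact ⟨hvX, hv'⟩
    · exact hpX a ha
  have hau : AtEq T T {(u, u')} :=
    AtEq.anti (singleton_subset_iff.2 (mem_insert _ _)) h4.atEq
  have hav : AtEq T T {(v, v')} :=
    AtEq.anti (singleton_subset_iff.2 (mem_insert_of_mem _ (mem_insert _ _))) h4.atEq
  have h5 : BFR T T (X ∩ Iio u ∪ X ∩ Icc u v) (X ∩ Iio u ∪ X ∩ Icc u v) α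
      (insert (u, u') (∅ ∪ insert (u, u') (insert (v, v') p))) := by
    refine hT.glue' hL
      (fun a ha b hb => lt_of_lt_of_le ha.2 hb.2.1)
      (fun a ha b hb => lt_of_lt_of_le ha.2 hb.2.1) (fun a ha => le_of_lt ha.2)
      (fun a ha => ha.2.1) (fun a ha => absurd ha (notMem_empty a)) hpp ?_ ?_
    · exact hT.refl_cl hL hu'.2.1 huu hau
        (fun a ha => Or.inl ha.2) α fun a ha => absurd ha (notMem_empty a)
    · rwa [insert_idem]
  have hlow : ∀ a ∈ X ∩ Iio u ∪ X ∩ Icc u v, a ≤ v := by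
    rintro a (ha | ha)
    · exact (le_of_lt ha.2).trans huv
    · exact ha.2.2
  have h6 : BFR T T ((X ∩ Iio u ∪ X ∩ Icc u v) ∪ X ∩ Ioi v)
      ((X ∩ Iio u ∪ X ∩ Icc u v) ∪ X ∩ Ioi v) α
      (insert (v, v') (insert (u, u') (insert (v, v') p) ∪ ∅)) := by
    refine hT.glue' hL
      (fun a ha b hb => lt_of_le_of_lt (hlow a ha) hb.2)
      (fun a ha b hb => lt_of_le_of_lt (hlow a ha) hb.2) hlow (fun a ha => le_of_lt ha.2) ?_
      (fun a ha => absurd ha (notMem_empty a)) ?_ ?_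
    · intro a ha
      exact ⟨Or.inr (hpp a ha).1, Or.inr (hpp a ha).2⟩
    · refine BFR.anti ?_ h5
      rintro a (rfl | ha)
      · exact mem_insert_of_mem _ (Or.inr (mem_insert_of_mem _ (mem_insert _ _)))
      · exact mem_insert_of_mem _ (Or.inr ha)
    · exact hT.refl_cl hL hvv hv'.2.2 hav
        (fun a ha => Or.inr ha.2) α fun a ha => absurd ha (notMem_empty a)
  have hX : (X ∩ Iio u ∪ X ∩ Icc u v) ∪ X ∩ Ioi v = X := by
    ext a
    constructor
    · rintro ((ha | ha) | ha)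
      · exact ha.1
      · exact ha.1
      · exact ha.1
    · intro ha
      by_cases h1 : u ≤ a
      · by_cases h2 : a ≤ v
        · exact Or.inl (Or.inr ⟨ha, h1, h2⟩)
        · exact Or.inr ⟨ha, hT.lt_of_not_le h2⟩
      · exact Or.inl (Or.inl ⟨ha, hT.lt_of_not_le h1⟩)
  rw [hX] at h6
  have h6' : BFR T T X X α (insert (u, u') (insert (v, v') p)) := by
    refine BFR.anti ?_ h6
    intro a ha
    exact mem_insert_of_mem _ (Or.inl ha)
  have h7 := h _ ((hp.insert _).insert _) (fun a ha => ⟨(hpp a ha).1.1, (hpp a ha).2.1⟩) h6' γ hγ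
  have h8 := hT.icc hT (mem_insert _ _) (mem_insert_of_mem _ (mem_insert _ _)) h7
  have h9 : X ∩ Icc u' v' = X ∩ Icc u v := by
    ext a
    constructor
    · rintro ⟨ha, h1, h2⟩
      exact ⟨ha, hu'.2.1.trans h1, h2.trans hv'.2.2⟩
    · rintro ⟨ha, h1, h2⟩
      exact ⟨ha, huu.trans h1, h2.trans hvv⟩
  rw [h9] at h8
  exact BFR.anti (fun a ha => mem_insert_of_mem _ (mem_insert_of_mem _ ha)) h8

/-- **Concatenation.** -/
theorem LSt.sl_concat (hL : Ar2 L) (hT : LSt r o lab T) {X : Set N}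
    {α : Ordinal.{0}} (hα : α < om1) {x u v : N} (hu : u ∈ X) (hxu : x ≤ u) (huv : u ≤ v)
    (h₁ : SL T (X ∩ Icc x u) α) (h₂ : SL T (X ∩ Icc u v) α) :
    SL T (X ∩ Icc x v) (α + Ordinal.omega0 + 1) := by
  intro p hp hpX hb γ hγ
  obtain ⟨u', hu', h1⟩ := hb.forth (lt_add_one_self _) (x := u) ⟨hu, hxu, huv⟩
  have hup : (u, u') ∈ (insert (u, u') p : Set (N × N)) := mem_insert _ _
  -- the lower part
  have hlow : BFR T T (X ∩ Icc x u) (X ∩ Icc x u') (α + Ordinal.omega0) (insert (u, u') p) := by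
    have := hT.iic hT hup h1
    have e1 : X ∩ Icc x v ∩ Iic u = X ∩ Icc x u := by
      ext a
      constructor
      · rintro ⟨⟨h1, h2, h3⟩, h4⟩
        exact ⟨h1, h2, h4⟩
      · rintro ⟨h1, h2, h3⟩
        exact ⟨⟨h1, h2, h3.trans huv⟩, h3⟩
    have e2 : X ∩ Icc x v ∩ Iic u' = X ∩ Icc x u' := by
      ext a
      constructor
      · rintro ⟨⟨h1, h2, h3⟩, h4⟩
        exact ⟨h1, h2, h4⟩
      · rintro ⟨h1, h2, h3⟩
        exact ⟨⟨h1, h2, le_trans h3 hu'.2.2⟩, h3⟩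
    rwa [e1, e2] at this
  have hupp : BFR T T (X ∩ Icc u v) (X ∩ Icc u' v) (α + Ordinal.omega0) (insert (u, u') p) := by
    have := hT.ici hT hup h1
    have e1 : X ∩ Icc x v ∩ Ici u = X ∩ Icc u v := by
      ext a
      constructor
      · rintro ⟨⟨h1, h2, h3⟩, h4⟩
        exact ⟨h1, h4, h3⟩
      · rintro ⟨h1, h2, h3⟩
        exact ⟨⟨h1, hxu.trans h2, h3⟩, h2⟩
    have e2 : X ∩ Icc x v ∩ Ici u' = X ∩ Icc u' v := by
      ext a
      constructor
      · rintro ⟨⟨h1, h2, h3⟩, h4⟩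
        exact ⟨h1, h4, h3⟩
      · rintro ⟨h1, h2, h3⟩
        exact ⟨⟨h1, le_trans hu'.2.1 h2, h3⟩, h2⟩
    rwa [e1, e2] at this
  -- the parts of the position
  have hle : ∀ a ∈ p, (a.1 ≤ u ↔ a.2 ≤ u') := fun a ha =>
    hT.le_congr₂ hT h1.atEq (a := a) (b := (u, u')) (mem_insert_of_mem _ ha) hup
  have hlt : ∀ a ∈ p, (u < a.1 ↔ u' < a.2) := fun a ha =>
    hT.lt_congr₂ hT h1.atEq (b := a) (a := (u, u')) hup (mem_insert_of_mem _ ha)
  have hA : BFR T T (X ∩ Icc x u) (X ∩ Icc x u') γ (insert (u, u') {a ∈ p | a.1 ≤ u}) := by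
    refine h₁.det' hα ((hp.subset (sep_subset _ _)).insert _) ?_
      (BFR.anti (insert_subset_insert (sep_subset _ _)) hlow) γ
    rintro a (rfl | ⟨ha, ha'⟩)
    · exact ⟨⟨hu, hxu, le_refl u⟩, hu'.1, hu'.2.1, le_refl u'⟩
    · exact ⟨⟨(hpX a ha).1.1, (hpX a ha).1.2.1, ha'⟩,
        (hpX a ha).2.1, (hpX a ha).2.2.1, (hle a ha).1 ha'⟩
  have hB : BFR T T (X ∩ Icc u v) (X ∩ Icc u' v) γ (insert (u, u') {a ∈ p | u < a.1}) := by
    refine h₂.det' hα ((hp.subset (sep_subset _ _)).insert _) ?_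
      (BFR.anti (insert_subset_insert (sep_subset _ _)) hupp) γ
    rintro a (rfl | ⟨ha, ha'⟩)
    · exact ⟨⟨hu, le_refl u, huv⟩, hu'.1, le_refl u', hu'.2.2⟩
    · exact ⟨⟨(hpX a ha).1.1, le_of_lt ha', (hpX a ha).1.2.2⟩,
        (hpX a ha).2.1, le_of_lt ((hlt a ha).1 ha'), (hpX a ha).2.2.2⟩
  have hB' : BFR T T (X ∩ Ioc u v) (X ∩ Ioc u' v) γ (insert (u, u') {a ∈ p | u < a.1}) := by
    have := hT.ioi hT (mem_insert _ _) hB
    have e : ∀ w : N, X ∩ Icc w v ∩ Ioi w = X ∩ Ioc w v := by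
      intro w
      ext a
      constructor
      · rintro ⟨⟨h1, h2, h3⟩, h4⟩
        exact ⟨h1, h4, h3⟩
      · rintro ⟨h1, h2, h3⟩
        exact ⟨⟨h1, le_of_lt h2, h3⟩, h2⟩
    rwa [e u, e u'] at this
  have hC := hT.glue' hL (U₁ := X ∩ Icc x u) (U₂ := X ∩ Ioc u v) (V₁ := X ∩ Icc x u')
    (V₂ := X ∩ Ioc u' v) (m := u) (m' := u')
    (fun a ha b hb => lt_of_le_of_lt ha.2.2 hb.2.1)
    (fun a ha b hb => lt_of_le_of_lt ha.2.2 hb.2.1) (fun a ha => ha.2.2)
    (fun a ha => le_of_lt ha.2.1) (γ := γ) (p₁ := {a ∈ p | a.1 ≤ u}) (p₂ := {a ∈ p | u < a.1})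
    (by
      rintro a ⟨ha, ha'⟩
      exact ⟨⟨(hpX a ha).1.1, (hpX a ha).1.2.1, ha'⟩,
        (hpX a ha).2.1, (hpX a ha).2.2.1, (hle a ha).1 ha'⟩)
    (by
      rintro a ⟨ha, ha'⟩
      exact ⟨⟨(hpX a ha).1.1, ha', (hpX a ha).1.2.2⟩,
        (hpX a ha).2.1, (hlt a ha).1 ha', (hpX a ha).2.2.2⟩)
    hA hB'
  have e3 : X ∩ Icc x u ∪ X ∩ Ioc u v = X ∩ Icc x v := by
    ext a
    constructor
    · rintro (⟨h1, h2, h3⟩ | ⟨h1, h2, h3⟩)
      · exact ⟨h1, h2, h3.trans huv⟩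
      · exact ⟨h1, hxu.trans (le_of_lt h2), h3⟩
    · rintro ⟨h1, h2, h3⟩
      by_cases h4 : a ≤ u
      · exact Or.inl ⟨h1, h2, h4⟩
      · exact Or.inr ⟨h1, hT.lt_of_not_le h4, h3⟩
  have e4 : X ∩ Icc x u' ∪ X ∩ Ioc u' v = X ∩ Icc x v := by
    ext a
    constructor
    · rintro (⟨h1, h2, h3⟩ | ⟨h1, h2, h3⟩)
      · exact ⟨h1, h2, le_trans h3 hu'.2.2⟩
      · exact ⟨h1, le_trans hu'.2.1 (le_of_lt h2), h3⟩
    · rintro ⟨h1, h2, h3⟩
      by_cases h4 : a ≤ u'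
      · exact Or.inl ⟨h1, h2, h4⟩
      · exact Or.inr ⟨h1, hT.lt_of_not_le h4, h3⟩
  rw [e3, e4] at hC
  refine BFR.anti ?_ hC
  intro a ha
  by_cases h4 : a.1 ≤ u
  · exact Or.inr (Or.inl ⟨ha, h4⟩)
  · exact Or.inr (Or.inr ⟨ha, hT.lt_of_not_le h4⟩)

/-! ### tame unions -/

/-- definable subsets of the interval type are tame -/
theorem LSt.tame_inter_icc (hT : LSt r o lab T) {X : Set N} (h : TameX T X) {u v : N}
    (hu : u ∈ X) (hv : v ∈ X) : TameX T (X ∩ Icc u v) := by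
  classical
  refine h.sub {u, v} ?_ inter_subset_left (κ := 0) (Ordinal.omega_pos 1) ?_
  · intro a ha
    rw [Finset.coe_insert, Finset.coe_singleton] at ha
    rcases ha with rfl | rfl
    · exact hu
    · exact hv
  · intro c hc c' hc' hb
    have hmu : (u, u) ∈ (insert (c, c') (dg (({u, v} : Finset N) : Set N)) : Set (N × N)) :=
      Or.inr ⟨u, by simp, rfl⟩
    have hmv : (v, v) ∈ (insert (c, c') (dg (({u, v} : Finset N) : Set N)) : Set (N × N)) :=
      Or.inr ⟨v, by simp, rfl⟩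
    have h1 := hT.le_congr₂ hT hb.atEq hmu (mem_insert _ _)
    have h2 := hT.le_congr₂ hT hb.atEq (mem_insert (c, c') _) hmv
    exact ⟨fun hh => ⟨hc', h1.1 hh.2.1, h2.1 hh.2.2⟩, fun hh => ⟨hc, h1.2 hh.2.1, h2.2 hh.2.2⟩⟩

/-- closed subintervals of tame pieces are tame -/
theorem LSt.tame_Icc (hT : LSt r o lab T) {X : Set N} (h : TameX T X) {u v : N} (hu : u ∈ X)
    (hv : v ∈ X) (hsub : Icc u v ⊆ X) : TameX T (Icc u v) := by
  have h1 := hT.tame_inter_icc h hu hv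
  rwa [inter_eq_right.2 hsub] at h1

/-- the part above an element -/
theorem LSt.tame_gt (hT : LSt r o lab T) {X : Set N} (h : TameX T X) {u : N} (hu : u ∈ X) :
    TameX T {z | z ∈ X ∧ u ≤ z} := by
  classical
  refine h.sub {u} ?_ (fun z hz => hz.1) (κ := 0) (Ordinal.omega_pos 1) ?_
  · intro a ha
    rw [Finset.coe_singleton] at ha
    rw [ha]
    exact hu
  · intro c hc c' hc' hb
    have hmu : (u, u) ∈ (insert (c, c') (dg (({u} : Finset N) : Set N)) : Set (N × N)) :=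
      Or.inr ⟨u, by simp, rfl⟩
    have h1 := hT.le_congr hb.atEq hmu (mem_insert _ _)
    exact ⟨fun hh => ⟨hc', h1.1 hh.2⟩, fun hh => ⟨hc, h1.2 hh.2⟩⟩

/-- subintervals of tame intervals are tame -/
theorem LSt.tame_icc_sub (hT : LSt r o lab T) {x y u v : N} (h : TameX T (Icc x y))
    (hu : u ∈ Icc x y) (hv : v ∈ Icc x y) : TameX T (Icc u v) := by
  have h1 := hT.tame_inter_icc h hu hv
  have e : Icc x y ∩ Icc u v = Icc u v := by
    ext a
    constructor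
    · exact fun h => h.2
    · exact fun h => ⟨⟨hu.1.trans h.1, h.2.trans hv.2⟩, h⟩
  rwa [e] at h1

/-- **Tame unions.** `A ≤ m < B`, `m ∈ A`. -/
theorem LSt.tame_union_lt (hL : Ar2 L) (hT : LSt r o lab T) {A B : Set N} {m : N} (hm : m ∈ A)
    (hAm : ∀ a ∈ A, a ≤ m) (hmB : ∀ b ∈ B, m < b) (hA : TameX T A)
    (hB : TameX T (insert m B)) : TameX T (A ∪ B) := by
  classical
  refine tameX_of_inf fun F hF => ?_
  obtain ⟨κA, hκA⟩ := hA.types (insert m (F.filter (· ∈ A))) (by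
    intro a ha
    rw [Finset.coe_insert] at ha
    rcases ha with rfl | ha
    · exact hm
    · exact (Finset.mem_filter.1 ha).2)
  obtain ⟨κB, hκB⟩ := hB.types (insert m (F.filter (· ∈ B))) (by
    intro a ha
    rw [Finset.coe_insert] at ha
    rcases ha with rfl | ha
    · exact mem_insert _ _
    · exact mem_insert_of_mem _ (Finset.mem_filter.1 ha).2)
  have hAB : ∀ a ∈ A, ∀ b ∈ B, a < b := fun a ha b hb => lt_of_le_of_lt (hAm a ha) (hmB b hb)
  have hmB' : m ∉ B := fun h => lt_irrefl _ (hmB m h)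
  -- restriction to `B`
  have hres : ∀ (γ : Ordinal.{0}) (p : Set (N × N)), (m, m) ∈ p →
      BFR T T (insert m B) (insert m B) γ p → BFR T T B B γ p := by
    intro γ p hp h
    refine BFR.restr₀ (subset_insert _ _) (subset_insert _ _) (fun x hx y hy h' => ?_) h
    have hxy : x = m ↔ y = m :=
      h'.1 (x, y) (mem_insert _ _) (m, m) (mem_insert_of_mem _ hp)
    constructor
    · intro hxB
      rcases hy with hy | hy
      · exact absurd (hxy.2 hy ▸ hxB) hmB'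
      · exact hy
    · intro hyB
      rcases hx with hx | hx
      · exact absurd (hxy.1 hx ▸ hyB) hmB'
      · exact hx
  refine ⟨fun c => if c ∈ A then 2 * κA c else 2 * κB c + 1, fun c hc c' hc' hcc γ hγ => ?_⟩
  -- the diagonal part of the position
  have hsplit : ∀ x ∈ F, x ∈ A ∨ x ∈ B := fun x hx => hF hx
  by_cases hcA : c ∈ A
  · have hcA' : c' ∈ A := by
      by_contra hn
      simp only [if_pos hcA, if_neg hn] at hcc
      omega
    simp only [if_pos hcA, if_pos hcA'] at hcc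
    have h1 := hκA c hcA c' hcA' (by omega) γ hγ
    have h2 := hT.glue' hL (U₁ := A) (V₁ := A) (U₂ := B) (V₂ := B) (m := m) (m' := m) (γ := γ)
      (p₁ := insert (c, c') (dg ((F.filter (· ∈ A) : Finset N) : Set N)))
      (p₂ := dg ((F.filter (· ∈ B) : Finset N) : Set N)) hAB hAB hAm
      (fun b hb => le_of_lt (hmB b hb)) ?_ ?_ ?_ ?_
    · refine BFR.anti ?_ h2
      rintro z (rfl | ⟨x, hx, rfl⟩)
      · exact Or.inr (Or.inl (mem_insert _ _))
      · rcases hsplit x hx with h3 | h3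
        · exact Or.inr (Or.inl (Or.inr ⟨x, by simpa using ⟨hx, h3⟩, rfl⟩))
        · exact Or.inr (Or.inr ⟨x, by simpa using ⟨hx, h3⟩, rfl⟩)
    · rintro z (rfl | ⟨x, hx, rfl⟩)
      · exact ⟨hcA, hcA'⟩
      · exact ⟨(Finset.mem_filter.1 hx).2, (Finset.mem_filter.1 hx).2⟩
    · rintro z ⟨x, hx, rfl⟩
      exact ⟨(Finset.mem_filter.1 hx).2, (Finset.mem_filter.1 hx).2⟩
    · refine BFR.anti ?_ h1
      rintro z (rfl | rfl | ⟨x, hx, rfl⟩)
      · exact Or.inr ⟨m, by simp, rfl⟩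
      · exact mem_insert _ _
      · exact Or.inr ⟨x, by
          rw [Finset.coe_insert]
          exact Or.inr hx, rfl⟩
    · refine hres γ _ (mem_insert _ _) (BFR.refl T _ γ ?_)
      rintro z (rfl | ⟨x, hx, rfl⟩)
      · exact ⟨mem_insert _ _, rfl⟩
      · exact ⟨mem_insert_of_mem _ (Finset.mem_filter.1 hx).2, rfl⟩
  · have hcB : c ∈ B := hc.resolve_left hcA
    have hcA' : c' ∉ A := by
      intro hn
      simp only [if_neg hcA, if_pos hn] at hcc
      omega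
    have hcB' : c' ∈ B := hc'.resolve_left hcA'
    simp only [if_neg hcA, if_neg hcA'] at hcc
    have h1 := hκB c (mem_insert_of_mem _ hcB) c' (mem_insert_of_mem _ hcB') (by omega) γ hγ
    have h2 := hT.glue' hL (U₁ := A) (V₁ := A) (U₂ := B) (V₂ := B) (m := m) (m' := m) (γ := γ)
      (p₁ := dg ((F.filter (· ∈ A) : Finset N) : Set N))
      (p₂ := insert (c, c') (dg ((F.filter (· ∈ B) : Finset N) : Set N))) hAB hAB hAm
      (fun b hb => le_of_lt (hmB b hb)) ?_ ?_ ?_ ?_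
    · refine BFR.anti ?_ h2
      rintro z (rfl | ⟨x, hx, rfl⟩)
      · exact Or.inr (Or.inr (mem_insert _ _))
      · rcases hsplit x hx with h3 | h3
        · exact Or.inr (Or.inl ⟨x, by simpa using ⟨hx, h3⟩, rfl⟩)
        · exact Or.inr (Or.inr (Or.inr ⟨x, by simpa using ⟨hx, h3⟩, rfl⟩))
    · rintro z ⟨x, hx, rfl⟩
      exact ⟨(Finset.mem_filter.1 hx).2, (Finset.mem_filter.1 hx).2⟩
    · rintro z (rfl | ⟨x, hx, rfl⟩)
      · exact ⟨hcB, hcB'⟩
      · exact ⟨(Finset.mem_filter.1 hx).2, (Finset.mem_filter.1 hx).2⟩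
    · refine BFR.refl T _ γ ?_
      rintro z (rfl | ⟨x, hx, rfl⟩)
      · exact ⟨hm, rfl⟩
      · exact ⟨(Finset.mem_filter.1 hx).2, rfl⟩
    · refine hres γ _ (mem_insert _ _) (BFR.anti ?_ h1)
      rintro z (rfl | rfl | ⟨x, hx, rfl⟩)
      · exact Or.inr ⟨m, by simp, rfl⟩
      · exact mem_insert _ _
      · exact Or.inr ⟨x, by
          rw [Finset.coe_insert]
          exact Or.inr hx, rfl⟩

/-- **Tame unions.** `A ≤ m ≤ B`, `m ∈ A`, `m ∈ B`. -/
theorem LSt.tame_union (hL : Ar2 L) (hT : LSt r o lab T) {A B : Set N} (hA : TameX T A)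
    (hB : TameX T B) {m : N} (hm : m ∈ A) (hmB : m ∈ B) (hAm : ∀ a ∈ A, a ≤ m)
    (hBm : ∀ b ∈ B, m ≤ b) (hcl : ∀ b ∈ B, b ≤ m → b ∈ A) : TameX T (A ∪ B) := by
  classical
  have h1 : TameX T (insert m (B ∩ Ioi m)) := by
    refine hB.sub {m} ?_ ?_ (κ := 0) (Ordinal.omega_pos 1) ?_
    · intro a ha
      rw [Finset.coe_singleton] at ha
      rw [ha]
      exact hmB
    · rintro a (rfl | ha)
      · exact hmB
      · exact ha.1
    · intro c hc c' hc' hb
      have hmm : (m, m) ∈ (insert (c, c') (dg (({m} : Finset N) : Set N)) : Set (N × N)) :=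
        Or.inr ⟨m, by simp, rfl⟩
      have h2 := hT.lt_congr₂ hT hb.atEq hmm (mem_insert _ _)
      have h3 := hb.atEq.1 (c, c') (mem_insert _ _) (m, m) hmm
      constructor
      · rintro (h4 | h4)
        · exact Or.inl (h3.1 h4)
        · exact Or.inr ⟨hc', h2.1 h4.2⟩
      · rintro (h4 | h4)
        · exact Or.inl (h3.2 h4)
        · exact Or.inr ⟨hc, h2.2 h4.2⟩
  have h2 := hT.tame_union_lt hL hm hAm (fun b hb => hb.2) hA h1
  have e : A ∪ B ∩ Ioi m = A ∪ B := by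
    ext a
    constructor
    · rintro (h | h)
      · exact Or.inl h
      · exact Or.inr h.1
    · rintro (h | h)
      · exact Or.inl h
      · by_cases h3 : a ≤ m
        · exact Or.inl (hcl a h h3)
        · exact Or.inr ⟨h, hT.lt_of_not_le h3⟩
  rwa [e] at h2

/-- **Concatenation of tame intervals.** -/
theorem LSt.tame_icc (hL : Ar2 L) (hT : LSt r o lab T) {x y z : N} (hxy : x ≤ y) (hyz : y ≤ z)
    (h1 : TameX T (Icc x y)) (h2 : TameX T (Icc y z)) : TameX T (Icc x z) := by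
  have h3 := hT.tame_union hL h1 h2 (m := y) ⟨hxy, le_refl y⟩
    ⟨le_refl y, hyz⟩ (fun a ha => ha.2) (fun b hb => hb.1)
    (fun b hb hb' => ⟨hxy.trans hb.1, hb'⟩)
  have e : Icc x y ∪ Icc y z = Icc x z := by
    ext a
    constructor
    · rintro (h | h)
      · exact ⟨h.1, h.2.trans hyz⟩
      · exact ⟨hxy.trans h.1, h.2⟩
    · intro h
      rcases hT.total a y with h4 | h4
      · exact Or.inl ⟨h.1, h4⟩
      · exact Or.inr ⟨h4, h.2⟩
  rwa [e] at h3

/-- the relative form -/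
theorem LSt.tame_icc_inter (hL : Ar2 L) (hT : LSt r o lab T) {X : Set N} {x y z : N}
    (hy : y ∈ X) (hxy : x ≤ y) (hyz : y ≤ z) (h1 : TameX T (X ∩ Icc x y))
    (h2 : TameX T (X ∩ Icc y z)) : TameX T (X ∩ Icc x z) := by
  have h3 := hT.tame_union hL h1 h2 (m := y)
    ⟨hy, hxy, le_refl y⟩ ⟨hy, le_refl y, hyz⟩ (fun a ha => ha.2.2) (fun b hb => hb.2.1)
    (fun b hb hb' => ⟨hb.1, hxy.trans hb.2.1, hb'⟩)
  have e : X ∩ Icc x y ∪ X ∩ Icc y z = X ∩ Icc x z := by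
    ext a
    constructor
    · rintro (h | h)
      · exact ⟨h.1, h.2.1, h.2.2.trans hyz⟩
      · exact ⟨h.1, hxy.trans h.2.1, h.2.2⟩
    · intro h
      rcases hT.total a y with h4 | h4
      · exact Or.inl ⟨h.1, h.2.1, h4⟩
      · exact Or.inr ⟨h.1, h4, h.2.2⟩
  rwa [e] at h3

/-! ### cells -/

theorem LSt.cellIx_iff (hT : LSt r o lab T) {c : ℕ → N} (hc : ∀ n, c n < c (n + 1)) {a : N}
    (h0 : c 0 < a) (h1 : ∃ n, a ≤ c n) (i : ℕ) :
    cellIx c a = i ↔ c i < a ∧ a ≤ c (i + 1) := by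
  have hmono : ∀ m n, m ≤ n → c m ≤ c n := by
    intro m n hmn
    induction n, hmn using Nat.le_induction with
    | base => exact le_refl _
    | succ n _ ih => exact ih.trans (le_of_lt (hc n))
  have hne : {n | a ≤ c (n + 1)}.Nonempty := by
    obtain ⟨n, hn⟩ := h1
    exact ⟨n, hn.trans (le_of_lt (hc n))⟩
  constructor
  · rintro rfl
    refine ⟨?_, Nat.sInf_mem hne⟩
    by_cases hz : cellIx c a = 0
    · rw [hz]
      exact h0
    · obtain ⟨k, hk⟩ := Nat.exists_eq_succ_of_ne_zero hz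
      have h2 : k ∉ {n | a ≤ c (n + 1)} := Nat.notMem_of_lt_sInf (by
        have : sInf {n | a ≤ c (n + 1)} = k.succ := hk
        rw [this]
        exact Nat.lt_succ_self k)
      rw [hk]
      exact hT.lt_of_not_le h2
  · rintro ⟨h2, h3⟩
    refine le_antisymm (Nat.sInf_le h3) ?_
    by_contra hlt
    have h4 : a ≤ c (cellIx c a + 1) := Nat.sInf_mem hne
    have h5 := h4.trans (hmono _ _ (Nat.succ_le_of_lt (Nat.lt_of_not_le hlt)))
    exact lt_irrefl _ (h2.trans_le h5)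

/-- **Cells** with named cut points. -/
theorem LSt.cells (hL : Ar2 L) (hT : LSt r o lab T) {X Y : Set N}
    {c c' : ℕ → N} (hc : ∀ n, c n < c (n + 1)) (hc' : ∀ n, c' n < c' (n + 1))
    (hcc : ∀ i j, AtEq T T {(c i, c' i), (c j, c' j)})
    (hX : ∀ a ∈ X, c 0 < a ∧ ∃ n, a ≤ c n) (hY : ∀ a ∈ Y, c' 0 < a ∧ ∃ n, a ≤ c' n)
    {γ : Ordinal.{0}}
    (h : ∀ n, BFR T T (X ∩ Ioc (c n) (c (n + 1))) (Y ∩ Ioc (c' n) (c' (n + 1))) γ
      {(c n, c' n), (c (n + 1), c' (n + 1))}) :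
    BFR T T X Y γ ∅ := by
  have hmono : ∀ c : ℕ → N, (∀ n, c n < c (n + 1)) → ∀ m n, m ≤ n → c m ≤ c n := by
    intro c hc m n hmn
    induction n, hmn using Nat.le_induction with
    | base => exact le_refl _
    | succ n _ ih => exact ih.trans (le_of_lt (hc n))
  have key : ∀ c : ℕ → N, (∀ n, c n < c (n + 1)) → ∀ Z : Set N,
      (∀ a ∈ Z, c 0 < a ∧ ∃ n, a ≤ c n) →
      (∀ a ∈ Z, ∀ b ∈ Z, cellIx c a < cellIx c b → a < b) ∧
      ∀ i, {a ∈ Z | cellIx c a = i} = Z ∩ Ioc (c i) (c (i + 1)) := by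
    intro c hc Z hZ
    refine ⟨fun a ha b hb hab => ?_, fun i => ?_⟩
    · have h1 := ((hT.cellIx_iff hc (hZ a ha).1 (hZ a ha).2 _).1 rfl).2
      have h2 := ((hT.cellIx_iff hc (hZ b hb).1 (hZ b hb).2 _).1 rfl).1
      exact lt_of_le_of_lt (h1.trans (hmono c hc _ _ hab)) h2
    · ext a
      constructor
      · rintro ⟨h1, h2⟩
        exact ⟨h1, (hT.cellIx_iff hc (hZ a h1).1 (hZ a h1).2 i).1 h2⟩
      · rintro ⟨h1, h2⟩
        exact ⟨h1, (hT.cellIx_iff hc (hZ a h1).1 (hZ a h1).2 i).2 h2⟩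
  have h0 := hT.compq hL (cellIx c) (cellIx c') (U := X) (V := Y) (Q := ∅)
    (q := fun n => {(c n, c' n), (c (n + 1), c' (n + 1))}) (γ := γ) (p := ∅)
    (fun i => empty_subset _) (key c hc X hX).1 (key c' hc' Y hY).1 ?_
    (fun a ha => absurd ha (notMem_empty a)) (fun i => ?_)
  · rwa [union_empty] at h0
  · intro a b ha1 ha2 ha3 hb1 hb2 hb3 hab h1 h2
    set i := cellIx c a.1 with hi
    set j := cellIx c b.1 with hj
    have a1 := (hT.cellIx_iff hc (hX _ ha1).1 (hX _ ha1).2 i).1 hi.symm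
    have b1 := (hT.cellIx_iff hc (hX _ hb1).1 (hX _ hb1).2 j).1 hj.symm
    have b2 := (hT.cellIx_iff hc' (hY _ hb2).1 (hY _ hb2).2 j).1 hb3.symm
    have hij : i + 1 ≤ j := hab
    have h3 : AtEq T T {b, (c (i + 1), c' (i + 1))} := by
      rw [pair_comm]
      refine hT.cross_at (m := (c j, c' j)) (hmono c hc _ _ hij) (le_of_lt b1.1)
        (lt_of_le_of_lt (hmono c hc _ _ hij) b1.1) (lt_of_le_of_lt (hmono c' hc' _ _ hij) b2.1)
        (hcc _ _) (AtEq.anti ?_ h2)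
      rintro x (rfl | rfl)
      · exact mem_insert _ _
      · exact mem_insert_of_mem _ (mem_insert _ _)
    refine hT.lab_at (m := (c (i + 1), c' (i + 1))) a1.2
      ((hmono c hc _ _ hij).trans (le_of_lt b1.1)) (AtEq.anti ?_ h1) h3
    rintro x (rfl | rfl)
    · exact mem_insert _ _
    · exact mem_insert_of_mem _ (mem_insert_of_mem _ rfl)
  · rw [(key c hc X hX).2 i, (key c' hc' Y hY).2 i]
    refine BFR.anti ?_ (h i)
    rintro a (⟨ha, -⟩ | ha)
    · exact absurd ha (notMem_empty a)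
    · exact ha

/-- a strictly increasing cofinal sequence in a countable set without last element -/
theorem LSt.exists_cofinal (hT : LSt r o lab T) {A : Set N} (hA : A.Countable) {z : N}
    (hz : z ∈ A) (hlast : ∀ a ∈ A, ∃ b ∈ A, a < b) : ∃ c : ℕ → N, c 0 = z ∧ (∀ n, c n ∈ A) ∧
      (∀ n, c n < c (n + 1)) ∧ ∀ a ∈ A, ∃ n, a ≤ c n := by
  obtain ⟨e, he⟩ := hA.exists_eq_range ⟨z, hz⟩
  have hstep : ∀ (n : ℕ) (a : A), ∃ b : A, a.1 < b.1 ∧ e n ≤ b.1 := by
    rintro n ⟨a, ha⟩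
    have hen : e n ∈ A := by
      rw [he]
      exact mem_range_self n
    rcases hT.total a (e n) with h1 | h1
    · obtain ⟨b, hb, hab⟩ := hlast _ hen
      exact ⟨⟨b, hb⟩, lt_of_le_of_lt h1 hab, le_of_lt hab⟩
    · obtain ⟨b, hb, hab⟩ := hlast _ ha
      exact ⟨⟨b, hb⟩, hab, h1.trans (le_of_lt hab)⟩
  choose g hg1 hg2 using hstep
  let c : ℕ → A := fun n => n.rec ⟨z, hz⟩ fun k a => g k a
  refine ⟨fun n => (c n).1, rfl, fun n => (c n).2, fun n => hg1 n (c n), fun a ha => ?_⟩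
  rw [he] at ha
  obtain ⟨n, rfl⟩ := ha
  exact ⟨n + 1, hg2 n (c n)⟩

end

/-! ### countable cofinality -/

section

variable [Preorder N] {G : Type} [Monoid G] {r : L.Relations 2} {o : Bool}
  {T : L.Structure N} {lab : N → N → G}

/-- the index of the cell which is closed below -/
noncomputable def cellIy (c : ℕ → N) (a : N) : ℕ := sInf {n | a < c (n + 1)}

theorem LSt.cellIy_iff (hT : LSt r o lab T) {c : ℕ → N} (hc : ∀ n, c n < c (n + 1)) {a : N}
    (h0 : c 0 ≤ a) (h1 : ∃ n, a < c n) (i : ℕ) :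
    cellIy c a = i ↔ c i ≤ a ∧ a < c (i + 1) := by
  have hmono : ∀ m n, m ≤ n → c m ≤ c n := by
    intro m n hmn
    induction n, hmn using Nat.le_induction with
    | base => exact le_refl _
    | succ n _ ih => exact ih.trans (le_of_lt (hc n))
  have hne : {n | a < c (n + 1)}.Nonempty := by
    obtain ⟨n, hn⟩ := h1
    exact ⟨n, hn.trans (hc n)⟩
  constructor
  · rintro rfl
    refine ⟨?_, Nat.sInf_mem hne⟩
    by_cases hz : cellIy c a = 0
    · rw [hz]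
      exact h0
    · obtain ⟨k, hk⟩ := Nat.exists_eq_succ_of_ne_zero hz
      have h2 : k ∉ {n | a < c (n + 1)} := Nat.notMem_of_lt_sInf (by
        have : sInf {n | a < c (n + 1)} = k.succ := hk
        rw [this]
        exact Nat.lt_succ_self k)
      rw [hk]
      exact hT.not_lt.1 h2
  · rintro ⟨h2, h3⟩
    refine le_antisymm (Nat.sInf_le h3) ?_
    by_contra hlt
    have h4 : a < c (cellIy c a + 1) := Nat.sInf_mem hne
    have h5 := h4.trans_le (hmono _ _ (Nat.succ_le_of_lt (Nat.lt_of_not_le hlt)))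
    exact lt_irrefl _ (h2.trans_lt h5)

/-- **Cells** closed below with named cut points. -/
theorem LSt.cells_ico (hL : Ar2 L) (hT : LSt r o lab T) {X Y : Set N} {c : ℕ → N}
    (hc : ∀ n, c n < c (n + 1)) (hX : ∀ a ∈ X, c 0 ≤ a ∧ ∃ n, a < c n)
    (hY : ∀ a ∈ Y, c 0 ≤ a ∧ ∃ n, a < c n) {γ : Ordinal.{0}}
    (h : ∀ n, BFR T T (X ∩ Ico (c n) (c (n + 1))) (Y ∩ Ico (c n) (c (n + 1))) γ
      {(c n, c n), (c (n + 1), c (n + 1))}) :
    BFR T T X Y γ ∅ := by
  have hmono : ∀ m n, m ≤ n → c m ≤ c n := by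
    intro m n hmn
    induction n, hmn using Nat.le_induction with
    | base => exact le_refl _
    | succ n _ ih => exact ih.trans (le_of_lt (hc n))
  have key : ∀ Z : Set N, (∀ a ∈ Z, c 0 ≤ a ∧ ∃ n, a < c n) →
      (∀ a ∈ Z, ∀ b ∈ Z, cellIy c a < cellIy c b → a < b) ∧
      ∀ i, {a ∈ Z | cellIy c a = i} = Z ∩ Ico (c i) (c (i + 1)) := by
    intro Z hZ
    refine ⟨fun a ha b hb hab => ?_, fun i => ?_⟩
    · have h1 := ((hT.cellIy_iff hc (hZ a ha).1 (hZ a ha).2 _).1 rfl).2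
      have h2 := ((hT.cellIy_iff hc (hZ b hb).1 (hZ b hb).2 _).1 rfl).1
      exact lt_of_lt_of_le h1 ((hmono _ _ hab).trans h2)
    · ext a
      constructor
      · rintro ⟨h1, h2⟩
        exact ⟨h1, (hT.cellIy_iff hc (hZ a h1).1 (hZ a h1).2 i).1 h2⟩
      · rintro ⟨h1, h2⟩
        exact ⟨h1, (hT.cellIy_iff hc (hZ a h1).1 (hZ a h1).2 i).2 h2⟩
  have hcc : ∀ i j, AtEq T T {(c i, c i), (c j, c j)} := fun i j =>
    (BFR.refl T univ 0 (p := {(c i, c i), (c j, c j)}) (by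
      rintro a (rfl | rfl)
      · exact ⟨mem_univ _, rfl⟩
      · exact ⟨mem_univ _, rfl⟩)).atEq
  have h0 := hT.compq hL (cellIy c) (cellIy c) (U := X) (V := Y) (Q := ∅)
    (q := fun n => {(c n, c n), (c (n + 1), c (n + 1))}) (γ := γ) (p := ∅)
    (fun i => empty_subset _) (key X hX).1 (key Y hY).1 ?_
    (fun a ha => absurd ha (notMem_empty a)) (fun i => ?_)
  · rwa [union_empty] at h0
  · intro a b ha1 ha2 ha3 hb1 hb2 hb3 hab h1 h2
    set i := cellIy c a.1 with hi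
    set j := cellIy c b.1 with hj
    have a1 := (hT.cellIy_iff hc (hX _ ha1).1 (hX _ ha1).2 i).1 hi.symm
    have b1 := (hT.cellIy_iff hc (hX _ hb1).1 (hX _ hb1).2 j).1 hj.symm
    have a2 := (hT.cellIy_iff hc (hY _ ha2).1 (hY _ ha2).2 i).1 ha3.symm
    have hij : i + 1 ≤ j := hab
    have h3 : AtEq T T {a, (c j, c j)} := by
      refine hT.cross_at (m := (c (i + 1), c (i + 1))) (le_of_lt a1.2) (hmono _ _ hij)
        (lt_of_lt_of_le a1.2 (hmono _ _ hij)) (lt_of_lt_of_le a2.2 (hmono _ _ hij))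
        (AtEq.anti ?_ h1) (hcc _ _)
      rintro x (rfl | rfl)
      · exact mem_insert _ _
      · exact mem_insert_of_mem _ (mem_insert_of_mem _ rfl)
    refine hT.lab_at (m := (c j, c j)) ((le_of_lt a1.2).trans (hmono _ _ hij)) b1.1 h3
      (AtEq.anti ?_ h2)
    rintro x (rfl | rfl)
    · exact mem_insert _ _
    · exact mem_insert_of_mem _ (mem_insert _ _)
  · rw [(key X hX).2 i, (key Y hY).2 i]
    refine BFR.anti ?_ (h i)
    rintro a (⟨ha, -⟩ | ha)
    · exact absurd ha (notMem_empty a)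
    · exact ha

/-- the elements above `x` whose interval is tame have tame union if they have a countable cofinal
subset -/
theorem LSt.tame_of_cofinal (hL : Ar2 L) (hT : LSt r o lab T) {x : N} {C : Set N}
    (hC : C.Countable) (hCD : C ⊆ NBA.DD T x) (hcof : ∀ y ∈ NBA.DD T x, ∃ c ∈ C, y ≤ c) :
    TameX T (NBA.DD T x) := by
  classical
  have hinit : ∀ y ∈ NBA.DD T x, ∀ z, x ≤ z → z ≤ y → z ∈ NBA.DD T x := fun y hy z h1 h2 =>
    ⟨h1, hT.tame_icc_sub hy.2 ⟨le_refl x, hy.1⟩ ⟨h1, h2⟩⟩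
  by_cases hmax : ∃ m ∈ NBA.DD T x, ∀ z ∈ NBA.DD T x, z ≤ m
  · obtain ⟨m, hm, hm'⟩ := hmax
    have e : NBA.DD T x = Icc x m := by
      ext z
      exact ⟨fun hz => ⟨hz.1, hm' z hz⟩, fun hz => hinit m hm z hz.1 hz.2⟩
    rw [e]
    exact hm.2
  · push Not at hmax
    rcases (NBA.DD T x).eq_empty_or_nonempty with hD | ⟨y0, hy0⟩
    · rw [hD]
      exact tameX_of_countable countable_empty
    have hxD : x ∈ NBA.DD T x := hinit y0 hy0 x (le_refl x) hy0.1
    have hup : ∀ y ∈ NBA.DD T x, ∃ c ∈ C, y < c := by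
      intro y hy
      obtain ⟨z, hz, hyz⟩ := hmax y hy
      obtain ⟨c, hc, hzc⟩ := hcof z hz
      exact ⟨c, hc, lt_of_lt_of_le (hT.not_le.1 hyz) hzc⟩
    have hAD : insert x C ⊆ NBA.DD T x := by
      rintro a (rfl | ha)
      · exact hxD
      · exact hCD ha
    obtain ⟨c, hc0, hcA, hc, hccof⟩ := hT.exists_cofinal (A := insert x C) (hC.insert x)
      (mem_insert _ _) (by
        intro a ha
        obtain ⟨b, hb, hab⟩ := hup a (hAD ha)
        exact ⟨b, mem_insert_of_mem _ hb, hab⟩)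
    have hcD : ∀ n, c n ∈ NBA.DD T x := fun n => hAD (hcA n)
    have hbound : ∀ y ∈ NBA.DD T x, c 0 ≤ y ∧ ∃ n, y < c n := by
      intro y hy
      obtain ⟨b, hb, hyb⟩ := hup y hy
      obtain ⟨n, hn⟩ := hccof b (mem_insert_of_mem _ hb)
      exact ⟨by rw [hc0]; exact hy.1, n, lt_of_lt_of_le hyb hn⟩
    -- closed sets for the closed cells
    have hcell : ∀ n, TameX T (Icc (c n) (c (n + 1))) := fun n =>
      hT.tame_icc_sub (hcD (n + 1)).2 ⟨(hcD n).1, le_of_lt (hc n)⟩ ⟨(hcD (n + 1)).1, le_refl _⟩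
    have h1 : ∀ n, ∃ B : Set N, B.Countable ∧ ({c n, c (n + 1)} : Set N) ⊆ B ∧
        B ⊆ Icc (c n) (c (n + 1)) ∧ ∀ γ < om1, Clo T (Icc (c n) (c (n + 1))) γ B := by
      intro n
      obtain ⟨B, hB1, hB2, hB3, hB4⟩ := (hcell n).exists_closed
        (A₀ := {c n, c (n + 1)}) ((countable_singleton _).insert _) (by
          rintro a (rfl | rfl)
          · exact ⟨le_refl _, le_of_lt (hc n)⟩
          · exact ⟨le_of_lt (hc n), le_refl _⟩)
      refine ⟨B, hB1, hB2, hB3, fun γ hγ F hF z hz => ?_⟩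
      obtain ⟨d, hd, hzd⟩ := hB4 F (hF.trans inter_subset_left) z hz
      exact ⟨d, ⟨hd, hB3 hd⟩, hzd γ hγ⟩
    choose B hB1 hB2 hB3 hB4 using h1
    let Y : Set N := ⋃ n, B n ∩ Ico (c n) (c (n + 1))
    have hmono : ∀ m n, m ≤ n → c m ≤ c n := by
      intro m n hmn
      induction n, hmn using Nat.le_induction with
      | base => exact le_refl _
      | succ n _ ih => exact ih.trans (le_of_lt (hc n))
    have hYD : Y ⊆ NBA.DD T x := by
      intro a ha
      obtain ⟨n, ha1, ha2⟩ := mem_iUnion.1 ha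
      exact hinit _ (hcD (n + 1)) a ((hcD n).1.trans ha2.1) (le_of_lt ha2.2)
    refine ⟨N, T, Y, countable_iUnion fun n => (hB1 n).mono inter_subset_left, fun γ hγ => ?_⟩
    refine hT.cells_ico hL hc hbound (fun a ha => hbound a (hYD ha)) fun n => ?_
    have e1 : NBA.DD T x ∩ Ico (c n) (c (n + 1)) = Icc (c n) (c (n + 1)) ∩ Iio (c (n + 1)) := by
      ext a
      constructor
      · rintro ⟨h2, h3, h4⟩
        exact ⟨⟨h3, le_of_lt h4⟩, h4⟩
      · rintro ⟨⟨h2, h3⟩, h4⟩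
        exact ⟨hinit _ (hcD (n + 1)) a ((hcD n).1.trans h2) h3, h2, h4⟩
    have e2 : Y ∩ Ico (c n) (c (n + 1)) = B n ∩ Icc (c n) (c (n + 1)) ∩ Iio (c (n + 1)) := by
      ext a
      constructor
      · rintro ⟨h2, h3, h4⟩
        obtain ⟨k, hk1, hk2, hk3⟩ := mem_iUnion.1 h2
        have hkn : k = n := by
          rcases lt_trichotomy k n with h5 | h5 | h5
          · exact absurd (lt_of_lt_of_le hk3 (hmono _ _ h5)) (not_lt_of_ge h3)
          · exact h5
          · exact absurd (lt_of_lt_of_le h4 (hmono _ _ h5)) (not_lt_of_ge hk2)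
        subst hkn
        exact ⟨⟨hk1, h3, le_of_lt h4⟩, h4⟩
      · rintro ⟨⟨h2, h3, h4⟩, h5⟩
        exact ⟨mem_iUnion.2 ⟨n, h2, h3, h5⟩, h3, h5⟩
    rw [e1, e2]
    have h2 := (hB4 n γ hγ).bfr (F := {c n, c (n + 1)}) ((finite_singleton _).insert _) (by
      rintro a ha
      exact ⟨hB2 n ha, hB3 n (hB2 n ha)⟩)
    have h3 := hT.iio hT (u := c (n + 1)) (u' := c (n + 1)) (p := dg {c n, c (n + 1)})
      ⟨c (n + 1), Or.inr rfl, rfl⟩ h2
    refine BFR.anti ?_ h3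
    rintro a (rfl | rfl)
    · exact ⟨c n, Or.inl rfl, rfl⟩
    · exact ⟨c (n + 1), Or.inr rfl, rfl⟩

end

/-! ### the reversed order -/

theorem LSt.dual [Preorder N] {G : Type} [Monoid G] {r : L.Relations 2} {o : Bool}
    {T : L.Structure N} {lab : N → N → G} (hT : LSt r o lab T) :
    @LSt L N (dualPre N) Gᵐᵒᵖ _ r (!o) (fun a b => MulOpposite.op (lab b a)) T := by
  refine @LSt.mk L N (dualPre N) Gᵐᵒᵖ _ r (!o) _ T ?_ ?_ ?_ ?_ ?_ ?_
  · intro a b
    exact (hT.total a b).symm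
  · intro a b
    have := hT.le_iff b a
    change b ≤ a ↔ _
    rw [this]
    cases o <;> rfl
  · intro a b h1 h2
    change MulOpposite.op (lab b a) = 1
    rw [hT.one b a h1 h2, MulOpposite.op_one]
  · intro a b c h1 h2
    change MulOpposite.op (lab c a) = MulOpposite.op (lab b a) * MulOpposite.op (lab c b)
    rw [← MulOpposite.op_mul, hT.mul c b a h2 h1]
  · intro a b a' b' h1 h2
    exact congrArg _ (hT.inv b a b' a' h1 (by rwa [pair_comm] at h2))
  · intro a b a' b' h1 h2 h3 h4 h5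
    have := hT.cross b a b' a' h1 h2 (MulOpposite.op_injective h3) h5 h4
    rwa [pair_comm]

end Pool.Agent.Helper97.LO
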