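import Pool.Agent.T2.AlFar

/-!
# The coarse preorder of a labelling
-/

set_option autoImplicit false
set_option linter.unusedSectionVars false
set_option linter.unusedVariables false

namespace Pool.Agent.Helper97.LO

open Set

variable {M : Type} {G : Type} [Monoid G] [Preorder M]

variable {D : Set M} {lab : M → M → G} {J : Set G} {u₀ : M}

/-- the elements reached from `b` in `n` steps -/
def Rch (D : Set M) (u₀ : M) (lab : M → M → G) (J : Set G) (b : M) : ℕ → Set M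
  | 0 => {z | z ∈ D ∧ u₀ ≤ z ∧ z ≤ b}
  | n + 1 => {z | z ∈ D ∧ u₀ ≤ z ∧ ∃ c ∈ Rch D u₀ lab J b n, z ≤ c ∨ ¬ Far lab J c z}

/-- the coarse preorder -/
def cle (D : Set M) (u₀ : M) (lab : M → M → G) (J : Set G) (a b : M) : Prop :=
  ∃ n, a ∈ Rch D u₀ lab J b n

/-- the part of `D` above `u₀` -/
abbrev Dge (D : Set M) (u₀ : M) : Type := {z : M // z ∈ D ∧ u₀ ≤ z}

theorem Rch_mem {b z : M} {n : ℕ} (h : z ∈ Rch D u₀ lab J b n) : z ∈ D ∧ u₀ ≤ z := by
  cases n with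
  | zero => exact ⟨h.1, h.2.1⟩
  | succ n => exact ⟨h.1, h.2.1⟩

theorem Rch_succ {b z : M} {n : ℕ} (h : z ∈ Rch D u₀ lab J b n) :
    z ∈ Rch D u₀ lab J b (n + 1) :=
  ⟨(Rch_mem h).1, (Rch_mem h).2, z, h, Or.inl le_rfl⟩

theorem Rch_mono (hB : IsBse D lab J u₀) {b : M} {m n : ℕ} (h : m ≤ n) :
    Rch D u₀ lab J b m ⊆ Rch D u₀ lab J b n := by
  induction h with
  | refl => exact subset_rfl
  | step _ ih => exact fun z hz => Rch_succ (ih hz)

theorem Rch_down (hB : IsBse D lab J u₀) {b z z' : M} {n : ℕ} (h : z ∈ Rch D u₀ lab J b n)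
    (hz' : z' ∈ D) (h0 : u₀ ≤ z') (h1 : z' ≤ z) : z' ∈ Rch D u₀ lab J b n := by
  cases n with
  | zero => exact ⟨hz', h0, h1.trans h.2.2⟩
  | succ n =>
    obtain ⟨hz, hz0, c, hc, hc'⟩ := h
    refine ⟨hz', h0, c, hc, ?_⟩
    rcases hc' with hc' | hc'
    · exact Or.inl (h1.trans hc')
    · exact Or.inr fun hF => hc' (Far.right hB (Rch_mem hc).1 hz (Rch_mem hc).2 h1 hF)

theorem cle_of_le {a b : M} (ha : a ∈ D) (h0 : u₀ ≤ a) (h : a ≤ b) : cle D u₀ lab J a b :=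
  ⟨0, ha, h0, h⟩

theorem cle_trans (hB : IsBse D lab J u₀) {a b c : M} (h1 : cle D u₀ lab J a b)
    (h2 : cle D u₀ lab J b c) : cle D u₀ lab J a c := by
  obtain ⟨n, hn⟩ := h1
  obtain ⟨m, hm⟩ := h2
  refine ⟨m + n, ?_⟩
  induction n generalizing a with
  | zero => exact Rch_down hB hm hn.1 hn.2.1 hn.2.2
  | succ n ih =>
    obtain ⟨ha, ha0, d, hd, hd'⟩ := hn
    exact ⟨ha, ha0, d, ih hd, hd'⟩

/-- elements in different parts are far -/
theorem far_of_not_cle (hB : IsBse D lab J u₀) {a b : M} (ha : a ∈ D) (h0 : u₀ ≤ a)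
    (hb : b ∈ D) (h0' : u₀ ≤ b) (h : ¬ cle D u₀ lab J b a) : a < b ∧ Far lab J a b := by
  have h1 : ¬ b ≤ a := fun hh => h (cle_of_le hb h0' hh)
  have h2 : a ≤ b := (hB.tot a b).resolve_right h1
  refine ⟨lt_of_le_not_ge h2 h1, ?_⟩
  by_contra h3
  exact h ⟨1, hb, h0', a, ⟨ha, h0, le_rfl⟩, Or.inr h3⟩

/-- inside an initial segment of `D` the coarse preorder is computed inside the segment -/
theorem Rch_inside (hB : IsBse D lab J u₀) {b z v : M} {n : ℕ} (h : z ∈ Rch D u₀ lab J b n)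
    (hb : b ≤ v) (hz : z ≤ v) :
    z ∈ Rch {w | w ∈ D ∧ w ≤ v} u₀ lab J b n := by
  induction n generalizing z with
  | zero => exact ⟨⟨h.1, hz⟩, h.2.1, h.2.2⟩
  | succ n ih =>
    obtain ⟨hzD, hz0, c, hc, hc'⟩ := h
    by_cases hcv : c ≤ v
    · exact ⟨⟨hzD, hz⟩, hz0, c, ih hc hcv, hc'⟩
    · have h1 : z ≤ c := hz.trans ((hB.tot c v).resolve_left hcv)
      exact Rch_succ (ih (Rch_down hB hc hzD hz0 h1) hz)

/-- the parts are bounded when `D` has uncountable cofinality -/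
theorem cle_bounded (hB : IsBse D lab J u₀)
    (hnc : ∀ C : Set M, C.Countable → C ⊆ D → ∃ v ∈ D, ∀ c ∈ C, c < v) {y : M} (hy : y ∈ D)
    (h0 : u₀ ≤ y) : ∃ v ∈ D, y ≤ v ∧ ∀ z, cle D u₀ lab J z y → z ≤ v := by
  have step : ∀ a : Dge D u₀, ∃ b : Dge D u₀, a.1 < b.1 ∧
      ∀ w ∈ D, b.1 ≤ w → Far lab J a.1 w := by
    intro a
    obtain ⟨v', hv', hav, hfar⟩ := hB.far a.1 a.2.1 a.2.2
    obtain ⟨v, hv, hlt⟩ := hnc {v', a.1} ((countable_singleton _).insert _) (by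
      intro c hc
      rcases hc with rfl | hc
      · exact hv'
      · rw [mem_singleton_iff] at hc
        rw [hc]
        exact a.2.1)
    have h1 : v' < v := hlt v' (Or.inl rfl)
    have h2 : a.1 < v := hlt a.1 (Or.inr rfl)
    refine ⟨⟨v, hv, a.2.2.trans h2.le⟩, h2, fun w hw hvw => ⟨h2.le.trans hvw, ?_⟩⟩
    exact hfar w hw (h1.le.trans hvw)
  choose nx hnx1 hnx2 using step
  let v : ℕ → Dge D u₀ := fun n => Nat.rec ⟨y, hy, h0⟩ (fun _ a => nx a) n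
  have hv0 : (v 0).1 = y := rfl
  have hv1 : ∀ n, (v n).1 < (v (n + 1)).1 := fun n => hnx1 (v n)
  have hv2 : ∀ n, ∀ w ∈ D, (v (n + 1)).1 ≤ w → Far lab J (v n).1 w := fun n => hnx2 (v n)
  have key : ∀ n, ∀ z ∈ Rch D u₀ lab J y n, z ≤ (v n).1 := by
    intro n
    induction n with
    | zero => exact fun z hz => hz.2.2
    | succ n ih =>
      rintro z ⟨hz, hz0, c, hc, hc'⟩
      have hcv := ih c hc
      rcases hc' with hc' | hc'
      · exact (hc'.trans hcv).trans (hv1 n).le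
      · by_contra hzv
        have h1 : (v (n + 1)).1 ≤ z := (hB.tot z _).resolve_left hzv
        exact hc' (Far.left hB (Rch_mem hc).1 hz (Rch_mem hc).2 hcv (hv2 n z hz h1))
  obtain ⟨u, hu, hlt⟩ := hnc (range fun n => (v n).1) (countable_range _) (by
    rintro _ ⟨n, rfl⟩
    exact (v n).2.1)
  refine ⟨u, hu, (hlt _ ⟨0, rfl⟩).le, ?_⟩
  rintro z ⟨n, hn⟩
  exact (key n z hn).trans (hlt _ ⟨n, rfl⟩).le

/-- the coarse preorder on the part of `D` above `u₀` -/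
@[reducible]
def cPre (hB : IsBse D lab J u₀) : Preorder (Dge D u₀) where
  le a b := cle D u₀ lab J a.1 b.1
  lt a b := cle D u₀ lab J a.1 b.1 ∧ ¬ cle D u₀ lab J b.1 a.1
  le_refl a := cle_of_le a.2.1 a.2.2 le_rfl
  le_trans _ _ _ h1 h2 := cle_trans hB h1 h2
  lt_iff_le_not_ge _ _ := Iff.rfl

end Pool.Agent.Helper97.LO
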