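import Pool.Agent.T2.Nbs1

/-!
# T2, module CUT: the cut is definable by ranks of intervals in the unbounded case
-/

set_option autoImplicit false
set_option linter.unusedSectionVars false
set_option linter.unusedVariables false

namespace Pool.Agent.Helper97.LO

open Set Pool.Agent.Helper5.DU Pool.Agent.Helper6.Str Pool.Agent.Helper79.VC
  Pool.Agent.Helper97.VC Pool.Agent.Helper97.MD

variable {L : FirstOrder.Language.{0, 0}} {M N P : Type}

namespace CUT

/-- the preorder given by the symbol `r` -/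
def leR (r : L.Relations 2) (o : Bool) (T : L.Structure N) (a b : N) : Prop :=
  if o then T.RelMap r ![a, b] else T.RelMap r ![b, a]

theorem leR_congr {r : L.Relations 2} {o : Bool} {T : L.Structure N} {T' : L.Structure P}
    {p : Set (N × P)} (h : AtEq T T' p) {a b : N} {a' b' : P} (ha : (a, a') ∈ p)
    (hb : (b, b') ∈ p) : leR r o T a b ↔ leR r o T' a' b' := by
  have key : ∀ {c d : N} {c' d' : P}, (c, c') ∈ p → (d, d') ∈ p →
      (T.RelMap r ![c, d] ↔ T'.RelMap r ![c', d']) := by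
    intro c d c' d' hc hd
    have h1 := h.2 2 r ![(c, c'), (d, d')] (by
      intro i
      fin_cases i
      · exact hc
      · exact hd)
    have e1 : (fun i => (![(c, c'), (d, d')] i).1) = ![c, d] := by
      funext i
      fin_cases i <;> rfl
    have e2 : (fun i => (![(c, c'), (d, d')] i).2) = ![c', d'] := by
      funext i
      fin_cases i <;> rfl
    rw [e1, e2] at h1
    exact h1
  unfold leR
  cases o
  · simpa using key hb ha
  · simpa using key ha hb

/-- the interval given by `r` -/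
def ivl (r : L.Relations 2) (o : Bool) (T : L.Structure N) (a b : N) : Set N :=
  {z | leR r o T a z ∧ leR r o T z b}

/-- the formula: `x` is above `u` and some interval above `x` does not have Scott level `k` -/
def Phi (r : L.Relations 2) (o : Bool) (k : Ordinal.{0}) (N : Type) (T : L.Structure N)
    (u x : N) : Prop :=
  leR r o T u x ∧ ∃ t, leR r o T x t ∧ ¬ SL T (ivl r o T x t) k

theorem Phi_congr {r : L.Relations 2} {o : Bool} {k : Ordinal.{0}} (hk : k < om1)
    {N N' : Type} {T : L.Structure N} {T' : L.Structure N'} {u x : N} {u' x' : N'}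
    (h : BFR T T' univ univ (k + Ordinal.omega0 + 1) {(u, u'), (x, x')})
    (hP : Phi r o k N T u x) : Phi r o k N' T' u' x' := by
  obtain ⟨h1, t, h2, h3⟩ := hP
  have hu : (u, u') ∈ ({(u, u'), (x, x')} : Set (N × N')) := mem_insert _ _
  have hx : (x, x') ∈ ({(u, u'), (x, x')} : Set (N × N')) := mem_insert_of_mem _ rfl
  refine ⟨(leR_congr h.atEq hu hx).mp h1, ?_⟩
  obtain ⟨t', -, ht⟩ := h.forth (lt_add_one_self _) (mem_univ t)
  have ht' : (t, t') ∈ insert (t, t') ({(u, u'), (x, x')} : Set (N × N')) := mem_insert _ _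
  have hx' : (x, x') ∈ insert (t, t') ({(u, u'), (x, x')} : Set (N × N')) :=
    mem_insert_of_mem _ hx
  refine ⟨t', (leR_congr ht.atEq hx' ht').mp h2, fun h4 => h3 ?_⟩
  have h5 : BFR T T' (ivl r o T x t) (ivl r o T' x' t') (k + Ordinal.omega0)
      (insert (t, t') ({(u, u'), (x, x')} : Set (N × N'))) := by
    refine BFR.restr₀ (subset_univ _) (subset_univ _) (fun a _ b _ hab => ?_) ht
    have ha : (a, b) ∈ insert (a, b) (insert (t, t') ({(u, u'), (x, x')} : Set (N × N'))) :=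
      mem_insert _ _
    exact and_congr (leR_congr hab (mem_insert_of_mem _ hx') ha)
      (leR_congr hab ha (mem_insert_of_mem _ ht'))
  exact h4.congr hk (h5.symm (q := ∅) fun a ha => absurd ha (notMem_empty a))

end CUT

section

variable [∀ n, IsEmpty (L.Functions n)] [∀ n, Countable (L.Relations n)]
  {K : Set (L.Structure ℕ)} {δ : Ordinal.{0}} {S : L.Structure M}
  {G : Type} [Monoid G] [Preorder M] {r : L.Relations 2} {o : Bool} {lab : M → M → G}
  {D : Set M} {J : Set G} {u₀ : M}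

theorem nbS_cut [Finite G] (hL : Ar2 L) (hO : LSt r o lab S) (hB : IsBse D lab J u₀)
    (hini : ∀ y ∈ D, ∀ z, u₀ ≤ z → z ≤ y → z ∈ D)
    (hunb : ∀ γ < om1, ∀ u ∈ D, u₀ ≤ u → ∃ v ∈ D, u ≤ v ∧ ¬ SL S (Icc u v) γ)
    (A : Set M) (hA : A.Countable) : ∃ Λ < om1,
      ∃ Φ : (N : Type) → L.Structure N → N → N → Prop,
      (∀ (N N' : Type) (T : L.Structure N) (T' : L.Structure N') (u x : N) (u' x' : N'),
        BFR T T' univ univ Λ {(u, u'), (x, x')} → Φ N T u x → Φ N' T' u' x') ∧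
      ∀ (T : (EL L (G × Set G)).Structure ℕ) (t₀ : ℕ),
        BFR T (nbS S D u₀ lab J) univ univ Λ {(t₀, bpt hB)} →
        ∀ x : ℕ ⊕ (A \ range (Subtype.val : Dge D u₀ → M) : Set M),
          Φ _ (VI.ext S (nbS S D u₀ lab J) (Subtype.val : Dge D u₀ → M)
            (A \ range (Subtype.val : Dge D u₀ → M)) T) (Sum.inl t₀) x ↔ ∃ t, x = Sum.inl t := by
  classical
  -- the bound
  have hA2 : Countable A := hA.to_subtype
  have hch : ∀ q : A × A, ∃ κ < om1, SL S (A ∩ Icc q.1.1 q.2.1) κ := fun q =>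
    exists_SL_of_countable (hA.mono inter_subset_left)
  choose κ hκ1 hκ2 using hch
  obtain ⟨k, hk, hκk⟩ := exists_bound hκ1
  have hSLk : ∀ b ∈ A, ∀ b' ∈ A, SL S (A ∩ Icc b b') k := fun b hb b' hb' =>
    (hκ2 (⟨b, hb⟩, ⟨b', hb'⟩)).mono (hκk _)
  have hkω : k + Ordinal.omega0 < om1 := add_lt_om1 hk omega_lt_om1
  refine ⟨k + Ordinal.omega0 + 1 + 1 + 1, add_one_lt_om1 (add_one_lt_om1 (add_one_lt_om1 hkω)),
    CUT.Phi r o k, fun N N' T T' u x u' x' h hP => CUT.Phi_congr hk (h.mono ?_) hP, ?_⟩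
  · exact ((lt_add_one_self _).trans (lt_add_one_self _)).le
  intro T t₀ hT
  set e : Dge D u₀ → M := Subtype.val with he
  have hei : Function.Injective e := Subtype.val_injective
  set B : Set M := A \ range e with hBdef
  have hBr : ∀ b ∈ B, b ∉ range e := fun b hb => hb.2
  have H2 : ∀ p : Set (Dge D u₀ × Dge D u₀), p.Finite →
      AtEq (nbS S D u₀ lab J) (nbS S D u₀ lab J) p → ∀ Q : Set M, (∀ g ∈ Q, g ∉ range e) →
      AtEq S S ((fun a => (e a.1, e a.2)) '' p ∪ dg Q) := fun p _ h Q hQ =>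
    nbS_out hL hO hB hini p h Q hQ
  have hext : ∀ {p : Set (ℕ × Dge D u₀)}, AtEq T (nbS S D u₀ lab J) p → ∀ Q : Set M,
      AtEq (VI.ext S (nbS S D u₀ lab J) e B T) S (VI.lift e B p Q) := fun h Q =>
    VI.atEq_ext hei hBr H2 h Q
  have hleS : ∀ a b : M, CUT.leR r o S a b ↔ a ≤ b := fun a b => (hO.le_iff a b).symm
  -- elements outside which are above the base point are above all of `D`
  have hout : ∀ b ∈ B, u₀ ≤ b → ∀ y ∈ D, ¬ b ≤ y := by
    intro b hb h1 y hy h2
    exact hb.2 ⟨⟨b, hini y hy b h1 h2, h1⟩, rfl⟩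
  intro x
  rcases x with t | b
  · -- inner elements
    refine iff_of_true ?_ ⟨t, rfl⟩
    obtain ⟨a, -, h1⟩ := hT.forth (lt_add_one_self _) (mem_univ t)
    obtain ⟨v, hvD, hav, hv⟩ := hunb k hk a.1 a.2.1 a.2.2
    set w : Dge D u₀ := ⟨v, hvD, a.2.2.trans hav⟩ with hw
    obtain ⟨t', -, h2⟩ := h1.back (lt_add_one_self _) (mem_univ w)
    have m1 : (t', w) ∈ insert (t', w) (insert (t, a) ({(t₀, bpt hB)} : Set (ℕ × Dge D u₀))) :=
      mem_insert _ _
    have m2 : (t, a) ∈ insert (t', w) (insert (t, a) ({(t₀, bpt hB)} : Set (ℕ × Dge D u₀))) :=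
      mem_insert_of_mem _ (mem_insert _ _)
    have m3 : (t₀, bpt hB) ∈ insert (t', w)
        (insert (t, a) ({(t₀, bpt hB)} : Set (ℕ × Dge D u₀))) :=
      mem_insert_of_mem _ (mem_insert_of_mem _ rfl)
    have L1 : ∀ {p : Set (ℕ × Dge D u₀)}, AtEq T (nbS S D u₀ lab J) p → ∀ {s s' : ℕ}
        {c c' : Dge D u₀}, (s, c) ∈ p → (s', c') ∈ p →
        (CUT.leR r o (VI.ext S (nbS S D u₀ lab J) e B T) (Sum.inl s) (Sum.inl s') ↔
          c.1 ≤ c'.1) := by
      intro p hp s s' c c' hc hc'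
      exact (CUT.leR_congr (hext hp ∅) (Or.inl ⟨s, c, hc, rfl⟩)
        (Or.inl ⟨s', c', hc', rfl⟩)).trans (hleS _ _)
    have L2 : ∀ {p : Set (ℕ × Dge D u₀)}, AtEq T (nbS S D u₀ lab J) p → ∀ {s : ℕ}
        {c : Dge D u₀} (b : B), (s, c) ∈ p →
        ((CUT.leR r o (VI.ext S (nbS S D u₀ lab J) e B T) (Sum.inl s) (Sum.inr b) ↔
          c.1 ≤ b) ∧ (CUT.leR r o (VI.ext S (nbS S D u₀ lab J) e B T) (Sum.inr b) (Sum.inl s) ↔
          b ≤ c.1)) := by
      intro p hp s c b hc
      have hb : ((Sum.inr b : ℕ ⊕ B), (b : M)) ∈ VI.lift e B p {(b : M)} :=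
        Or.inr ⟨b, rfl, rfl⟩
      have hc' : ((Sum.inl s : ℕ ⊕ B), e c) ∈ VI.lift e B p {(b : M)} := Or.inl ⟨s, c, hc, rfl⟩
      exact ⟨(CUT.leR_congr (hext hp {(b : M)}) hc' hb).trans (hleS _ _),
        (CUT.leR_congr (hext hp {(b : M)}) hb hc').trans (hleS _ _)⟩
    refine ⟨(L1 h2.atEq m3 m2).mpr a.2.2, Sum.inl t', (L1 h2.atEq m2 m1).mpr hav, fun hSL => hv ?_⟩
    -- the intervals are equivalent
    have key : ∀ (γ : Ordinal.{0}) (p : Set (ℕ × Dge D u₀)), (t, a) ∈ p → (t', w) ∈ p →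
        BFR T (nbS S D u₀ lab J) univ univ γ p →
        BFR (VI.ext S (nbS S D u₀ lab J) e B T) S
          (CUT.ivl r o (VI.ext S (nbS S D u₀ lab J) e B T) (Sum.inl t) (Sum.inl t'))
          (Icc a.1 v) γ ((fun q : ℕ × Dge D u₀ => ((Sum.inl q.1 : ℕ ⊕ B), e q.2)) '' p) := by
      intro γ
      induction γ using WellFoundedLT.induction with
      | _ γ ih =>
        intro p hta htw hp
        rw [BFR.def]
        refine ⟨AtEq.anti ?_ (hext hp.atEq ∅), fun β hβ => ⟨fun z hz => ?_, fun y hy => ?_⟩⟩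
        · rintro _ ⟨q, hq, rfl⟩
          exact Or.inl ⟨q.1, q.2, hq, rfl⟩
        · rcases z with s | b
          · obtain ⟨c, -, hc⟩ := hp.forth hβ (mem_univ s)
            have hc1 : (s, c) ∈ insert (s, c) p := mem_insert _ _
            refine ⟨c.1, ⟨(L1 hc.atEq (mem_insert_of_mem _ hta) hc1).mp hz.1,
              (L1 hc.atEq hc1 (mem_insert_of_mem _ htw)).mp hz.2⟩, ?_⟩
            have h5 := ih β hβ (insert (s, c) p) (mem_insert_of_mem _ hta)
              (mem_insert_of_mem _ htw) hc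
            rw [image_insert_eq] at h5
            exact h5
          · exfalso
            have h5 := (L2 hp.atEq b hta).1.mp hz.1
            have h6 := (L2 hp.atEq b htw).2.mp hz.2
            exact hout b b.2 (a.2.2.trans h5) v hvD h6
        · have hyD : y ∈ D := hini v hvD y (a.2.2.trans hy.1) hy.2
          obtain ⟨s, -, hs⟩ := hp.back hβ (mem_univ (⟨y, hyD, a.2.2.trans hy.1⟩ : Dge D u₀))
          have hs1 : (s, (⟨y, hyD, a.2.2.trans hy.1⟩ : Dge D u₀)) ∈
              insert (s, (⟨y, hyD, a.2.2.trans hy.1⟩ : Dge D u₀)) p := mem_insert _ _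
          refine ⟨Sum.inl s, ⟨(L1 hs.atEq (mem_insert_of_mem _ hta) hs1).mpr hy.1,
            (L1 hs.atEq hs1 (mem_insert_of_mem _ htw)).mpr hy.2⟩, ?_⟩
          have h5 := ih β hβ _ (mem_insert_of_mem _ hta) (mem_insert_of_mem _ htw) hs
          rw [image_insert_eq] at h5
          exact h5
    exact hSL.congr hk (BFR.anti (empty_subset _)
      (key (k + Ordinal.omega0) _ m2 m1 (h2.mono (lt_add_one_self _).le)))
  · -- outer elements
    refine iff_of_false ?_ (by simp)
    rintro ⟨h1, t', h2, h3⟩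
    have hub : u₀ ≤ b := by
      have hb : ((Sum.inr b : ℕ ⊕ B), (b : M)) ∈ VI.lift e B {(t₀, bpt hB)} {(b : M)} :=
        Or.inr ⟨b, rfl, rfl⟩
      have hc' : ((Sum.inl t₀ : ℕ ⊕ B), e (bpt hB)) ∈ VI.lift e B {(t₀, bpt hB)} {(b : M)} :=
        Or.inl ⟨t₀, bpt hB, rfl, rfl⟩
      exact ((CUT.leR_congr (hext hT.atEq {(b : M)}) hc' hb).trans (hleS _ _)).mp h1
    have hinl : ∀ s : ℕ, ¬ CUT.leR r o (VI.ext S (nbS S D u₀ lab J) e B T) (Sum.inr b)
        (Sum.inl s) := by
      intro s h4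
      obtain ⟨c, -, hc⟩ := hT.forth (lt_add_one_self _) (mem_univ s)
      have hb : ((Sum.inr b : ℕ ⊕ B), (b : M)) ∈
          VI.lift e B (insert (s, c) {(t₀, bpt hB)}) {(b : M)} := Or.inr ⟨b, rfl, rfl⟩
      have hc' : ((Sum.inl s : ℕ ⊕ B), e c) ∈
          VI.lift e B (insert (s, c) {(t₀, bpt hB)}) {(b : M)} :=
        Or.inl ⟨s, c, mem_insert _ _, rfl⟩
      have h5 := ((CUT.leR_congr (hext hc.atEq {(b : M)}) hb hc').trans (hleS _ _)).mp h4
      exact hout b b.2 hub c.1 c.2.1 h5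
    rcases t' with s | b'
    · exact hinl s h2
    · have hR : ∀ c c' : B, (CUT.leR r o (VI.ext S (nbS S D u₀ lab J) e B T) (Sum.inr c)
          (Sum.inr c') ↔ (c : M) ≤ c') := by
        intro c c'
        have hc : ((Sum.inr c : ℕ ⊕ B), (c : M)) ∈ VI.lift e B {(t₀, bpt hB)} univ :=
          Or.inr ⟨c, trivial, rfl⟩
        have hc' : ((Sum.inr c' : ℕ ⊕ B), (c' : M)) ∈ VI.lift e B {(t₀, bpt hB)} univ :=
          Or.inr ⟨c', trivial, rfl⟩
        exact (CUT.leR_congr (hext hT.atEq univ) hc hc').trans (hleS _ _)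
      apply h3
      have hbb' : (b : M) ≤ b' := (hR b b').mp h2
      let f : ℕ ⊕ B → M := fun z => Sum.elim (fun _ => u₀) (fun c : B => (c : M)) z
      have hX : ∀ z ∈ CUT.ivl r o (VI.ext S (nbS S D u₀ lab J) e B T) (Sum.inr b) (Sum.inr b'),
          ∃ c : B, z = Sum.inr c ∧ (c : M) ∈ Icc (b : M) b' := by
        rintro (s | c) hz
        · exact absurd hz.1 (hinl s)
        · exact ⟨c, rfl, (hR b c).mp hz.1, (hR c b').mp hz.2⟩
      have hbf : BFR (VI.ext S (nbS S D u₀ lab J) e B T) S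
          (CUT.ivl r o (VI.ext S (nbS S D u₀ lab J) e B T) (Sum.inr b) (Sum.inr b'))
          (A ∩ Icc (b : M) b') (k + Ordinal.omega0) ∅ := by
        refine BFR.of_map f ?_ ?_ ?_ _ fun a ha => absurd ha (notMem_empty a)
        · intro z hz z' hz' hzz'
          obtain ⟨c, rfl, -⟩ := hX z hz
          obtain ⟨c', rfl, -⟩ := hX z' hz'
          have : (c : M) = c' := hzz'
          rw [Subtype.ext this]
        · ext y
          constructor
          · rintro ⟨hyA, hy1, hy2⟩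
            have hyr : y ∉ range e := by
              rintro ⟨d, rfl⟩
              exact hout b b.2 hub d.1 d.2.1 hy1
            refine ⟨Sum.inr ⟨y, hyA, hyr⟩, ⟨(hR b ⟨y, hyA, hyr⟩).mpr hy1,
              (hR ⟨y, hyA, hyr⟩ b').mpr hy2⟩, rfl⟩
          · rintro ⟨z, hz, rfl⟩
            obtain ⟨c, rfl, hc⟩ := hX z hz
            exact ⟨c.2.1, hc⟩
        · intro n R v hv
          have h5 := (hext hT.atEq univ).2 n R (fun i => (v i, f (v i))) (fun i => by
            obtain ⟨c, hc, -⟩ := hX (v i) (hv i)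
            rw [hc]
            exact Or.inr ⟨c, trivial, rfl⟩)
          exact h5
      exact (hSLk b b.2.1 b' b'.2.1).congr hk (hbf.symm (q := ∅)
        fun a ha => absurd ha (notMem_empty a))

end

end Pool.Agent.Helper97.LO
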