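import Pool.Agent.T2.Hom
import Pool.Agent.Helper79.VCL.Max

/-!
# Labelled sums of tame structures are tame, finite monoids
-/

set_option autoImplicit false
set_option linter.unusedSectionVars false
set_option linter.unusedVariables false

namespace Pool.Agent.Helper97.LO

open Set Pool.Agent.Helper5.DU Pool.Agent.Helper6.Str Pool.Agent.Helper79.VC
  Pool.Agent.Helper97.VC Pool.Agent.Helper97.MD

variable {L : FirstOrder.Language.{0, 0}} {M N P : Type}

variable [∀ n, IsEmpty (L.Functions n)] [∀ n, Countable (L.Relations n)]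
  {K : Set (L.Structure ℕ)} {δ : Ordinal.{0}} {S : L.Structure M}
  {G : Type} [Monoid G] [Preorder M] {r : L.Relations 2} {o : Bool} {lab : M → M → G}

/-- **Labelled sums of tame structures, labels in a finite monoid.** -/
theorem ls_lab [Finite G] (hL : Ar2 L) (hS : VSt K δ S) (hO : LSt r o lab S)
    (h : ∀ y, TameX S {z : M | z ≤ y ∧ y ≤ z}) : TameX S univ := by
  have hall : ∀ x y : M, x ≤ y → TE S x y := by
    by_contra hne
    push Not at hne
    obtain ⟨x₁, y₁, hxy₁, hne₁⟩ := hne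
    obtain ⟨x₀, y₀, ⟨hxy, hne⟩, hmax⟩ := hO.exists_max (fun x y => x ≤ y ∧ ¬ TE S x y)
      (fun x y h' => h'.1) ⟨x₁, y₁, hxy₁, hne₁⟩
    obtain ⟨K1, δ1, hS1⟩ := LSt.ipc_vst hL hS hO hxy hne (fun _ _ => True) zero_lt_om1
      (fun _ _ _ _ _ _ _ _ _ _ _ _ => Iff.rfl)
    have hO1 := hO.ipc_lst (x₀ := x₀) (y₀ := y₀) hL
    have h1 := ls_hom (ar2_EL hL) hS1 hO1 (hO.ipc_cls hL h) (by
      intro a b a' b' hab hn hab' hn' ha hb
      rw [hO.ipc_te hL] at hn hn'
      have ea := (atEq_exS.mp ha).2.1 _ rfl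
      have eb := (atEq_exS.mp hb).2.1 _ rfl
      exact hmax a.1 b.1 a'.1 b'.1 a.2.1 b.2.2 a'.2.1 b'.2.2 ⟨hab, hn⟩ ⟨hab', hn'⟩
        (congrArg Prod.fst ea) (congrArg Prod.fst eb) (congrArg Prod.snd ea)
        (congrArg Prod.snd eb)) ⟨x₀, le_rfl, hxy⟩ ⟨y₀, hxy, le_rfl⟩
    rw [hO.ipc_te hL] at h1
    exact hne h1
  have := hS.infinite
  obtain ⟨x⟩ : Nonempty M := inferInstance
  have h1 := hO.te_class hL hS h x
  have h2 : {y | TE S x y} = univ := by
    refine eq_univ_of_forall fun y => ?_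
    rcases hO.total x y with h3 | h3
    · exact hall x y h3
    · exact (hall y x h3).symm
  rwa [h2] at h1

end Pool.Agent.Helper97.LO
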