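import Pool.Agent.T2.AlFar
import Pool.Agent.T2.Basic
import Pool.Agent.T2.Exp
import Pool.Agent.T2.Lsl
import Pool.Agent.Helper22.VCM.C2b
import Pool.Agent.Helper60.VCM.C2a

/-!
# Labelled sums over monoids in which every element has finitely many factors
-/

set_option autoImplicit false
set_option linter.unusedSectionVars false
set_option linter.unusedVariables false

namespace Pool.Agent.Helper97.LO

open Set Pool.Agent.Helper5.DU Pool.Agent.Helper6.Str Pool.Agent.Helper79.VC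
  Pool.Agent.Helper97.VC Pool.Agent.Helper97.MD

variable {L : FirstOrder.Language.{0, 0}} {M N P : Type}

namespace FF

/-- relabelling by a homomorphism which is injective on the labels which occur -/
theorem lst_map {G G' : Type} [Monoid G] [Monoid G'] [Preorder M] {r : L.Relations 2} {o : Bool}
    {lab : M → M → G} {S : L.Structure M} (hO : LSt r o lab S) (φ : G →* G')
    (hinj : ∀ a b a' b' : M, a ≤ b → a' ≤ b' → φ (lab a b) = φ (lab a' b') →
      lab a b = lab a' b') : LSt r o (fun a b => φ (lab a b)) S where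
  total := hO.total
  le_iff := hO.le_iff
  one a b h1 h2 := by rw [hO.one a b h1 h2, map_one]
  mul a b c h1 h2 := by rw [hO.mul a b c h1 h2, map_mul]
  inv a b a' b' h1 h2 := by rw [hO.inv a b a' b' h1 h2]
  cross a b a' b' h1 h2 h3 h4 h5 :=
    hO.cross a b a' b' h1 h2 (hinj a b a' b' h1.le h2.le h3) h4 h5

/-- the congruence which identifies all elements outside `W` -/
def con {G : Type} [Monoid G] (W : Set G) (h1 : ∀ a b : G, a * b ∈ W → a ∈ W)
    (h2 : ∀ a b : G, a * b ∈ W → b ∈ W) : Con G where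
  r a b := a = b ∨ (a ∉ W ∧ b ∉ W)
  iseqv := by
    refine ⟨fun a => Or.inl rfl, ?_, ?_⟩
    · rintro a b (h | h)
      · exact Or.inl h.symm
      · exact Or.inr ⟨h.2, h.1⟩
    · rintro a b c (rfl | h) (rfl | h')
      · exact Or.inl rfl
      · exact Or.inr h'
      · exact Or.inr h
      · exact Or.inr ⟨h.1, h'.2⟩
  mul' := by
    rintro a b c d (rfl | h) (rfl | h')
    · exact Or.inl rfl
    · exact Or.inr ⟨fun h => h'.1 (h2 _ _ h), fun h => h'.2 (h2 _ _ h)⟩
    · exact Or.inr ⟨fun h3 => h.1 (h1 _ _ h3), fun h3 => h.2 (h1 _ _ h3)⟩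
    · exact Or.inr ⟨fun h3 => h.1 (h1 _ _ h3), fun h3 => h.2 (h1 _ _ h3)⟩

theorem con_finite {G : Type} [Monoid G] {W : Set G} (h1 : ∀ a b : G, a * b ∈ W → a ∈ W)
    (h2 : ∀ a b : G, a * b ∈ W → b ∈ W) (hW : W.Finite) : Finite (con W h1 h2).Quotient := by
  have key : (univ : Set (con W h1 h2).Quotient) =
      (fun g : G => (g : (con W h1 h2).Quotient)) '' W ∪
      (fun g : G => (g : (con W h1 h2).Quotient)) '' Wᶜ := by
    rw [← image_union, union_compl_self, image_univ]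
    symm
    rw [range_eq_univ]
    exact Con.mk'_surjective
  rw [← finite_univ_iff, key]
  refine (hW.image _).union ?_
  refine Set.Subsingleton.finite ?_
  rintro _ ⟨a, ha, rfl⟩ _ ⟨b, hb, rfl⟩
  exact (Con.eq _).2 (Or.inr ⟨ha, hb⟩)

theorem con_inj {G : Type} [Monoid G] {W : Set G} (h1 : ∀ a b : G, a * b ∈ W → a ∈ W)
    (h2 : ∀ a b : G, a * b ∈ W → b ∈ W) {a b : G} (ha : a ∈ W)
    (h : (con W h1 h2).mk' a = (con W h1 h2).mk' b) : a = b := by
  have h3 : (con W h1 h2) a b := (Con.eq _).1 h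
  rcases h3 with h3 | h3
  · exact h3
  · exact absurd ha h3.1

theorem atEq_dg {S : L.Structure M} (A : Set M) : AtEq S S (dg A) := by
  refine (BFR.refl S A 0 (p := dg A) ?_).atEq
  rintro _ ⟨a, ha, rfl⟩
  exact ⟨ha, rfl⟩

theorem atEq_single {S : L.Structure M} (g : M) : AtEq S S {(g, g)} := by
  have := atEq_dg (S := S) {g}
  rwa [dg, image_singleton] at this

section

variable [∀ n, IsEmpty (L.Functions n)] [∀ n, Countable (L.Relations n)]
  {K : Set (L.Structure ℕ)} {δ : Ordinal.{0}} {S : L.Structure M}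
  {G : Type} [Monoid G] [Preorder M] {r : L.Relations 2} {o : Bool} {lab : M → M → G}

/-- pieces whose labels lie in a finite set closed under factors -/
theorem piece_tame (hL : Ar2 L) (hS : VSt K δ S) (hO : LSt r o lab S)
    (h : ∀ y, TameX S {z : M | z ≤ y ∧ y ≤ z}) {W : Set G} (hW : W.Finite)
    (h1 : ∀ a b : G, a * b ∈ W → a ∈ W) (h2 : ∀ a b : G, a * b ∈ W → b ∈ W) {X : Set M}
    (hcl : ∀ y ∈ X, ∀ z, z ≤ y → y ≤ z → z ∈ X)
    (hlab : ∀ a ∈ X, ∀ b ∈ X, a ≤ b → lab a b ∈ W) (F : Finset M)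
    (dat : M → (con W h1 h2).Quotient × (con W h1 h2).Quotient)
    (hX : ∀ c c', AtEq S S (insert (c, c') (dg (F : Set M))) → (c ∈ X ↔ c' ∈ X))
    (hdat : ∀ z ∈ X, ∀ z' ∈ X, AtEq S S (insert (z, z') (dg (F : Set M))) → dat z = dat z')
    (hdc : ∀ z ∈ X, ∀ z' ∈ X, z ≤ z' → z' ≤ z → dat z = dat z')
    (hout : ∀ g, g ∉ X → ∀ z ∈ X, ∀ z' ∈ X, dat z = dat z' → AtEq S S {(z, z')} →
      AtEq S S {(g, g), (z, z')}) : TameX S X := by
  classical
  by_cases hXi : Infinite X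
  swap
  · refine tameX_of_countable ?_
    rw [not_infinite_iff_finite] at hXi
    exact (Set.toFinite X).countable
  have hfin := con_finite h1 h2 hW
  obtain ⟨K', δ', hS'⟩ := VSt.piece hL hS X dat (fun _ _ => True) F (η := 0)
    (Ordinal.omega_pos 1) (fun c c' hc => hX c c' hc.atEq)
    (fun z hz z' hz' hc => hdat z hz z' hz' hc.atEq) (fun _ _ _ _ _ _ _ _ _ => Iff.rfl) hout
  have hO1 := LSt.piece hL hO X dat (fun _ _ => True)
    (fun _ _ _ _ _ _ _ _ _ => ⟨Iff.rfl, Iff.rfl⟩)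
  have hO2 := lst_map hO1 (con W h1 h2).mk' (by
    intro a b a' b' hab hab' he
    exact con_inj h1 h2 (hlab a.1 a.2 b.1 b.2 hab) he)
  have hval : Function.Injective (Subtype.val : X → M) := Subtype.val_injective
  have h3 := ls_lab (ar2_EL hL) hS' hO2 (by
    intro y
    have h4 : TameX (pl S (Subtype.val : X → M)) {z : X | z ≤ y ∧ y ≤ z} := by
      rw [tameX_pl hval]
      have : (Subtype.val : X → M) '' {z : X | z ≤ y ∧ y ≤ z} = {z : M | z ≤ y.1 ∧ y.1 ≤ z} := by
        ext z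
        constructor
        · rintro ⟨z, hz, rfl⟩
          exact hz
        · intro hz
          exact ⟨⟨z, hcl y.1 y.2 z hz.1 hz.2⟩, hz, rfl⟩
      rw [this]
      exact h y.1
    refine h4.expand ∅ (by simp) (η := 0) (Ordinal.omega_pos 1) ?_
    intro p hp hpX _ hb
    rw [atEq_exS]
    refine ⟨hb.atEq, ?_, fun _ _ _ _ => Iff.rfl⟩
    intro a ha
    have ha1 := (hpX a ha).1
    have ha2 := (hpX a ha).2
    exact hdc a.1.1 a.1.2 a.2.1 a.2.2 (le_trans ha1.1 ha2.2) (le_trans ha2.1 ha1.2))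
  have h5 : TameX (pl S (Subtype.val : X → M)) univ :=
    h3.reduct (fun p _ _ hp => (atEq_exS.1 hp).1)
  rw [tameX_pl hval, image_univ, Subtype.range_coe] at h5
  exact h5

/-- closed intervals are tame -/
theorem icc (hL : Ar2 L) (hS : VSt K δ S) (hO : LSt r o lab S)
    (hfac : ∀ s : G, {t : G | s ∈ Idl t}.Finite)
    (h : ∀ y, TameX S {z : M | z ≤ y ∧ y ≤ z}) {x y : M} (hxy : x ≤ y) : TameX S (Icc x y) := by
  classical
  have h1 : ∀ a b : G, a * b ∈ {t : G | lab x y ∈ Idl t} → a ∈ {t : G | lab x y ∈ Idl t} :=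
    fun a b hab => Idl_mul_right a b hab
  have h2 : ∀ a b : G, a * b ∈ {t : G | lab x y ∈ Idl t} → b ∈ {t : G | lab x y ∈ Idl t} :=
    fun a b hab => Idl_mul_left a b hab
  have hl : ∀ z ∈ Icc x y, lab x z ∈ {t : G | lab x y ∈ Idl t} := by
    intro z hz
    have := hO.mul x z y hz.1 hz.2
    show lab x y ∈ Idl (lab x z)
    rw [this]
    exact ⟨1, lab z y, by simp⟩
  have hr : ∀ z ∈ Icc x y, lab z y ∈ {t : G | lab x y ∈ Idl t} := by
    intro z hz
    have := hO.mul x z y hz.1 hz.2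
    show lab x y ∈ Idl (lab z y)
    rw [this]
    exact ⟨lab x z, 1, by simp⟩
  refine piece_tame hL hS hO h (hfac (lab x y)) h1 h2 ?_ ?_ {x, y}
    (fun z => ((con _ h1 h2).mk' (lab x z), (con _ h1 h2).mk' (lab z y))) ?_ ?_ ?_ ?_
  · intro w hw z hz1 hz2
    exact ⟨hw.1.trans hz2, hz1.trans hw.2⟩
  · intro a ha b hb hab
    have e1 := hO.mul x a y ha.1 ha.2
    have e2 := hO.mul a b y hab hb.2
    show lab x y ∈ Idl (lab a b)
    rw [e1, e2]
    exact ⟨lab x a, lab b y, by simp [mul_assoc]⟩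
  · intro c c' hc
    have mc : (c, c') ∈ insert (c, c') (dg (({x, y} : Finset M) : Set M)) := mem_insert _ _
    have mx : (x, x) ∈ insert (c, c') (dg (({x, y} : Finset M) : Set M)) :=
      mem_insert_of_mem _ ⟨x, by simp, rfl⟩
    have my : (y, y) ∈ insert (c, c') (dg (({x, y} : Finset M) : Set M)) :=
      mem_insert_of_mem _ ⟨y, by simp, rfl⟩
    have e1 := hO.le_congr hc mx mc
    have e2 := hO.le_congr hc mc my
    exact and_congr e1 e2
  · intro z hz z' hz' hc
    have e1 : lab x z = lab x z' := by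
      refine hO.inv x z x z' hz.1 (AtEq.anti ?_ hc)
      rintro _ (rfl | rfl)
      · exact mem_insert_of_mem _ ⟨x, by simp, rfl⟩
      · exact mem_insert _ _
    have e2 : lab z y = lab z' y := by
      refine hO.inv z y z' y hz.2 (AtEq.anti ?_ hc)
      rintro _ (rfl | rfl)
      · exact mem_insert _ _
      · exact mem_insert_of_mem _ ⟨y, by simp, rfl⟩
    show (_, _) = (_, _)
    rw [e1, e2]
  · intro z hz z' hz' h3 h4
    have e1 : lab x z' = lab x z := by
      rw [hO.mul x z z' hz.1 h3, hO.one z z' h3 h4, mul_one]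
    have e2 : lab z y = lab z' y := by
      rw [hO.mul z z' y h3 hz'.2, hO.one z z' h3 h4, one_mul]
    show (_, _) = (_, _)
    rw [e1, e2]
  · intro g hg z hz z' hz' hd hat
    have hd1 : lab x z = lab x z' := con_inj h1 h2 (hl z hz) (congrArg Prod.fst hd)
    have hd2 : lab z y = lab z' y := con_inj h1 h2 (hr z hz) (congrArg Prod.snd hd)
    have hg' : ¬ x ≤ g ∨ ¬ g ≤ y := by
      by_contra h3
      push Not at h3
      exact hg ⟨h3.1, h3.2⟩
    rcases hg' with h3 | h3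
    · have h4 : g < x := hO.not_le.1 h3
      refine hO.cross g z g z' (lt_of_lt_of_le h4 hz.1) (lt_of_lt_of_le h4 hz'.1) ?_
        (atEq_single g) hat
      rw [hO.mul g x z h4.le hz.1, hO.mul g x z' h4.le hz'.1, hd1]
    · have h4 : y < g := hO.not_le.1 h3
      rw [pair_comm]
      refine hO.cross z g z' g (lt_of_le_of_lt hz.2 h4) (lt_of_le_of_lt hz'.2 h4) ?_ hat
        (atEq_single g)
      rw [hO.mul z y g hz.2 h4.le, hO.mul z' y g hz'.2 h4.le, hd2]

/-- the part above an element is tame -/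
theorem ici (hL : Ar2 L) (hS : VSt K δ S) (hO : LSt r o lab S)
    (hfac : ∀ s : G, {t : G | s ∈ Idl t}.Finite)
    (h : ∀ y, TameX S {z : M | z ≤ y ∧ y ≤ z}) (x : M) : TameX S (Ici x) := by
  classical
  have hDD : NBA.DD S x = Ici x := by
    ext y
    exact ⟨fun hy => hy.1, fun hy => ⟨hy, icc hL hS hO hfac h hy⟩⟩
  by_cases hc : ∃ C : Set M, C.Countable ∧ C ⊆ Ici x ∧ ∀ y ∈ Ici x, ∃ c ∈ C, y ≤ c
  · obtain ⟨C, hC1, hC2, hC3⟩ := hc
    rw [← hDD] at hC2 hC3 ⊢
    exact hO.tame_of_cofinal hL hC1 hC2 hC3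
  have hnc : ∀ C : Set M, C.Countable → C ⊆ Ici x → ∃ y ∈ Ici x, ∀ c ∈ C, c < y := by
    intro C hC1 hC2
    by_contra h3
    push Not at h3
    refine hc ⟨C, hC1, hC2, fun y hy => ?_⟩
    obtain ⟨c, hcC, h4⟩ := h3 y hy
    refine ⟨c, hcC, ?_⟩
    by_contra h5
    exact h4 (hO.not_le.1 h5)
  obtain ⟨κ, hκ⟩ := hS.code (γ := 0) (Ordinal.omega_pos 1) 2
  -- a cofinal value of the code
  have hv : ∀ t : ℕ, ∃ y ∈ Ici x, (∃ y' ∈ Ici x, ∀ w ∈ Ici x, y' ≤ w → κ ![x, w] ≠ t) →
      ∀ w ∈ Ici x, y ≤ w → κ ![x, w] ≠ t := by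
    intro t
    by_cases h3 : ∃ y' ∈ Ici x, ∀ w ∈ Ici x, y' ≤ w → κ ![x, w] ≠ t
    · obtain ⟨y', hy', h4⟩ := h3
      exact ⟨y', hy', fun _ => h4⟩
    · exact ⟨x, le_refl x, fun h4 => absurd h4 h3⟩
  choose yt hyt1 hyt2 using hv
  obtain ⟨y, hy, hyC⟩ := hnc (range yt) (countable_range _) (by
    rintro _ ⟨t, rfl⟩
    exact hyt1 t)
  have hcof : ∀ v ∈ Ici x, ∃ w ∈ Ici x, v ≤ w ∧ lab x w = lab x y := by
    intro v hv
    by_contra h3
    push Not at h3
    refine hyt2 (κ ![x, y]) ⟨v, hv, fun w hw hvw he => h3 w hw hvw ?_⟩ y hy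
      (hyC _ ⟨_, rfl⟩).le rfl
    have h4 := (hκ _ _ he).atEq
    refine hO.inv x w x y hw (AtEq.anti ?_ h4)
    rintro _ (rfl | rfl)
    · exact ⟨0, rfl⟩
    · exact ⟨1, rfl⟩
  have h1 : ∀ a b : G, a * b ∈ {t : G | lab x y ∈ Idl t} → a ∈ {t : G | lab x y ∈ Idl t} :=
    fun a b hab => Idl_mul_right a b hab
  have h2 : ∀ a b : G, a * b ∈ {t : G | lab x y ∈ Idl t} → b ∈ {t : G | lab x y ∈ Idl t} :=
    fun a b hab => Idl_mul_left a b hab
  have hlab : ∀ a ∈ Ici x, ∀ b ∈ Ici x, a ≤ b → lab x y ∈ Idl (lab a b) := by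
    intro a ha b hb hab
    obtain ⟨w, hw, hbw, he⟩ := hcof b hb
    rw [← he, hO.mul x a w ha (hab.trans hbw), hO.mul a b w hab hbw]
    exact ⟨lab x a, lab b w, by simp [mul_assoc]⟩
  refine piece_tame hL hS hO h (hfac (lab x y)) h1 h2 ?_ hlab {x}
    (fun z => ((con _ h1 h2).mk' (lab x z), 1)) ?_ ?_ ?_ ?_
  · intro w hw z hz1 hz2
    exact le_trans hw hz2
  · intro c c' hc
    exact hO.le_congr hc (mem_insert_of_mem _ ⟨x, by simp, rfl⟩) (mem_insert _ _)
  · intro z hz z' hz' hc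
    have e1 : lab x z = lab x z' := by
      refine hO.inv x z x z' hz (AtEq.anti ?_ hc)
      rintro _ (rfl | rfl)
      · exact mem_insert_of_mem _ ⟨x, by simp, rfl⟩
      · exact mem_insert _ _
    show (_, _) = (_, _)
    rw [e1]
  · intro z hz z' hz' h3 h4
    have e1 : lab x z' = lab x z := by
      rw [hO.mul x z z' hz h3, hO.one z z' h3 h4, mul_one]
    show (_, _) = (_, _)
    rw [e1]
  · intro g hg z hz z' hz' hd hat
    have hd1 : lab x z = lab x z' :=
      con_inj h1 h2 (hlab x (le_refl x) z hz hz) (congrArg Prod.fst hd)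
    have h4 : g < x := hO.not_le.1 hg
    refine hO.cross g z g z' (lt_of_lt_of_le h4 hz) (lt_of_lt_of_le h4 hz') ?_
      (atEq_single g) hat
    rw [hO.mul g x z h4.le hz, hO.mul g x z' h4.le hz', hd1]

/-- the part below an element is tame -/
theorem iic (hL : Ar2 L) (hS : VSt K δ S) (hO : LSt r o lab S)
    (hfac : ∀ s : G, {t : G | s ∈ Idl t}.Finite)
    (h : ∀ y, TameX S {z : M | z ≤ y ∧ y ≤ z}) (x : M) : TameX S (Iic x) := by
  have hfac' : ∀ s : Gᵐᵒᵖ, {t : Gᵐᵒᵖ | s ∈ Idl t}.Finite := by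
    intro s
    refine ((hfac s.unop).preimage (MulOpposite.unop_injective.injOn)).subset ?_
    rintro t ⟨a, b, hab⟩
    refine ⟨b.unop, a.unop, ?_⟩
    rw [hab]
    simp [mul_assoc]
  have h' : ∀ y, TameX S {z : M | @LE.le M (dualPre M).toLE z y ∧ @LE.le M (dualPre M).toLE y z} := by
    intro y
    have := h y
    have e : {z : M | @LE.le M (dualPre M).toLE z y ∧ @LE.le M (dualPre M).toLE y z} =
        {z : M | z ≤ y ∧ y ≤ z} := by
      ext z
      exact and_comm
    rw [e]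
    exact this
  exact @ici L M _ _ K δ S Gᵐᵒᵖ _ (dualPre M) r (!o) _ hL hS hO.dual hfac' h' x

end

end FF

section

variable [∀ n, IsEmpty (L.Functions n)] [∀ n, Countable (L.Relations n)]
  {K : Set (L.Structure ℕ)} {δ : Ordinal.{0}} {S : L.Structure M}
  {G : Type} [Monoid G] [Preorder M] {r : L.Relations 2} {o : Bool} {lab : M → M → G}

theorem ls_ff (hL : Ar2 L) (hS : VSt K δ S) (hO : LSt r o lab S)
    (hfac : ∀ s : G, {t : G | s ∈ Idl t}.Finite)
    (h : ∀ y, TameX S {z : M | z ≤ y ∧ y ≤ z}) : TameX S univ := by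
  by_cases hM : Nonempty M
  swap
  · refine tameX_of_countable ?_
    have : (univ : Set M) = ∅ := by
      rw [univ_eq_empty_iff]
      exact not_nonempty_iff.1 hM
    rw [this]
    exact countable_empty
  obtain ⟨x⟩ := hM
  have h1 := hO.tame_union hL (FF.iic hL hS hO hfac h x) (FF.ici hL hS hO hfac h x) (m := x)
    (le_refl x) (le_refl x) (fun a ha => ha) (fun b hb => hb) (fun b _ hb => hb)
  have h2 : Iic x ∪ Ici x = univ := by
    ext z
    simp only [mem_union, mem_Iic, mem_Ici, mem_univ, iff_true]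
    exact hO.total z x
  rwa [h2] at h1

end

end Pool.Agent.Helper97.LO
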