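import Pool.Agent.T2.FinRefl
import Pool.Agent.T2.Basic

/-!
# The classes of labelled ordered sums of sparse structures
-/

set_option autoImplicit false
set_option linter.unusedSectionVars false
set_option linter.unusedVariables false

namespace Pool.Agent.Helper97.LO

open Set Pool.Agent.Helper5.DU Pool.Agent.Helper6.Str Pool.Agent.Helper79.VC
  Pool.Agent.Helper97.VC Pool.Agent.Helper97.MD Pool.Agent.Helper79.VCM

variable {L : FirstOrder.Language.{0, 0}} {M N P : Type}

variable [∀ n, IsEmpty (L.Functions n)] [∀ n, Countable (L.Relations n)]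
  {K : Set (L.Structure ℕ)} {δ : Ordinal.{0}} {S : L.Structure M}

/-- sparseness of the classes is reflected -/
theorem sparseParts_reflect (hS : VSt K δ S) (r : L.Relations 2)
    (h : ∀ T ∈ K, SparseParts r T) : SparseParts r S := by
  classical
  intro x
  by_contra hcon
  push Not at hcon
  set C : Set M := {z | S.RelMap r ![x, z] ∧ S.RelMap r ![z, x]} with hC
  have hch : ∀ b : Set (L.Relations 2), ∃ W : Set M, W.Countable ∧
      ∃ (v : ℕ → M) (Q : ℕ → ℕ → List M), Function.Injective v ∧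
    (∀ i j, i < j → (v i :: (Q i j ++ [v j])).Nodup ∧
      List.IsChain (gr S C b).Adj (v i :: (Q i j ++ [v j]))) ∧
    (∀ i j k, i < j → v k ∉ Q i j) ∧
    (∀ i j i' j', i < j → i' < j' → (i, j) ≠ (i', j') → List.Disjoint (Q i j) (Q i' j')) ∧
    (∀ i, v i ∈ W) ∧ ∀ i j, ∀ x ∈ Q i j, x ∈ W := by
    intro b
    obtain ⟨v, Q, h1, h2, h3, h4⟩ := hcon b
    refine ⟨range v ∪ ⋃ i, ⋃ j, {x | x ∈ Q i j}, ?_, v, Q, h1, h2, h3, h4, fun i => Or.inl ⟨i, rfl⟩,
      fun i j x hx => Or.inr ?_⟩
    · exact (countable_range v).union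
        (countable_iUnion fun i => countable_iUnion fun j => (List.finite_toSet _).countable)
    · simp only [mem_iUnion]
      exact ⟨i, j, hx⟩
  choose W hW hW' using hch
  obtain ⟨f, hf, hfK, hfc⟩ := exists_reflect hS.scat hS.lt hS.clos hS.lev
    (fun F => insert x (W ∅) ∪ ⋃ u ∈ F, ⋃ v ∈ F, W (bt S u v).1)
    (fun F => ((hW ∅).insert x).union
      ((F.finite_toSet.countable).biUnion fun x _ =>
        (F.finite_toSet.countable).biUnion fun y _ => hW _))
  have hxr : x ∈ range f := hfc ∅ (by simp) (Or.inl (mem_insert _ _))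
  have hW0 : W ∅ ⊆ range f := fun z hz => hfc ∅ (by simp) (Or.inl (mem_insert_of_mem _ hz))
  obtain ⟨i₀, hi₀⟩ := hxr
  have hrel : ∀ i j : ℕ, (pl S f).RelMap r ![i, j] ↔ S.RelMap r ![f i, f j] := by
    intro i j
    have e : (fun k => f ((![i, j] : Fin 2 → ℕ) k)) = ![f i, f j] := by
      funext k
      fin_cases k <;> rfl
    show S.RelMap r (fun k => f ((![i, j] : Fin 2 → ℕ) k)) ↔ _
    rw [e]
  have hpre : {z | (pl S f).RelMap r ![i₀, z] ∧ (pl S f).RelMap r ![z, i₀]} = f ⁻¹' C := by
    ext z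
    show _ ∧ _ ↔ S.RelMap r ![x, f z] ∧ S.RelMap r ![f z, x]
    rw [hrel, hrel, hi₀]
  obtain ⟨b, hb⟩ := h _ hfK i₀
  rw [hpre] at hb
  have hinf : (f ⁻¹' C).Infinite := by
    obtain ⟨v, Q, h1, h2, h3, h4, h5, h6⟩ := hW' ∅
    have hvC : ∀ i, v i ∈ C := by
      intro i
      have h7 := (h2 i (i + 1) (Nat.lt_succ_self i)).2
      cases hQ : Q i (i + 1) with
      | nil =>
        rw [hQ] at h7
        simp only [List.nil_append, List.isChain_cons_cons, List.isChain_singleton,
          and_true] at h7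
        exact h7.2.1
      | cons q l =>
        rw [hQ] at h7
        simp only [List.cons_append, List.isChain_cons_cons] at h7
        exact h7.1.2.1
    intro hfin
    have h8 : (f '' (f ⁻¹' C)).Finite := hfin.image f
    rw [image_preimage_eq_inter_range] at h8
    have h9 : (range v).Finite := h8.subset (by
      rintro _ ⟨n, rfl⟩
      exact ⟨hvC n, hW0 (h5 n)⟩)
    exact (infinite_range_of_injective h1) h9
  apply hb
  by_cases hocc : ∃ x ∈ f ⁻¹' C, ∃ y ∈ f ⁻¹' C, bt (pl S f) x y = (b, b)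
  · obtain ⟨x', hx, y', hy, hxy⟩ := hocc
    rw [bt_pl] at hxy
    obtain ⟨v, Q, h1, h2, h3, h4, h5, h6⟩ := hW' b
    have hWr : W b ⊆ range f := by
      intro w hw
      refine hfc {f x', f y'} ?_ (Or.inr ?_)
      · intro a ha
        simp only [Finset.coe_insert, Finset.coe_singleton, mem_insert_iff,
          mem_singleton_iff] at ha
        rcases ha with rfl | rfl
        · exact mem_range_self _
        · exact mem_range_self _
      · simp only [mem_iUnion]
        refine ⟨f x', by simp, f y', by simp, ?_⟩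
        rw [hxy]
        exact hw
    refine hasTK_pull (G := gr S C b) hf ?_ h1 h2 h3 h4 (fun i => hWr (h5 i))
      (fun i j x hx => hWr (h6 i j x hx))
    rintro x' y' ⟨hne, hx', hy', hbt'⟩
    refine ⟨fun h => hne (by rw [h]), hx', hy', ?_⟩
    rw [bt_pl]
    exact hbt'
  · push Not at hocc
    exact hasTK_of_complete hinf fun x hx y hy hxy => ⟨hxy, hx, hy, hocc x hx y hy⟩

/-- sparse classes are tame -/
theorem LSt.tame_part [Preorder M] {G : Type} [Monoid G] {r : L.Relations 2} {o : Bool}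
    {lab : M → M → G} (hL : Ar2 L) (hS : VSt K δ S) (hO : LSt r o lab S) (x : M)
    (b : Set (L.Relations 2)) (hb : ¬ HasTK (gr S {z | z ≤ x ∧ x ≤ z} b)) :
    TameX S {z | z ≤ x ∧ x ≤ z} := by
  classical
  by_cases hct : TameX S {z : M | z ≤ x ∧ x ≤ z}
  · exact hct
  set C : Set M := {z | z ≤ x ∧ x ≤ z} with hC
  have hinf : Infinite C := (TR.infinite_of_not_tame hct).to_subtype
  have hV : ∃ (K' : Set (L.Structure ℕ)) (δ' : Ordinal.{0}),
      VSt K' δ' (pl S (Subtype.val : C → M)) := by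
    refine hS.interp (S' := pl S (Subtype.val : C → M)) Subtype.val Subtype.val_injective
      {x} (η := 0) (Ordinal.omega_pos 1) ?_ ?_ ?_
    · intro c c' h
      rw [Subtype.range_val]
      have m1 : (c, c') ∈ (insert (c, c') (dg ((({x} : Finset M)) : Set M)) : Set (M × M)) :=
        mem_insert _ _
      have m2 : (x, x) ∈ (insert (c, c') (dg ((({x} : Finset M)) : Set M)) : Set (M × M)) :=
        mem_insert_of_mem _ ⟨x, by simp, rfl⟩
      have h1 := hO.le_congr h.atEq m1 m2
      have h2 := hO.le_congr h.atEq m2 m1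
      exact and_congr h1 h2
    · intro p hp h
      rw [TR.atEq_pl Subtype.val_injective]
      exact AtEq.anti subset_union_left h.atEq
    · intro p hp h Q hQ
      rw [TR.atEq_pl Subtype.val_injective] at h
      have hone : ∀ c ∈ (fun a : C × C => ((a.1 : M), (a.2 : M))) '' p ∪ dg Q,
          AtEq S S {c} := by
        rintro c (hc | ⟨g, hg, rfl⟩)
        · exact AtEq.anti (by rintro d rfl; exact hc) h
        · exact TR.atEq_refl S (by rintro d rfl; rfl)
      have hout : ∀ a : C × C, a ∈ p → ∀ g ∈ Q, AtEq S S {((a.1 : M), (a.2 : M)), (g, g)} := by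
        intro a ha g hg
        have hgC : g ∉ C := by
          have := hQ g hg
          rwa [Subtype.range_val] at this
        have h1 := hone ((a.1 : M), (a.2 : M)) (Or.inl ⟨a, ha, rfl⟩)
        have h2 := hone (g, g) (Or.inr ⟨g, hg, rfl⟩)
        have e12 : (a.1 : M) ≤ a.2 := a.1.2.1.trans a.2.2.2
        have e21 : (a.2 : M) ≤ a.1 := a.2.2.1.trans a.1.2.2
        rcases hO.total g x with h3 | h3
        · have hlt : g < x := lt_of_le_not_ge h3 fun h4 => hgC ⟨h3, h4⟩
          have h5 : g < (a.1 : M) := lt_of_lt_of_le hlt a.1.2.2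
          have h6 : g < (a.2 : M) := lt_of_lt_of_le hlt a.2.2.2
          rw [pair_comm]
          refine hO.cross g a.1 g a.2 h5 h6 ?_ h2 h1
          rw [hO.mul g a.1 a.2 h5.le e12, hO.one a.1 a.2 e12 e21, mul_one]
        · have hlt : x < g := lt_of_le_not_ge h3 fun h4 => hgC ⟨h4, h3⟩
          have h5 : (a.1 : M) < g := lt_of_le_of_lt a.1.2.1 hlt
          have h6 : (a.2 : M) < g := lt_of_le_of_lt a.2.2.1 hlt
          refine hO.cross a.1 g a.2 g h5 h6 ?_ h1 h2
          rw [hO.mul a.1 a.2 g e12 h6.le, hO.one a.1 a.2 e12 e21, one_mul]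
      refine atEq_of_pairs hL fun a ha c hc => ?_
      rcases ha with ⟨a, ha, rfl⟩ | ⟨g, hg, rfl⟩ <;> rcases hc with ⟨c, hc, rfl⟩ | ⟨g', hg', rfl⟩
      · refine AtEq.anti ?_ h
        rintro d (rfl | rfl)
        · exact ⟨a, ha, rfl⟩
        · exact ⟨c, hc, rfl⟩
      · exact hout a ha g' hg'
      · rw [pair_comm]
        exact hout c hc g hg
      · refine TR.atEq_refl S ?_
        rintro d (rfl | rfl) <;> rfl
  obtain ⟨K', δ', hV'⟩ := hV
  have h1 : ¬ HasTK (gr (pl S (Subtype.val : C → M)) univ b) := by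
    intro h2
    refine hb (TR.hasTK_map Subtype.val_injective (fun y z hyz => ?_) h2)
    obtain ⟨h3, -, -, h4⟩ := hyz
    rw [bt_pl] at h4
    exact ⟨fun h5 => h3 (Subtype.ext h5), y.2, z.2, h4⟩
  have h2 := (tameX_pl Subtype.val_injective).mp (sp hL hV' b h1)
  rw [image_univ, Subtype.range_val] at h2
  exact h2

end Pool.Agent.Helper97.LO
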