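import Pool.Agent.T2.Ff
import Pool.Agent.T2.FinParts

/-!
# The dichotomy for labelled ordered sums of sparse structures
-/

set_option autoImplicit false
set_option linter.unusedSectionVars false
set_option linter.unusedVariables false

namespace Pool.Agent.Helper97.LO

open Set Pool.Agent.Helper5 Pool.Agent.Helper5.DU Pool.Agent.Helper6.Str
  Pool.Agent.Helper79.VC Pool.Agent.Helper97.VC Pool.Agent.Helper97.MD Pool.Agent.Helper6.VC
  Pool.Agent.Helper97.LO.TR

variable {L : FirstOrder.Language.{0, 0}} {M : Type}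

/-- the large structure is tame -/
theorem tame_of_sparseLab [∀ n, IsEmpty (L.Functions n)] [∀ n, Countable (L.Relations n)]
    {K : Set (L.Structure ℕ)} {δ : Ordinal.{0}} {S : L.Structure M} (hL : Ar2 L)
    (hS : VSt K δ S) (r : L.Relations 2) (h : ∀ T ∈ K, SparseLab r T) : TameX S univ := by
  obtain ⟨G, hG, lab, hfin, hLS⟩ := labSum_reflect hS r fun T hT => (h T hT).2
  have hsp := sparseParts_reflect hS r fun T hT => (h T hT).1
  let P : Preorder M :=
    { le := fun a b => S.RelMap r ![a, b]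
      le_refl := fun a => (hLS.total a a).elim id id
      le_trans := fun a b c => hLS.trans a b c }
  have hO : @LSt L M P G _ r true lab S :=
    { total := hLS.total
      le_iff := fun a b => by simp only [if_true]; exact Iff.rfl
      one := hLS.one
      mul := hLS.mul
      inv := hLS.inv
      cross := fun a b a' b' h1 h2 => hLS.cross a b a' b' h1.1 h1.2 h2.1 h2.2 }
  refine ls_ff hL hS hO (fun s => hfin s) fun y => ?_
  obtain ⟨b, hb⟩ := hsp y
  refine hO.tame_part hL hS y b fun h' => hb ?_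
  have e : {z : M | z ≤ y ∧ y ≤ z} = {z | S.RelMap r ![y, z] ∧ S.RelMap r ![z, y]} := by
    ext z
    exact and_comm
  rwa [e] at h'

/-- the main theorem for classes of structures on the natural numbers -/
theorem main_sparseLab [∀ n, IsEmpty (L.Functions n)] [∀ n, Countable (L.Relations n)]
    (hL : Ar2 L) (K : Set (L.Structure ℕ)) (hK : MeasurableSet {c : Code L | toStr c ∈ K})
    (d : Ordinal.{0}) (hd : d < om1) (hcl : ClosedLev K d) (r : L.Relations 2)
    (hsp : ∀ S ∈ K, SparseLab r S) (hP : ¬ PerfK K) : CtblK K := by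
  by_contra hC
  have hS := scat_of_not_perf hK hP
  obtain ⟨M, S, hlev, hNT⟩ := exists_model hK hS hd hcl hC
  have hV : VSt K (max d om2) S :=
    ⟨hK, hS, max_lt hd om2_lt, le_max_right _ _, ClosedLev.mono' hcl (le_max_left _ _), hlev⟩
  exact not_noCtblType (tame_of_sparseLab hL hV r hsp) hNT

/-- **The main dichotomy.** -/
theorem dichotomy_of_sparseLab (hc : Countable L.Symbols) (hrel : ∀ n, IsEmpty (L.Functions n))
    (hL : ∀ n, n ≠ 1 → n ≠ 2 → IsEmpty (L.Relations n)) (T : L.Theory) (φ : FmI L 0)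
    (r : L.Relations 2) (h : ∀ S : L.Structure ℕ, IsMod T φ S → SparseLab r S) :
    (∃ g : ℕ → L.Structure ℕ, ∀ S : L.Structure ℕ, IsMod T φ S →
        ∃ n : ℕ, Nonempty (@FirstOrder.Language.Equiv L ℕ ℕ S (g n))) ∨
    (∃ f : (ℕ → Bool) → L.Structure ℕ, (∀ x : ℕ → Bool, IsMod T φ (f x)) ∧
        (∀ x y : ℕ → Bool,
            Nonempty (@FirstOrder.Language.Equiv L ℕ ℕ (f x) (f y)) → x = y) ∧
        (∀ (n : ℕ) (R : L.Relations n) (a : Fin n → ℕ),
            IsClopen {x : ℕ → Bool | @FirstOrder.Language.Structure.RelMap L ℕ (f x) n R a})) := by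
  have hcr : ∀ n, Countable (L.Relations n) := countable_relations hc
  let K : Set (L.Structure ℕ) := {S | IsMod T φ S}
  obtain ⟨hK, d, hd, hcl⟩ := exists_level hc T φ (K := K) fun S => Iff.rfl
  by_cases hP : PerfK K
  · obtain ⟨f, hf1, hf2, hf3⟩ := hP
    exact Or.inr ⟨f, hf1, fun x y h => hf2 x y ((nonempty_equiv_iff _ _).mp h), hf3⟩
  · obtain ⟨g, hg⟩ := main_sparseLab hL K hK d hd hcl r (fun S hS => h S hS) hP
    refine Or.inl ⟨g, fun S h1 => ?_⟩
    obtain ⟨n, hn⟩ := hg S h1
    exact ⟨n, (nonempty_equiv_iff S (g n)).mpr hn⟩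

end Pool.Agent.Helper97.LO
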