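import Pool.Agent.Helper97.VCM.Fin

/-!
# Labelled ordered sums of sparse structures: definitions for the final theorem
-/

set_option autoImplicit false
set_option linter.unusedSectionVars false
set_option linter.unusedVariables false

namespace Pool.Agent.Helper97.LO

open Set Pool.Agent.Helper5.DU Pool.Agent.Helper6.Str Pool.Agent.Helper79.VC
  Pool.Agent.Helper97.VC Pool.Agent.Helper97.MD

variable {L : FirstOrder.Language.{0, 0}} {M : Type}

/-- **Labelled ordered sums.** The binary symbol `r` is a total preorder; the pairs `a ≤ b` carry
labels in a monoid, which are equal to `1` inside the classes of the preorder, multiplicative and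
determined by the atomic type of the pair; the atomic type of a pair of elements of different
classes is determined by their order, their label and their unary types. -/
structure LabSum (r : L.Relations 2) (S : L.Structure M) {G : Type} [Monoid G]
    (lab : M → M → G) : Prop where
  total : ∀ a b : M, S.RelMap r ![a, b] ∨ S.RelMap r ![b, a]
  trans : ∀ a b c : M, S.RelMap r ![a, b] → S.RelMap r ![b, c] → S.RelMap r ![a, c]
  one : ∀ a b : M, S.RelMap r ![a, b] → S.RelMap r ![b, a] → lab a b = 1
  mul : ∀ a b c : M, S.RelMap r ![a, b] → S.RelMap r ![b, c] → lab a c = lab a b * lab b c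
  inv : ∀ a b a' b' : M, S.RelMap r ![a, b] → AtEq S S {(a, a'), (b, b')} →
    lab a b = lab a' b'
  cross : ∀ a b a' b' : M, S.RelMap r ![a, b] → ¬ S.RelMap r ![b, a] → S.RelMap r ![a', b'] →
    ¬ S.RelMap r ![b', a'] → lab a b = lab a' b' → AtEq S S {(a, a')} → AtEq S S {(b, b')} →
    AtEq S S {(a, a'), (b, b')}

/-- every element of the monoid has only finitely many factors -/
def FinFac (G : Type) [Monoid G] : Prop := ∀ s : G, {t : G | ∃ u v : G, s = u * t * v}.Finite

/-- the classes of the preorder `r` are sparse up to a background type -/
def SparseParts (r : L.Relations 2) (S : L.Structure M) : Prop :=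
  ∀ x : M, ∃ b : Set (L.Relations 2),
    ¬ HasTK (gr S {z | S.RelMap r ![x, z] ∧ S.RelMap r ![z, x]} b)

/-- **Labelled ordered sums of sparse structures**, with labels in a monoid in which every element
has only finitely many factors. -/
def SparseLab (r : L.Relations 2) (S : L.Structure M) : Prop :=
  SparseParts r S ∧ ∃ (G : Type) (_ : Monoid G) (lab : M → M → G), FinFac G ∧ LabSum r S lab

end Pool.Agent.Helper97.LO
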