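import Pool.Agent.T2.FinDefs

/-!
# Reflection of labelled ordered sums of sparse structures
-/

set_option autoImplicit false
set_option linter.unusedSectionVars false
set_option linter.unusedVariables false

namespace Pool.Agent.Helper97.LO

open Set Pool.Agent.Helper5.DU Pool.Agent.Helper6.Str Pool.Agent.Helper79.VC
  Pool.Agent.Helper97.VC Pool.Agent.Helper97.MD Pool.Agent.Helper79.VCM

variable {L : FirstOrder.Language.{0, 0}} {M N P : Type}

variable [∀ n, IsEmpty (L.Functions n)] [∀ n, Countable (L.Relations n)]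
  {K : Set (L.Structure ℕ)} {δ : Ordinal.{0}} {S : L.Structure M}

/-- a countable set containing copies of all atomic types of triples -/
theorem exists_triples (hS : VSt K δ S) : ∃ W : Set M, W.Countable ∧ ∀ a b c : M, ∃ a' ∈ W,
    ∃ b' ∈ W, ∃ c' ∈ W, AtEq S S {(a, a'), (b, b'), (c, c')} := by
  classical
  obtain ⟨κ, hκ⟩ := hS.code (γ := 0) (Ordinal.omega_pos 1) 3
  have hrep : ∀ m : ℕ, ∃ T : Set M, T.Countable ∧ ((∃ v, κ v = m) →
      ∃ v, κ v = m ∧ ∀ i, v i ∈ T) := by
    intro m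
    by_cases h : ∃ v, κ v = m
    · obtain ⟨v, hv⟩ := h
      exact ⟨range v, (finite_range v).countable, fun _ => ⟨v, hv, fun i => mem_range_self i⟩⟩
    · exact ⟨∅, countable_empty, fun h' => absurd h' h⟩
  choose T hT1 hT2 using hrep
  refine ⟨⋃ m, T m, countable_iUnion hT1, fun a b c => ?_⟩
  obtain ⟨v, hv1, hv2⟩ := hT2 (κ ![a, b, c]) ⟨_, rfl⟩
  have h1 := (hκ ![a, b, c] v hv1.symm).atEq
  refine ⟨v 0, mem_iUnion.mpr ⟨_, hv2 0⟩, v 1, mem_iUnion.mpr ⟨_, hv2 1⟩, v 2,
    mem_iUnion.mpr ⟨_, hv2 2⟩, AtEq.anti ?_ h1⟩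
  rintro _ (rfl | rfl | rfl)
  · exact ⟨0, rfl⟩
  · exact ⟨1, rfl⟩
  · exact ⟨2, rfl⟩

/-- the labelling is reflected from the class to the large structure -/
theorem labSum_reflect (hS : VSt K δ S) (r : L.Relations 2)
    (h : ∀ T ∈ K, ∃ (G : Type) (_ : Monoid G) (lab : ℕ → ℕ → G), FinFac G ∧ LabSum r T lab) :
    ∃ (G : Type) (_ : Monoid G) (lab : M → M → G), FinFac G ∧ LabSum r S lab := by
  classical
  obtain ⟨W, hWc, hW⟩ := exists_triples hS
  obtain ⟨f, hf, hfK, hfW⟩ := exists_reflect hS.scat hS.lt hS.clos hS.lev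
    (fun _ => W) (fun _ => hWc)
  have hWf : W ⊆ range f := hfW ∅ (by simp)
  obtain ⟨G, hG, lab, hfin, hL⟩ := h _ hfK
  -- copies of triples
  have hcopy : ∀ a b c : M, ∃ i j k : ℕ, AtEq S S {(a, f i), (b, f j), (c, f k)} := by
    intro a b c
    obtain ⟨a', ha', b', hb', c', hc', h1⟩ := hW a b c
    obtain ⟨i, rfl⟩ := hWf ha'
    obtain ⟨j, rfl⟩ := hWf hb'
    obtain ⟨k, rfl⟩ := hWf hc'
    exact ⟨i, j, k, h1⟩
  have hpl : ∀ p : Set (ℕ × ℕ), AtEq (pl S f) (pl S f) p ↔
      AtEq S S ((fun a => (f a.1, f a.2)) '' p) := fun p => TR.atEq_pl hf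
  have hrel : ∀ i j : ℕ, (pl S f).RelMap r ![i, j] ↔ S.RelMap r ![f i, f j] := by
    intro i j
    have e : (fun k => f ((![i, j] : Fin 2 → ℕ) k)) = ![f i, f j] := by
      funext k
      fin_cases k <;> rfl
    show S.RelMap r (fun k => f ((![i, j] : Fin 2 → ℕ) k)) ↔ _
    rw [e]
  -- the labels
  let lb : M → M → G := fun x y => if h : ∃ ij : ℕ × ℕ, AtEq S S {(x, f ij.1), (y, f ij.2)} then
    lab h.choose.1 h.choose.2 else 1
  have hlb : ∀ x y i j, S.RelMap r ![x, y] → AtEq S S {(x, f i), (y, f j)} →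
      lb x y = lab i j := by
    intro x y i j hxy hij
    have hex : ∃ ij : ℕ × ℕ, AtEq S S {(x, f ij.1), (y, f ij.2)} := ⟨(i, j), hij⟩
    have h1 : lb x y = lab hex.choose.1 hex.choose.2 := dif_pos hex
    rw [h1]
    have h2 := hex.choose_spec
    refine hL.inv _ _ _ _ ?_ ?_
    · rw [hrel]
      exact (rel_of_atEq h2 (a := x) (b := y) (by simp) (by simp)).mp hxy
    · rw [hpl]
      refine VI.atEq_trans (VI.atEq_symm h2 (q := {(f hex.choose.1, x), (f hex.choose.2, y)}) ?_)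
        hij ?_
      · rintro _ (rfl | rfl)
        · exact Or.inl rfl
        · exact Or.inr rfl
      · rintro _ ⟨a, (rfl | rfl), rfl⟩
        · exact ⟨x, Or.inl rfl, Or.inl rfl⟩
        · exact ⟨y, Or.inr rfl, Or.inr rfl⟩
  refine ⟨G, hG, lb, hfin, ⟨fun a b => ?_, fun a b c hab hbc => ?_, fun a b hab hba => ?_,
    fun a b c hab hbc => ?_, fun a b a' b' hab hp => ?_,
    fun a b a' b' h1 h2 h1' h2' he ha hb => ?_⟩⟩
  · obtain ⟨i, j, k, hc⟩ := hcopy a b b
    rcases hL.total i j with h1 | h1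
    · rw [hrel] at h1
      exact Or.inl ((rel_of_atEq hc (a := a) (b := b) (by simp) (by simp)).mpr h1)
    · rw [hrel] at h1
      exact Or.inr ((rel_of_atEq hc (a := b) (b := a) (by simp) (by simp)).mpr h1)
  · obtain ⟨i, j, k, hc⟩ := hcopy a b c
    refine (rel_of_atEq hc (a := a) (b := c) (a' := f i) (b' := f k) (by simp) (by simp)).mpr ?_
    rw [← hrel]
    refine hL.trans i j k ?_ ?_
    · rw [hrel]
      exact (rel_of_atEq hc (a := a) (b := b) (by simp) (by simp)).mp hab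
    · rw [hrel]
      exact (rel_of_atEq hc (a := b) (b := c) (by simp) (by simp)).mp hbc
  · obtain ⟨i, j, k, hc⟩ := hcopy a b b
    rw [hlb a b i j hab (AtEq.anti (by rintro _ (rfl | rfl) <;> simp) hc)]
    refine hL.one i j ?_ ?_
    · rw [hrel]
      exact (rel_of_atEq hc (a := a) (b := b) (by simp) (by simp)).mp hab
    · rw [hrel]
      exact (rel_of_atEq hc (a := b) (b := a) (by simp) (by simp)).mp hba
  · obtain ⟨i, j, k, hc⟩ := hcopy a b c
    have h1 : (pl S f).RelMap r ![i, j] := by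
      rw [hrel]
      exact (rel_of_atEq hc (a := a) (b := b) (by simp) (by simp)).mp hab
    have h2 : (pl S f).RelMap r ![j, k] := by
      rw [hrel]
      exact (rel_of_atEq hc (a := b) (b := c) (by simp) (by simp)).mp hbc
    have h3 : S.RelMap r ![a, c] := by
      refine (rel_of_atEq hc (a := a) (b := c) (a' := f i) (b' := f k) (by simp) (by simp)).mpr ?_
      rw [← hrel]
      exact hL.trans i j k h1 h2
    rw [hlb a b i j hab (AtEq.anti (by rintro _ (rfl | rfl) <;> simp) hc),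
      hlb b c j k hbc (AtEq.anti (by rintro _ (rfl | rfl) <;> simp) hc),
      hlb a c i k h3 (AtEq.anti (by rintro _ (rfl | rfl) <;> simp) hc)]
    exact hL.mul i j k h1 h2
  · obtain ⟨i, j, k, hc⟩ := hcopy a' b' b'
    have h1 : S.RelMap r ![a', b'] :=
      (rel_of_atEq hp (a := a) (b := b) (by simp) (by simp)).mp hab
    have h2 : AtEq S S {(a', f i), (b', f j)} :=
      AtEq.anti (by rintro _ (rfl | rfl) <;> simp) hc
    rw [hlb a' b' i j h1 h2]
    refine hlb a b i j hab (VI.atEq_trans hp h2 ?_)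
    rintro _ (rfl | rfl)
    · exact ⟨a', Or.inl rfl, Or.inl rfl⟩
    · exact ⟨b', Or.inr rfl, Or.inr rfl⟩
  · obtain ⟨i, j, k, hc⟩ := hcopy a b b
    obtain ⟨i', j', k', hc'⟩ := hcopy a' b' b'
    have e1 : AtEq S S {(a, f i), (b, f j)} :=
      AtEq.anti (by rintro _ (rfl | rfl) <;> simp) hc
    have e2 : AtEq S S {(a', f i'), (b', f j')} :=
      AtEq.anti (by rintro _ (rfl | rfl) <;> simp) hc'
    have e1' : AtEq S S {(f i, a), (f j, b)} := VI.atEq_symm e1 (by
      rintro _ (rfl | rfl)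
      · exact Or.inl rfl
      · exact Or.inr rfl)
    have e2' : AtEq S S {(f i', a'), (f j', b')} := VI.atEq_symm e2 (by
      rintro _ (rfl | rfl)
      · exact Or.inl rfl
      · exact Or.inr rfl)
    have ha' : AtEq S S {(f i, f i')} := by
      refine VI.atEq_trans (AtEq.anti (Γ := {(f i, a)}) (by rintro _ rfl; simp) e1')
        (VI.atEq_trans ha (AtEq.anti (Γ := {(a', f i')}) (by rintro _ rfl; simp) e2)
          (r := {(a, f i')}) ?_) ?_
      · rintro _ rfl
        exact ⟨a', rfl, rfl⟩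
      · rintro _ rfl
        exact ⟨a, rfl, rfl⟩
    have hb' : AtEq S S {(f j, f j')} := by
      refine VI.atEq_trans (AtEq.anti (Γ := {(f j, b)}) (by rintro _ rfl; simp) e1')
        (VI.atEq_trans hb (AtEq.anti (Γ := {(b', f j')}) (by rintro _ rfl; simp) e2)
          (r := {(b, f j')}) ?_) ?_
      · rintro _ rfl
        exact ⟨b', rfl, rfl⟩
      · rintro _ rfl
        exact ⟨b, rfl, rfl⟩
    have hcr := hL.cross i j i' j' (by
        rw [hrel]
        exact (rel_of_atEq hc (a := a) (b := b) (by simp) (by simp)).mp h1) (by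
        rw [hrel]
        exact fun h' => h2 ((rel_of_atEq hc (a := b) (b := a) (by simp) (by simp)).mpr h')) (by
        rw [hrel]
        exact (rel_of_atEq hc' (a := a') (b := b') (by simp) (by simp)).mp h1') (by
        rw [hrel]
        exact fun h' => h2' ((rel_of_atEq hc' (a := b') (b := a') (by simp) (by simp)).mpr h')) (by
        rw [← hlb a b i j h1 e1, ← hlb a' b' i' j' h1' e2]
        exact he) (by
        rw [hpl]
        refine AtEq.anti ?_ ha'
        rintro _ ⟨c, rfl, rfl⟩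
        rfl) (by
        rw [hpl]
        refine AtEq.anti ?_ hb'
        rintro _ ⟨c, rfl, rfl⟩
        rfl)
    rw [hpl] at hcr
    refine VI.atEq_trans e1 (VI.atEq_trans hcr e2' (r := {(f i, a'), (f j, b')}) ?_) ?_
    · rintro _ (rfl | rfl)
      · exact ⟨f i', ⟨(i, i'), Or.inl rfl, rfl⟩, Or.inl rfl⟩
      · exact ⟨f j', ⟨(j, j'), Or.inr rfl, rfl⟩, Or.inr rfl⟩
    · rintro _ (rfl | rfl)
      · exact ⟨f i, Or.inl rfl, Or.inl rfl⟩
      · exact ⟨f j, Or.inr rfl, Or.inr rfl⟩

end Pool.Agent.Helper97.LO
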