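import Pool.Agent.T2.Nbs1

/-!
# The coarse structure: intervals, parts, smallness
-/

set_option autoImplicit false
set_option linter.unusedSectionVars false
set_option linter.unusedVariables false

namespace Pool.Agent.Helper97.LO

open Set Pool.Agent.Helper5.DU Pool.Agent.Helper6.Str Pool.Agent.Helper79.VC
  Pool.Agent.Helper97.VC Pool.Agent.Helper97.MD

variable {L : FirstOrder.Language.{0, 0}} {M N P : Type}

section

variable {G : Type} [Monoid G] [Preorder M] {D : Set M} {lab : M → M → G} {J : Set G} {u₀ : M}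

/-- chains in a smaller set -/
theorem Rch_subset {D' : Set M} (hD : D' ⊆ D) {b : M} {n : ℕ} :
    Rch D' u₀ lab J b n ⊆ Rch D u₀ lab J b n := by
  induction n with
  | zero =>
    rintro z ⟨h1, h2, h3⟩
    exact ⟨hD h1, h2, h3⟩
  | succ n ih =>
    rintro z ⟨h1, h2, c, hc, h3⟩
    exact ⟨hD h1, h2, c, ih hc, h3⟩

end

section

variable [∀ n, IsEmpty (L.Functions n)] {S : L.Structure M}
  {G : Type} [Monoid G] [Preorder M] {r : L.Relations 2} {o : Bool} {lab : M → M → G}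
  {D : Set M} {J : Set G} {u₀ : M}

/-- atomic equivalence respects far pairs -/
theorem LSt.far_congr (hO : LSt r o lab S) {p : Set (M × M)} (h : AtEq S S p) {a b : M × M}
    (ha : a ∈ p) (hb : b ∈ p) (hf : Far lab J a.1 b.1) : Far lab J a.2 b.2 := by
  refine ⟨(hO.le_congr h ha hb).1 hf.1, ?_⟩
  have h1 := hO.inv a.1 b.1 a.2 b.2 hf.1 (AtEq.anti (by
    rintro c (rfl | rfl)
    · exact ha
    · exact hb) h)
  rw [← h1]
  exact hf.2

theorem LSt.far_congr' (hO : LSt r o lab S) {p : Set (M × M)} (h : AtEq S S p) {a b : M × M}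
    (ha : a ∈ p) (hb : b ∈ p) : Far lab J a.1 b.1 ↔ Far lab J a.2 b.2 := by
  refine ⟨hO.far_congr h ha hb, fun hf => ?_⟩
  have hle : a.1 ≤ b.1 := (hO.le_congr h ha hb).2 hf.1
  refine ⟨hle, ?_⟩
  have h1 := hO.inv a.1 b.1 a.2 b.2 hle (AtEq.anti (by
    rintro c (rfl | rfl)
    · exact ha
    · exact hb) h)
  rw [h1]
  exact hf.2

/-- chains are respected by the equivalence of finite level -/
theorem LSt.rch_congr (hO : LSt r o lab S) {X : Set M} (hXD : ∀ z, z ∈ X ↔ z ∈ D ∧ u₀ ≤ z)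
    (n : ℕ) : ∀ {p : Set (M × M)}, BFR S S X X (n : Ordinal.{0}) p → ∀ {b b' z z' : M},
      (b, b') ∈ p → (z, z') ∈ p → z' ∈ X → z ∈ Rch D u₀ lab J b n →
      z' ∈ Rch D u₀ lab J b' n := by
  induction n with
  | zero =>
    intro p h b b' z z' hb hz hzX hR
    have h1 := (hXD z').1 hzX
    exact ⟨h1.1, h1.2, (hO.le_congr h.atEq hz hb).1 hR.2.2⟩
  | succ n ih =>
    intro p h b b' z z' hb hz hzX hR
    obtain ⟨h1, h2, c, hc, h3⟩ := hR
    have hcX : c ∈ X := (hXD c).2 (Rch_mem hc)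
    obtain ⟨c', hc'X, h4⟩ := h.forth (β := (n : Ordinal.{0})) (by
      exact_mod_cast Nat.lt_succ_self n) hcX
    have hc' := ih h4 (b := b) (b' := b') (z := c) (z' := c') (mem_insert_of_mem _ hb)
      (mem_insert _ _) hc'X hc
    have h5 := (hXD z').1 hzX
    refine ⟨h5.1, h5.2, c', hc', ?_⟩
    rcases h3 with h3 | h3
    · exact Or.inl ((hO.le_congr h4.atEq (a := (z, z')) (b := (c, c'))
        (mem_insert_of_mem _ hz) (mem_insert _ _)).1 h3)
    · exact Or.inr fun h6 => h3 ((hO.far_congr' h4.atEq (a := (c, c')) (b := (z, z'))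
        (mem_insert _ _) (mem_insert_of_mem _ hz)).2 h6)

/-- substructures of expansions -/
theorem pl_exS {C : Type} (S : L.Structure M) (dat : M → C) (rel : M → M → Prop) (e : N → M) :
    pl (exS S dat rel) e = exS (pl S e) (fun z => dat (e z)) fun a b => rel (e a) (e b) := by
  refine FirstOrder.Language.Structure.ext ?_ ?_
  · funext n f
    exact isEmptyElim f
  · funext n R v
    refine propext ?_
    rcases R with R | c
    · exact Iff.rfl
    · match n, c, v with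
      | 0, c, _ => exact Empty.elim c
      | 1, c, v => exact Iff.rfl
      | 2, _, v => exact Iff.rfl
      | (n + 3), c, _ => exact Empty.elim c

variable [∀ n, Countable (L.Relations n)]

/-- closed intervals are tame in the coarse structure -/
theorem nbS_icc [Finite G] (hL : Ar2 L) (hO : LSt r o lab S) (hB : IsBse D lab J u₀)
    (hini : ∀ y ∈ D, ∀ z, u₀ ≤ z → z ≤ y → z ∈ D) {v : M} (hv : v ∈ D) (h0 : u₀ ≤ v)
    (ht : TameX S (Icc u₀ v)) : TameX (nbS S D u₀ lab J) {z | z.1 ≤ v} := by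
  classical
  have h1 : TameX (exS S (fun z => (lab u₀ z, rho D lab J z)) fun a b => cle D u₀ lab J a b)
      (Icc u₀ v) := by
    refine ht.expand {u₀, v} ?_ (η := Ordinal.omega0) omega_lt_om1 ?_
    · intro a ha
      rw [Finset.coe_insert, Finset.coe_singleton] at ha
      rcases ha with rfl | rfl
      · exact ⟨le_rfl, h0⟩
      · exact ⟨h0, le_rfl⟩
    · intro p hp hpX hF h
      have hu : (u₀, u₀) ∈ p := hF ⟨u₀, by simp, rfl⟩
      have hvp : (v, v) ∈ p := hF ⟨v, by simp, rfl⟩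
      have hD : ∀ z ∈ Icc u₀ v, z ∈ D := fun z hz => hini v hv z hz.1 hz.2
      have hinv : ∀ a ∈ p, ∀ b ∈ p, a.1 ≤ b.1 → lab a.1 b.1 = lab a.2 b.2 := by
        intro a ha b hb hab
        refine hO.inv a.1 b.1 a.2 b.2 hab (AtEq.anti ?_ h.atEq)
        rintro c (rfl | rfl)
        · exact ha
        · exact hb
      refine atEq_exS.2 ⟨h.atEq, fun a ha => ?_, fun a ha b hb => ?_⟩
      · have e1 : lab u₀ a.1 = lab u₀ a.2 := hinv _ hu a ha (hpX a ha).1.1
        have e2 : lab a.1 v = lab a.2 v := hinv a ha _ hvp (hpX a ha).1.2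
        have e3 : rho D lab J a.1 = rho D lab J a.2 := by
          rw [rho_mul hB (hD _ (hpX a ha).1) (hpX a ha).1.1 hv (hpX a ha).1.2,
            rho_mul hB (hD _ (hpX a ha).2) (hpX a ha).2.1 hv (hpX a ha).2.2, e2]
        rw [e1, e3]
      · -- chains
        have hXD : ∀ z, z ∈ Icc u₀ v ↔ z ∈ {w | w ∈ D ∧ w ≤ v} ∧ u₀ ≤ z := by
          intro z
          constructor
          · exact fun hz => ⟨⟨hD z hz, hz.2⟩, hz.1⟩
          · exact fun hz => ⟨hz.2, hz.1.2⟩
        have hnle : ∀ n : ℕ, BFR S S (Icc u₀ v) (Icc u₀ v) (n : Ordinal.{0}) p := fun n =>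
          h.mono (Ordinal.natCast_lt_omega0 n).le
        constructor
        · rintro ⟨n, hn⟩
          have h2 := Rch_inside hB hn (hpX b hb).1.2 (hpX a ha).1.2
          have h3 := hO.rch_congr hXD n (hnle n) (b := b.1) (b' := b.2) (z := a.1) (z' := a.2)
            hb ha (hpX a ha).2 h2
          exact ⟨n, Rch_subset (fun w hw => hw.1) h3⟩
        · rintro ⟨n, hn⟩
          have h2 := Rch_inside hB hn (hpX b hb).2.2 (hpX a ha).2.2
          have h3 := hO.rch_congr hXD n (p := {x | (x.2, x.1) ∈ p})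
            ((hnle n).symm fun x hx => hx) (b := b.2) (b' := b.1) (z := a.2) (z' := a.1)
            hb ha (hpX a ha).1 h2
          exact ⟨n, Rch_subset (fun w hw => hw.1) h3⟩
  have h2 : (Subtype.val : Dge D u₀ → M) '' {z | z.1 ≤ v} = Icc u₀ v := by
    ext z
    constructor
    · rintro ⟨z, hz, rfl⟩
      exact ⟨z.2.2, hz⟩
    · intro hz
      exact ⟨⟨z, hini v hv z hz.1 hz.2, hz.1⟩, hz.2, rfl⟩
  have h3 : TameX (pl (exS S (fun z => (lab u₀ z, rho D lab J z)) fun a b => cle D u₀ lab J a b)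
      (Subtype.val : Dge D u₀ → M)) {z | z.1 ≤ v} :=
    (tameX_pl Subtype.val_injective).2 (by rwa [h2])
  rw [pl_exS] at h3
  exact h3

/-- the coarse parts are tame -/
theorem nbS_part [Finite G] (hL : Ar2 L) (hO : LSt r o lab S) (hB : IsBse D lab J u₀)
    (hini : ∀ y ∈ D, ∀ z, u₀ ≤ z → z ≤ y → z ∈ D) (ht : ∀ v ∈ D, TameX S (Icc u₀ v))
    (hnc : ∀ C : Set M, C.Countable → C ⊆ D → ∃ v ∈ D, ∀ c ∈ C, c < v) (y : Dge D u₀) :
    TameX (nbS S D u₀ lab J) {z | cle D u₀ lab J z.1 y.1 ∧ cle D u₀ lab J y.1 z.1} := by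
  classical
  obtain ⟨v, hv, hyv, hbd⟩ := cle_bounded hB hnc y.2.1 y.2.2
  have h1 := nbS_icc hL hO hB hini hv (y.2.2.trans hyv) (ht v hv)
  refine h1.sub {y} ?_ (fun z hz => hbd z.1 hz.1) (κ := 0) (Ordinal.omega_pos 1) ?_
  · intro a ha
    rw [Finset.coe_singleton] at ha
    rw [ha]
    exact hyv
  · intro c hc c' hc' hb
    have hm : (y, y) ∈ (insert (c, c') (dg (({y} : Finset (Dge D u₀)) : Set (Dge D u₀))) :
        Set (Dge D u₀ × Dge D u₀)) := Or.inr ⟨y, by simp, rfl⟩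
    have h2 := (atEq_exS.1 hb.atEq).2.2
    have h3 := h2 (c, c') (mem_insert _ _) (y, y) hm
    have h4 := h2 (y, y) hm (c, c') (mem_insert _ _)
    exact and_congr h3 h4

/-- smallness of the coarse structure -/
theorem nbS_small [Finite G] (hL : Ar2 L) (hO : LSt r o lab S) (hB : IsBse D lab J u₀)
    (h : Small S D) : Small (nbS S D u₀ lab J) univ := by
  classical
  intro γ hγ F _
  obtain ⟨κ, hκ⟩ := h (Ordinal.omega0 + γ) (add_lt_om1 omega_lt_om1 hγ)
    (insert u₀ (F.image Subtype.val)) (by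
      intro a ha
      rw [Finset.coe_insert, Finset.coe_image] at ha
      rcases ha with rfl | ⟨b, _, rfl⟩
      · exact hB.mem
      · exact b.2.1)
  refine ⟨fun z => κ z.1, fun c _ c' _ hcc => ?_⟩
  have h1 := hκ c.1 c.2.1 c'.1 c'.2.1 hcc
  set q : Set (M × M) :=
    insert (c.1, c'.1) (dg ((insert u₀ (F.image Subtype.val) : Finset M) : Set M)) with hq
  have hu : (u₀, u₀) ∈ q := Or.inr ⟨u₀, by simp, rfl⟩
  have hFq : ∀ x ∈ F, (x.1, x.1) ∈ q := fun x hx => Or.inr ⟨x.1, by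
    rw [Finset.coe_insert, Finset.coe_image]
    exact Or.inr ⟨x, hx, rfl⟩, rfl⟩
  have h2 : BFR S S {z | z ∈ D ∧ u₀ ≤ z} {z | z ∈ D ∧ u₀ ≤ z} (Ordinal.omega0 + γ) q := by
    refine BFR.restr₀ (fun z hz => hz.1) (fun z hz => hz.1) (fun x hx y hy h' => ?_) h1
    have := hO.le_congr h' (a := (u₀, u₀)) (b := (x, y)) (mem_insert_of_mem _ hu)
      (mem_insert _ _)
    exact ⟨fun hh => ⟨hy, this.1 hh.2⟩, fun hh => ⟨hx, this.2 hh.2⟩⟩
  have e1 : (Subtype.val : Dge D u₀ → M) '' univ = {z | z ∈ D ∧ u₀ ≤ z} := by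
    ext z
    constructor
    · rintro ⟨z, _, rfl⟩
      exact z.2
    · intro hz
      exact ⟨⟨z, hz⟩, mem_univ _, rfl⟩
  set p : Set (Dge D u₀ × Dge D u₀) := insert (c, c') (insert (bpt hB, bpt hB) (dg (F : Set _)))
    with hp
  have hpq : ∀ a ∈ p, (a.1.1, a.2.1) ∈ q := by
    rintro a (rfl | rfl | ⟨x, hx, rfl⟩)
    · exact mem_insert _ _
    · exact hu
    · exact hFq x hx
  have h3 : BFR (pl S (Subtype.val : Dge D u₀ → M)) (pl S (Subtype.val : Dge D u₀ → M)) univ
      univ (Ordinal.omega0 + γ) p := by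
    have h4 := BFR_pl_piece (S := S) (e := (Subtype.val : Dge D u₀ → M))
      Subtype.val_injective univ (Ordinal.omega0 + γ)
    rw [e1] at h4
    have h5 : BFR (pl S (Subtype.val : Dge D u₀ → M)) S univ {z | z ∈ D ∧ u₀ ≤ z}
        (Ordinal.omega0 + γ) {a | (a.1.1, a.2) ∈ q} :=
      h4.trans h2 fun a ha => ⟨a.1.1, ⟨mem_univ _, rfl⟩, ha⟩
    have h6 : BFR S (pl S (Subtype.val : Dge D u₀ → M)) {z | z ∈ D ∧ u₀ ≤ z} univ
        (Ordinal.omega0 + γ) {a | a.1 = a.2.1} := h4.symm fun a ha => ⟨mem_univ _, ha⟩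
    exact h5.trans h6 fun a ha => ⟨a.2.1, hpq a ha, rfl⟩
  have hfin : p.Finite := ((F.finite_toSet.image _).insert _).insert _
  have h7 := BFR.expand (S' := nbS S D u₀ lab J) (T' := nbS S D u₀ lab J)
    (q := {(bpt hB, bpt hB)}) (fun p' hp' hq' hb => nbS_def hL hO hB p' hp' (by
      rw [insert_eq_of_mem (hq' rfl)]
      exact hb)) γ hfin (by
      rintro a rfl
      exact Or.inr (Or.inl rfl)) h3
  refine BFR.anti ?_ h7
  exact insert_subset_insert (subset_insert _ _)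

end

end Pool.Agent.Helper97.LO
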