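import Pool.Agent.Helper6.T2.Defs
import Pool.Agent.Helper52.VCM.VI

/-!
# T2, module PLUG: transfer to pieces which are definable in the plugged structures only
-/

set_option autoImplicit false
set_option linter.unusedSectionVars false
set_option linter.unusedVariables false

namespace Pool.Agent.Helper97.LO

open Set Pool.Agent.Helper5.DU Pool.Agent.Helper6.Str Pool.Agent.Helper79.VC
  Pool.Agent.Helper97.VC Pool.Agent.Helper97.MD

variable {L L' : FirstOrder.Language.{0, 0}} {M M' N P : Type}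

namespace PLG

/-- equivalences are preserved by passing to structures with weaker atomic facts -/
theorem bfr_of_atEq {S₁ : L.Structure M} {S₂ : L.Structure N} {T₁ : L'.Structure M}
    {T₂ : L'.Structure N} (H : ∀ p : Set (M × N), AtEq S₁ S₂ p → AtEq T₁ T₂ p) {U : Set M}
    {V : Set N} (γ : Ordinal.{0}) : ∀ {p : Set (M × N)}, BFR S₁ S₂ U V γ p →
      BFR T₁ T₂ U V γ p := by
  induction γ using WellFoundedLT.induction with
  | _ γ ih =>
    intro p h
    rw [BFR.def]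
    refine ⟨H p h.atEq, fun β hβ => ⟨fun x hx => ?_, fun y hy => ?_⟩⟩
    · obtain ⟨y, hy, h1⟩ := h.forth hβ hx
      exact ⟨y, hy, ih β hβ h1⟩
    · obtain ⟨x, hx, h1⟩ := h.back hβ hy
      exact ⟨x, hx, ih β hβ h1⟩

variable [∀ n, IsEmpty (L.Functions n)]

/-- the part of the extension given by the model -/
abbrev inn (S : L.Structure M) (S' : L'.Structure M') (e : M' → M) (B : Set M)
    (T : L'.Structure ℕ) : L.Structure ℕ :=
  pl (VI.ext S S' e B T) (Sum.inl : ℕ → ℕ ⊕ B)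

variable {S : L.Structure M} {S' : L'.Structure M'} {e : M' → M} {B : Set M}

theorem atEq_inn (he : Function.Injective e) (hB : ∀ b ∈ B, b ∉ range e)
    (H2 : ∀ p : Set (M' × M'), p.Finite → AtEq S' S' p → ∀ G : Set M, (∀ g ∈ G, g ∉ range e) →
      AtEq S S ((fun a => (e a.1, e a.2)) '' p ∪ dg G))
    {T : L'.Structure ℕ} {p : Set (ℕ × M')} (h : AtEq T S' p) :
    AtEq (inn S S' e B T) (pl S e) p := by
  have h1 := VI.atEq_ext he hB H2 h ∅
  refine ⟨h.1, fun n R v hv => ?_⟩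
  exact h1.2 n R (fun i => (Sum.inl (v i).1, e (v i).2)) fun i => Or.inl ⟨_, _, hv i, rfl⟩

/-- equivalences of the model with the substructure give equivalences of its plugged version -/
theorem bfr_inn (he : Function.Injective e) (hB : ∀ b ∈ B, b ∉ range e)
    (H2 : ∀ p : Set (M' × M'), p.Finite → AtEq S' S' p → ∀ G : Set M, (∀ g ∈ G, g ∉ range e) →
      AtEq S S ((fun a => (e a.1, e a.2)) '' p ∪ dg G))
    {T : L'.Structure ℕ} {γ : Ordinal.{0}} {p : Set (ℕ × M')} (h : BFR T S' univ univ γ p) :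
    BFR (inn S S' e B T) (pl S e) univ univ γ p :=
  bfr_of_atEq (fun q hq => atEq_inn he hB H2 hq) γ h

/-- pulling a finite set of numbers to the substructure -/
theorem pull [Nonempty M'] {T : L'.Structure ℕ} {t₀ : ℕ} {a₀ : M'} {η : Ordinal.{0}}
    (h : BFR T S' univ univ (η + Ordinal.omega0) {(t₀, a₀)}) {Q : Set ℕ} (hQ : Q.Finite) :
    ∃ w : ℕ → M', BFR T S' univ univ η (insert (t₀, a₀) ((fun s => (s, w s)) '' Q)) := by
  classical
  obtain ⟨Q, rfl⟩ := hQ.exists_finset_coe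
  have h1 : BFR T S' univ univ (η + ((Q.card : ℕ) : Ordinal.{0})) {(t₀, a₀)} := by
    refine h.mono ?_
    gcongr
    exact (Ordinal.natCast_lt_omega0 _).le
  obtain ⟨y, -, h2⟩ := BFR.forth_many _ h1 (fun i => ((Q.equivFin.symm i : Q) : ℕ))
    fun _ => mem_univ _
  let w : ℕ → M' := fun s => if hs : s ∈ Q then y (Q.equivFin ⟨s, hs⟩) else Classical.arbitrary M'
  refine ⟨w, BFR.anti ?_ h2⟩
  rintro a (rfl | ⟨s, hs, rfl⟩)
  · exact Or.inl rfl
  · right
    have hs' : s ∈ Q := hs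
    refine ⟨Q.equivFin ⟨s, hs'⟩, ?_⟩
    simp [w, hs']

/-- equivalences of the plugged versions restrict to the models -/
theorem down [Nonempty M'] (he : Function.Injective e) (hB : ∀ b ∈ B, b ∉ range e)
    (H2 : ∀ p : Set (M' × M'), p.Finite → AtEq S' S' p → ∀ G : Set M, (∀ g ∈ G, g ∉ range e) →
      AtEq S S ((fun a => (e a.1, e a.2)) '' p ∪ dg G))
    {a₀ : M'} {η : Ordinal.{0}}
    (H1 : ∀ p : Set (M' × M'), p.Finite →
      BFR (pl S e) (pl S e) univ univ η (insert (a₀, a₀) p) → AtEq S' S' p)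
    {T₁ T₂ : L'.Structure ℕ} {t₁ t₂ : ℕ}
    (h₁ : BFR T₁ S' univ univ (η + Ordinal.omega0) {(t₁, a₀)})
    (h₂ : BFR T₂ S' univ univ (η + Ordinal.omega0) {(t₂, a₀)}) (γ : Ordinal.{0}) :
    ∀ {p : Set (ℕ × ℕ)}, p.Finite →
      BFR (inn S S' e B T₁) (inn S S' e B T₂) univ univ (η + γ) (insert (t₁, t₂) p) →
      BFR T₁ T₂ univ univ γ p := by
  induction γ using WellFoundedLT.induction with
  | _ γ ih =>
    intro p hp h
    rw [BFR.def]
    refine ⟨?_, fun β hβ => ⟨fun x _ => ?_, fun y _ => ?_⟩⟩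
    · obtain ⟨w₁, hw₁⟩ := pull h₁ (hp.image Prod.fst)
      obtain ⟨w₂, hw₂⟩ := pull h₂ (hp.image Prod.snd)
      have h3 : BFR (pl S e) (inn S S' e B T₁) univ univ η
          (insert (a₀, t₁) ((fun s => (w₁ s, s)) '' (Prod.fst '' p))) := by
        refine (bfr_inn he hB H2 hw₁).symm ?_
        rintro a (rfl | ⟨s, hs, rfl⟩)
        · exact mem_insert _ _
        · exact mem_insert_of_mem _ ⟨s, hs, rfl⟩
      have h4 : BFR (pl S e) (inn S S' e B T₂) univ univ η
          (insert (a₀, t₂) ((fun a : ℕ × ℕ => (w₁ a.1, a.2)) '' p)) := by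
        refine h3.trans (h.mono le_self_add) ?_
        rintro a (rfl | ⟨b, hb, rfl⟩)
        · exact ⟨t₁, mem_insert _ _, mem_insert _ _⟩
        · exact ⟨b.1, mem_insert_of_mem _ ⟨b.1, ⟨b, hb, rfl⟩, rfl⟩, mem_insert_of_mem _ hb⟩
      have h5 := H1 ((fun a : ℕ × ℕ => (w₁ a.1, w₂ a.2)) '' p) (hp.image _) (by
        refine h4.trans (bfr_inn he hB H2 hw₂) ?_
        rintro a (rfl | ⟨b, hb, rfl⟩)
        · exact ⟨t₂, mem_insert _ _, mem_insert _ _⟩
        · exact ⟨b.2, mem_insert_of_mem _ ⟨b, hb, rfl⟩,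
            mem_insert_of_mem _ ⟨b.2, ⟨b, hb, rfl⟩, rfl⟩⟩)
      have h6 : AtEq T₁ S' ((fun a : ℕ × ℕ => (a.1, w₂ a.2)) '' p) := by
        refine VI.atEq_trans hw₁.atEq h5 ?_
        rintro _ ⟨b, hb, rfl⟩
        exact ⟨w₁ b.1, mem_insert_of_mem _ ⟨b.1, ⟨b, hb, rfl⟩, rfl⟩, ⟨b, hb, rfl⟩⟩
      refine VI.atEq_trans h6
        (VI.atEq_symm hw₂.atEq (q := (fun s => (w₂ s, s)) '' (Prod.snd '' p)) ?_) ?_
      · rintro _ ⟨s, hs, rfl⟩
        exact mem_insert_of_mem _ ⟨s, hs, rfl⟩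
      · intro b hb
        exact ⟨w₂ b.2, ⟨b, hb, rfl⟩, ⟨b.2, ⟨b, hb, rfl⟩, rfl⟩⟩
    · obtain ⟨y, -, hy⟩ := h.forth (add_lt_add_right hβ η) (mem_univ x)
      refine ⟨y, mem_univ _, ih β hβ (hp.insert _) (BFR.anti ?_ hy)⟩
      rintro a (rfl | rfl | ha)
      · exact mem_insert_of_mem _ (mem_insert _ _)
      · exact mem_insert _ _
      · exact mem_insert_of_mem _ (mem_insert_of_mem _ ha)
    · obtain ⟨x, -, hx⟩ := h.back (add_lt_add_right hβ η) (mem_univ y)
      refine ⟨x, mem_univ _, ih β hβ (hp.insert _) (BFR.anti ?_ hx)⟩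
      rintro a (rfl | rfl | ha)
      · exact mem_insert_of_mem _ (mem_insert _ _)
      · exact mem_insert _ _
      · exact mem_insert_of_mem _ (mem_insert_of_mem _ ha)

end PLG

open VI in
/-- **Plugging.** -/
theorem VSt.plug {L' : FirstOrder.Language.{0, 0}} [∀ n, IsEmpty (L.Functions n)]
    [∀ n, Countable (L.Relations n)] [∀ n, IsEmpty (L'.Functions n)]
    [∀ n, Countable (L'.Relations n)] {K : Set (L.Structure ℕ)} {δ : Ordinal.{0}}
    {S : L.Structure M} {M' : Type} {S' : L'.Structure M'} (hS : VSt K δ S) (e : M' → M)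
    (he : Function.Injective e) [Infinite M'] (hsm : Small S' univ)
    (H2 : ∀ p : Set (M' × M'), p.Finite → AtEq S' S' p → ∀ Q : Set M, (∀ g ∈ Q, g ∉ range e) →
      AtEq S S ((fun a => (e a.1, e a.2)) '' p ∪ dg Q))
    (a₀ : M') {η : Ordinal.{0}} (hη : η < om1)
    (H1 : ∀ p : Set (M' × M'), p.Finite →
      BFR (pl S e) (pl S e) univ univ η (insert (a₀, a₀) p) → AtEq S' S' p)
    (hcut : ∀ A : Set M, A.Countable → ∃ Λ < om1,
      ∃ Φ : (N : Type) → L.Structure N → N → N → Prop,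
      (∀ (N N' : Type) (T : L.Structure N) (T' : L.Structure N') (u x : N) (u' x' : N'),
        BFR T T' univ univ Λ {(u, u'), (x, x')} → Φ N T u x → Φ N' T' u' x') ∧
      ∀ (T : L'.Structure ℕ) (t₀ : ℕ), BFR T S' univ univ Λ {(t₀, a₀)} →
        ∀ x : ℕ ⊕ (A \ range e : Set M),
          Φ _ (VI.ext S S' e (A \ range e) T) (Sum.inl t₀) x ↔ ∃ t, x = Sum.inl t) :
    ∃ (K' : Set (L'.Structure ℕ)) (δ' : Ordinal.{0}), VSt K' δ' S' := by
  classical
  -- types of the substructure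
  have hsm' : ∀ d < om1, ∀ F' : Finset M', ∃ κ : M' → ℕ, ∀ c c', κ c = κ c' →
      BFR S' S' univ univ d (insert (c, c') (dg (F' : Set M'))) := by
    intro d hd F'
    obtain ⟨κ, hκ⟩ := hsm d hd F' (subset_univ _)
    exact ⟨κ, fun c c' h => hκ c (mem_univ _) c' (mem_univ _) h⟩
  -- countable sets of witnesses
  have hwit : ∀ {D : Type} {I : Set (D × D) → Prop}, (∃ κ : D → ℕ, ∀ c c', κ c = κ c' →
      I {(c, c')}) → ∃ T : Set D, T.Countable ∧ ∀ c : D, ∃ c' ∈ T, I {(c, c')} := by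
    rintro D I ⟨κ, hκ⟩
    have hrep : ∀ (m : ℕ), ∃ T : Set D, T.Countable ∧
        ((∃ c, κ c = m) → ∃ c ∈ T, κ c = m) := by
      intro m
      by_cases h : ∃ c, κ c = m
      · obtain ⟨c, hc⟩ := h
        exact ⟨{c}, countable_singleton _, fun _ => ⟨c, rfl, hc⟩⟩
      · exact ⟨∅, countable_empty, fun h' => absurd h' h⟩
    choose T hT1 hT2 using hrep
    refine ⟨⋃ m, T m, countable_iUnion hT1, fun c => ?_⟩
    obtain ⟨c', hc', hcc⟩ := hT2 (κ c) ⟨c, rfl⟩
    exact ⟨c', mem_iUnion.mpr ⟨κ c, hc'⟩, hκ c c' hcc.symm⟩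
  have hW : ∀ F : Finset M, ∃ T : Set M, T.Countable ∧ ∀ c : M, ∃ c' ∈ T,
      BFR S S univ univ δ (insert (c, c') (dg (F : Set M))) := fun F =>
    hwit (I := fun q => ∀ a ∈ q, BFR S S univ univ δ (insert a (dg (F : Set M)))) (by
      obtain ⟨κ, hκ⟩ := countable_classes hS.scat hS.lt hS.lev F
      exact ⟨κ, fun c c' h a ha => by
        rw [mem_singleton_iff.mp ha]
        exact hκ c c' h⟩) |>.imp fun T hT => ⟨hT.1, fun c => by
      obtain ⟨c', hc', h⟩ := hT.2 c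
      exact ⟨c', hc', h _ rfl⟩⟩
  have hW' : ∀ F : Finset M', ∃ T : Set M', T.Countable ∧ ∀ c : M', ∃ c' ∈ T,
      BFR S' S' univ univ δ (insert (c, c') (dg (F : Set M'))) := fun F =>
    hwit (I := fun q => ∀ a ∈ q, BFR S' S' univ univ δ (insert a (dg (F : Set M')))) (by
      obtain ⟨κ, hκ⟩ := hsm' δ hS.lt F
      exact ⟨κ, fun c c' h a ha => by
        rw [mem_singleton_iff.mp ha]
        exact hκ c c' h⟩) |>.imp fun T hT => ⟨hT.1, fun c => by
      obtain ⟨c', hc', h⟩ := hT.2 c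
      exact ⟨c', hc', h _ rfl⟩⟩
  choose W hWc hWw using hW
  choose W' hWc' hWw' using hW'
  obtain ⟨A, hAc, hAcl⟩ := Pool.Agent.Helper97.VC.exists_closed
    (fun F : Finset M => W F ∪ e '' W' (F.preimage e he.injOn))
    (fun F => (hWc F).union ((hWc' _).image e))
  have hClo : Clo S univ δ A := by
    intro F hF c _
    obtain ⟨c', hc', h'⟩ := hWw F c
    exact ⟨c', ⟨hAcl F (fun a ha => (hF ha).1) (Or.inl hc'), mem_univ _⟩, h'⟩
  have hClo' : Clo S' univ δ (e ⁻¹' A) := by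
    intro F hF c _
    obtain ⟨c', hc', h'⟩ := hWw' F c
    have h1 : (F.image e).preimage e he.injOn = F := by
      ext a
      simp [he.eq_iff]
    refine ⟨c', ⟨hAcl (F.image e) ?_ (Or.inr ⟨c', by rw [h1]; exact hc', rfl⟩), mem_univ _⟩, h'⟩
    intro a ha
    rw [Finset.coe_image] at ha
    obtain ⟨b, hb, rfl⟩ := ha
    exact (hF hb).1
  -- the cut
  obtain ⟨Λ, hΛ, Φ, hΦ1, hΦ2⟩ := hcut A hAc
  have hB : ∀ b ∈ A \ range e, b ∉ range e := fun b hb => hb.2
  -- ordinals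
  set ζ : Ordinal.{0} := max (η + Ordinal.omega0) Λ with hζ
  have hζlt : ζ < om1 := max_lt (add_lt_om1 hη omega_lt_om1) hΛ
  set δ' : Ordinal.{0} := max δ (ζ + 1) with hδ'
  have hδ'lt : δ' < om1 := max_lt hS.lt (add_one_lt_om1 hζlt)
  -- the class
  obtain ⟨A₁, hA₁c, -, hA₁⟩ := exists_clo (hsm' _ hδ'lt) (countable_empty (α := M'))
  obtain ⟨T₀, -, hT₀, -⟩ := exists_copy hA₁c hA₁
  set K' : Set (L'.Structure ℕ) := {T | BFR T S' univ univ δ' ∅} with hK'
  have hK'1 : ∀ T : L'.Structure ℕ, T ∈ K' ↔ BFR T T₀ univ univ δ' ∅ := by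
    intro T
    constructor
    · intro h
      exact BFR.trans h (hT₀.symm (q := ∅) fun a ha => absurd ha (notMem_empty a))
        fun a ha => absurd ha (notMem_empty a)
    · intro h
      exact BFR.trans h hT₀ fun a ha => absurd ha (notMem_empty a)
  -- the base point
  have hpd : ∀ T ∈ K', ∃ t : ℕ, BFR T S' univ univ ζ {(t, a₀)} := by
    intro T hT
    have hlt : ζ < δ' := lt_of_lt_of_le (lt_add_one_self ζ) (le_max_right _ _)
    obtain ⟨t, -, ht⟩ := BFR.back hT hlt (mem_univ a₀)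
    exact ⟨t, BFR.anti (by
      intro a ha
      rw [mem_singleton_iff.mp ha]
      exact mem_insert _ _) ht⟩
  choose! tp htp using hpd
  -- the enumeration of the extensions
  have hBc : Countable (A \ range e : Set M) := (hAc.mono sdiff_subset).to_subtype
  obtain ⟨E⟩ := nonempty_equiv_of_countable (α := ℕ) (β := ℕ ⊕ (A \ range e : Set M))
  let Nx : L'.Structure ℕ → L.Structure (ℕ ⊕ (A \ range e : Set M)) :=
    fun T => ext S S' e (A \ range e) T
  have hNK : ∀ T ∈ K', pl (Nx T) E ∈ K := by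
    intro T hT
    have h0 : BFR T S' univ (e ⁻¹' A) δ ∅ := by
      have := hClo'.rel δ le_rfl ∅ finite_empty (fun a ha => absurd ha (notMem_empty a))
        (BFR.mono (le_max_left _ _) hT)
      rwa [inter_univ] at this
    have h1 : BFR (Nx T) S univ univ δ ∅ := by
      have h2 := bfr_ext' he H2 hClo le_rfl finite_empty (fun a ha => absurd ha (notMem_empty a))
        (G := ∅) finite_empty h0
      exact BFR.anti (empty_subset _) h2
    have h3 : BFR (pl (Nx T) E) S univ univ δ ∅ :=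
      BFR.trans (bfr_pl_equiv E δ (p := ∅) fun a ha => absurd ha (notMem_empty a)) h1
        fun a ha => absurd ha (notMem_empty a)
    obtain ⟨S1, hS1, h4⟩ := hS.lev δ hS.lt
    exact hS.clos S1 hS1 _ ((h3.trans h4 (r := ∅) fun a ha => absurd ha (notMem_empty a)).symm
      fun a ha => absurd ha (notMem_empty a))
  refine ⟨K', δ', ⟨?_, ?_, hδ'lt, ?_, ?_, ?_⟩⟩
  · -- measurable
    have : {c : Code L' | toStr c ∈ K'} = {c : Code L' | BFR (toStr c) T₀ univ univ δ' ∅} := by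
      ext c
      exact hK'1 _
    rw [this]
    exact measurableSet_BFR T₀ hδ'lt ∅
  · -- scattered
    intro γ hγ n
    obtain ⟨ρ, hρ⟩ := hS.scat (Λ + (η + γ)) (add_lt_om1 hΛ (add_lt_om1 hη hγ)) (n + 1)
    let u : L'.Structure ℕ → (Fin n → ℕ) → Fin (n + 1) → ℕ := fun T v =>
      Fin.cons (E.symm (Sum.inl (tp T))) (fun i => E.symm (Sum.inl (v i)))
    let Rl : L'.Structure ℕ × (Fin n → ℕ) → ℕ → Prop := fun x i =>
      x.1 ∈ K' ∧ BFR (pl (Nx x.1) E) (ρ i).1 univ univ (Λ + (η + γ)) (pr (u x.1 x.2) (ρ i).2)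
    let ρ' : ℕ → L'.Structure ℕ × (Fin n → ℕ) := fun i =>
      if h : ∃ x, Rl x i then h.choose else (T₀, fun _ => 0)
    refine ⟨ρ', fun T hT v => ?_⟩
    obtain ⟨i, -, hi⟩ := hρ _ (hNK T hT) (u T v)
    have hex : ∃ x, Rl x i := ⟨(T, v), hT, hi⟩
    have hρ' : ρ' i = hex.choose := by simp only [ρ', dif_pos hex]
    obtain ⟨hK2, hi2⟩ := hex.choose_spec
    rw [← hρ'] at hK2 hi2
    refine ⟨i, hK2, ?_⟩
    set T₂ := (ρ' i).1 with hT₂
    set v₂ := (ρ' i).2 with hv₂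
    have h1 : BFR (pl (Nx T) E) (pl (Nx T₂) E) univ univ (Λ + (η + γ))
        (pr (u T v) (u T₂ v₂)) := by
      refine BFR.trans hi (hi2.symm (q := pr (ρ i).2 (u T₂ v₂)) ?_) ?_
      · rintro _ ⟨j, rfl⟩
        exact ⟨j, rfl⟩
      · rintro _ ⟨j, rfl⟩
        exact ⟨_, ⟨j, rfl⟩, ⟨j, rfl⟩⟩
    have h2 : BFR (Nx T) (pl (Nx T₂) E) univ univ (Λ + (η + γ))
        (range fun j => (E (u T v j), u T₂ v₂ j)) := by
      refine BFR.trans ((bfr_pl_equiv (S := Nx T) E (Λ + (η + γ))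
        (p := {a | a.2 = E a.1}) fun a ha => ha).symm (q := {a | a.1 = E a.2}) fun a ha => ha) h1 ?_
      rintro _ ⟨j, rfl⟩
      exact ⟨u T v j, rfl, ⟨j, rfl⟩⟩
    have h3 : BFR (Nx T) (Nx T₂) univ univ (Λ + (η + γ))
        (range fun j => (E (u T v j), E (u T₂ v₂ j))) := by
      refine BFR.trans h2 (bfr_pl_equiv (S := Nx T₂) E (Λ + (η + γ))
        (p := {a | a.2 = E a.1}) fun a ha => ha) ?_
      rintro _ ⟨j, rfl⟩
      exact ⟨u T₂ v₂ j, ⟨j, rfl⟩, rfl⟩
    -- the pairs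
    set q : Set ((ℕ ⊕ (A \ range e : Set M)) × (ℕ ⊕ (A \ range e : Set M))) :=
      insert (Sum.inl (tp T), Sum.inl (tp T₂))
        ((fun a : ℕ × ℕ => (Sum.inl a.1, Sum.inl a.2)) '' pr v v₂) with hq
    have h4 : BFR (Nx T) (Nx T₂) univ univ (Λ + (η + γ)) q := by
      refine BFR.anti ?_ h3
      rintro a (rfl | ⟨_, ⟨j, rfl⟩, rfl⟩)
      · exact ⟨0, by simp [u]⟩
      · exact ⟨j.succ, by simp [u]⟩
    -- the cut is respected
    have h5 : BFR (Nx T) (Nx T₂) (range Sum.inl) (range Sum.inl) (η + γ) q := by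
      refine BFR.restr (subset_univ _) (subset_univ _) Λ (η + γ) ?_ h4
      intro x _ y _ hxy
      have hT1 := hΦ2 T (tp T) ((htp T hT).mono (le_max_right _ _))
      have hT2 := hΦ2 T₂ (tp T₂) ((htp T₂ hK2).mono (le_max_right _ _))
      have h6 : BFR (Nx T) (Nx T₂) univ univ Λ {(Sum.inl (tp T), Sum.inl (tp T₂)), (x, y)} := by
        refine BFR.anti ?_ hxy
        rintro a (rfl | ha)
        · exact mem_insert_of_mem _ (mem_insert _ _)
        · rw [mem_singleton_iff.mp ha]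
          exact mem_insert _ _
      have h7 : BFR (Nx T₂) (Nx T) univ univ Λ {(Sum.inl (tp T₂), Sum.inl (tp T)), (y, x)} := by
        refine h6.symm ?_
        rintro a (rfl | ha)
        · exact Or.inl rfl
        · rw [mem_singleton_iff.mp ha]
          exact Or.inr rfl
      constructor
      · rintro ⟨t, rfl⟩
        obtain ⟨s, hs⟩ := (hT2 y).mp (hΦ1 _ _ _ _ _ _ _ _ h6 ((hT1 _).mpr ⟨t, rfl⟩))
        exact ⟨s, hs.symm⟩
      · rintro ⟨t, rfl⟩
        obtain ⟨s, hs⟩ := (hT1 x).mp (hΦ1 _ _ _ _ _ _ _ _ h7 ((hT2 _).mpr ⟨t, rfl⟩))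
        exact ⟨s, hs.symm⟩
    -- pull back to the numbers
    have hinj : Function.Injective (Sum.inl : ℕ → ℕ ⊕ (A \ range e : Set M)) := Sum.inl_injective
    have h8 : BFR (PLG.inn S S' e (A \ range e) T) (PLG.inn S S' e (A \ range e) T₂) univ univ
        (η + γ) (insert (tp T, tp T₂) (pr v v₂)) := by
      have h9 : BFR (PLG.inn S S' e (A \ range e) T) (Nx T) univ (range Sum.inl) (η + γ)
          {a | a.2 = Sum.inl a.1} := BFR_pl (S := Nx T) hinj (η + γ) fun a ha => ha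
      have h10 : BFR (PLG.inn S S' e (A \ range e) T) (Nx T₂) univ (range Sum.inl) (η + γ)
          ((fun a : ℕ × ℕ => (a.1, (Sum.inl a.2 : ℕ ⊕ (A \ range e : Set M)))) ''
            (insert (tp T, tp T₂) (pr v v₂))) := by
        refine h9.trans h5 ?_
        rintro _ ⟨a, (rfl | ha), rfl⟩
        · exact ⟨Sum.inl (tp T), rfl, mem_insert _ _⟩
        · exact ⟨Sum.inl a.1, rfl, mem_insert_of_mem _ ⟨a, ha, rfl⟩⟩
      exact BFR_pl' (S := Nx T₂) hinj h10 fun a ha => ⟨a, ha, rfl⟩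
    exact PLG.down he hB H2 H1 ((htp T hT).mono (le_max_left _ _))
      ((htp T₂ hK2).mono (le_max_left _ _)) γ (finite_range _) h8
  · -- the ordinal
    exact le_trans hS.om (le_max_left _ _)
  · -- closed
    intro T hT T' hTT'
    rw [hK'1] at hT ⊢
    exact BFR.trans (hTT'.symm (q := ∅) fun a ha => absurd ha (notMem_empty a)) hT
      fun a ha => absurd ha (notMem_empty a)
  · -- levels
    intro γ hγ
    have hlt : max γ δ' < om1 := max_lt hγ hδ'lt
    obtain ⟨A₂, hA₂c, -, hA₂⟩ := exists_clo (hsm' _ hlt) (countable_empty (α := M'))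
    obtain ⟨T, -, hT, -⟩ := exists_copy hA₂c hA₂
    exact ⟨T, hT.mono (le_max_right _ _), (hT.mono (le_max_left _ _)).symm
      fun a ha => absurd ha (notMem_empty a)⟩

end Pool.Agent.Helper97.LO
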