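import Pool.Agent.T2.Basic
import Pool.Agent.T2.AlFar
import Pool.Agent.Helper68.VCM.NBA5

/-!
# Labelled ordered sums: the cuts, and smallness in the unbounded case
-/

set_option autoImplicit false
set_option linter.unusedSectionVars false
set_option linter.unusedVariables false

namespace Pool.Agent.Helper97.LO

open Set Pool.Agent.Helper5.DU Pool.Agent.Helper6.Str Pool.Agent.Helper79.VC
  Pool.Agent.Helper97.VC Pool.Agent.Helper97.MD

variable {L : FirstOrder.Language.{0, 0}} {M N P : Type}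

/-! ### the identity and named pairs -/

/-- the identity over named diagonal pairs -/
theorem bfr_dgn (S : L.Structure M) (U : Set M) (γ : Ordinal.{0}) :
    ∀ {p : Set (M × M)}, (∀ a ∈ p, a.2 = a.1) → BFR S S U U γ p := by
  induction γ using WellFoundedLT.induction with
  | _ γ ih =>
    intro p hp
    have hat : AtEq S S p :=
      (BFR.refl S univ 0 (p := p) fun a ha => ⟨mem_univ _, hp a ha⟩).atEq
    rw [BFR.def]
    refine ⟨hat, fun β hβ => ⟨fun x hx => ⟨x, hx, ih β hβ ?_⟩, fun x hx => ⟨x, hx, ih β hβ ?_⟩⟩⟩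
    · rintro a (rfl | ha)
      · rfl
      · exact hp a ha
    · rintro a (rfl | ha)
      · rfl
      · exact hp a ha

/-- **Composition with the literal identity on one part.** -/
theorem BFR.comp_id (hL : Ar2 L) {S : L.Structure M} {U₁ U₂ V₂ : Set M} {q : Set (M × M)}
    (hU : ∀ z ∈ U₁, z ∉ U₂) (hV : ∀ z ∈ U₁, z ∉ V₂)
    (H : ∀ z ∈ U₁, ∀ w ∈ U₂, ∀ w' ∈ V₂, AtEq S S (insert (w, w') q) →
      AtEq S S {(z, z), (w, w')}) {γ : Ordinal.{0}} {p₁ p₂ : Set (M × M)}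
    (hp₁ : ∀ a ∈ p₁, a.1 ∈ U₁ ∧ a.2 = a.1) (hp₂ : ∀ a ∈ p₂, a.1 ∈ U₂ ∧ a.2 ∈ V₂)
    (h : BFR S S U₂ V₂ γ (p₂ ∪ q)) : BFR S S (U₁ ∪ U₂) (U₁ ∪ V₂) γ (p₁ ∪ p₂) := by
  classical
  let π : M → Option M := fun a => if a ∈ U₁ then some a else none
  have e1 : ∀ a ∈ U₁, π a = some a := fun a ha => if_pos ha
  have e0 : ∀ a ∉ U₁, π a = none := fun a ha => if_neg ha
  have e2 : ∀ a ∈ U₂, π a = none := fun a ha => e0 a fun h' => hU a h' ha
  have e2' : ∀ a ∈ V₂, π a = none := fun a ha => e0 a fun h' => hV a h' ha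
  have key : ∀ a b : M × M, a.1 ∈ U₁ ∪ U₂ → a.2 ∈ U₁ ∪ V₂ → π a.1 = π a.2 → b.1 ∈ U₁ ∪ U₂ →
      b.2 ∈ U₁ ∪ V₂ → π b.1 = π b.2 → π a.1 ≠ π b.1 → a.1 ∈ U₁ →
      AtEq S S (insert b (if (π b.1).isSome then ∅ else q)) → AtEq S S {a, b} := by
    intro a b ha1 ha2 ha3 hb1 hb2 hb3 hab haU h2
    have ha' : a.2 = a.1 := by
      rw [e1 _ haU] at ha3
      rcases ha2 with h3 | h3
      · rw [e1 _ h3] at ha3
        exact (Option.some.inj ha3).symm
      · rw [e2' _ h3] at ha3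
        exact absurd ha3 (by simp)
    by_cases hbU : b.1 ∈ U₁
    · have hb' : b.2 = b.1 := by
        rw [e1 _ hbU] at hb3
        rcases hb2 with h3 | h3
        · rw [e1 _ h3] at hb3
          exact (Option.some.inj hb3).symm
        · rw [e2' _ h3] at hb3
          exact absurd hb3 (by simp)
      refine (bfr_dgn S univ 0 (p := {a, b}) ?_).atEq
      rintro c (rfl | rfl)
      · exact ha'
      · exact hb'
    · have hb1' : b.1 ∈ U₂ := hb1.resolve_left hbU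
      have hb2' : b.2 ∈ V₂ := by
        rcases hb2 with h3 | h3
        · rw [e0 _ hbU, e1 _ h3] at hb3
          exact absurd hb3 (by simp)
        · exact h3
      rw [e0 _ hbU] at h2
      have h3 := H a.1 haU b.1 hb1' b.2 hb2' (by simpa using h2)
      have e : a = (a.1, a.1) := Prod.ext rfl ha'
      rw [e]
      exact h3
  have h0 := BFR.comp_over hL (S := S) (S' := S) π π (U := U₁ ∪ U₂) (V := U₁ ∪ V₂)
    (q := fun i => if i.isSome then ∅ else q) (Q := ∅) (fun i => empty_subset _) ?_ γ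
    (p := p₁ ∪ p₂) ?_ ?_
  · rwa [union_empty] at h0
  · intro a b ha1 ha2 ha3 hb1 hb2 hb3 hab h1 h2
    by_cases haU : a.1 ∈ U₁
    · exact key a b ha1 ha2 ha3 hb1 hb2 hb3 hab haU h2
    · by_cases hbU : b.1 ∈ U₁
      · rw [pair_comm]
        exact key b a hb1 hb2 hb3 ha1 ha2 ha3 (Ne.symm hab) hbU h1
      · exact absurd ((e0 _ haU).trans (e0 _ hbU).symm) hab
  · rintro a (ha | ha)
    · obtain ⟨h1, h2⟩ := hp₁ a ha
      refine ⟨Or.inl h1, Or.inl (h2 ▸ h1), ?_⟩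
      rw [h2]
    · obtain ⟨h1, h2⟩ := hp₂ a ha
      exact ⟨Or.inr h1, Or.inr h2, (e2 _ h1).trans (e2' _ h2).symm⟩
  · rintro (_ | z)
    · have h1 : {a ∈ U₁ ∪ U₂ | π a = none} = U₂ := by
        ext a
        constructor
        · rintro ⟨h1 | h1, h2⟩
          · rw [e1 _ h1] at h2
            exact absurd h2 (by simp)
          · exact h1
        · exact fun h1 => ⟨Or.inr h1, e2 _ h1⟩
      have h2 : {a ∈ U₁ ∪ V₂ | π a = none} = V₂ := by
        ext a
        constructor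
        · rintro ⟨h1 | h1, h2⟩
          · rw [e1 _ h1] at h2
            exact absurd h2 (by simp)
          · exact h1
        · exact fun h1 => ⟨Or.inr h1, e2' _ h1⟩
      rw [h1, h2]
      refine BFR.anti ?_ h
      rintro a (⟨ha | ha, ha'⟩ | ha)
      · rw [e1 _ (hp₁ a ha).1] at ha'
        exact absurd ha' (by simp)
      · exact Or.inl ha
      · exact Or.inr (by simpa using ha)
    · have h1 : {a ∈ U₁ ∪ U₂ | π a = some z} = {a ∈ U₁ ∪ V₂ | π a = some z} := by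
        ext a
        constructor
        · rintro ⟨h1 | h1, h2⟩
          · exact ⟨Or.inl h1, h2⟩
          · rw [e2 _ h1] at h2
            exact absurd h2 (by simp)
        · rintro ⟨h1 | h1, h2⟩
          · exact ⟨Or.inl h1, h2⟩
          · rw [e2' _ h1] at h2
            exact absurd h2 (by simp)
      rw [h1]
      refine bfr_dgn S _ γ ?_
      rintro a (⟨ha | ha, ha'⟩ | ha)
      · exact (hp₁ a ha).2
      · rw [e2 _ (hp₂ a ha).1] at ha'
        exact absurd ha' (by simp)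
      · simp at ha

/-! ### the cuts -/

section PPL

variable {G : Type} [Monoid G] [Preorder M] {r : L.Relations 2} {o : Bool} {lab : M → M → G}
  {S : L.Structure M}

theorem LSt.DD_init (hO : LSt r o lab S) {x y z : M} (hy : y ∈ NBA.DD S x) (hxz : x ≤ z)
    (hzy : z ≤ y) : z ∈ NBA.DD S x :=
  ⟨hxz, hO.tame_icc_sub hy.2 ⟨le_rfl, hy.1⟩ ⟨hxz, hzy⟩⟩

theorem LSt.DD_tame (hO : LSt r o lab S) {x u v : M} (hu : u ∈ NBA.DD S x)
    (hv : v ∈ NBA.DD S x) : TameX S (Icc u v) := by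
  by_cases huv : u ≤ v
  · exact hO.tame_icc_sub hv.2 ⟨hu.1, huv⟩ ⟨hv.1, le_rfl⟩
  · rw [Icc_eq_empty huv]
    exact tameX_of_countable countable_empty

theorem LSt.PP_init (hL : Ar2 L) (hO : LSt r o lab S) {x y z : M} {lam : Ordinal.{0}}
    (hlam : ∀ a < lam, a + Ordinal.omega0 < lam) (hy : y ∈ NBA.PP S x lam) (hxz : x ≤ z)
    (hzy : z ≤ y) : z ∈ NBA.PP S x lam := by
  obtain ⟨hxy, a, ha, hSL⟩ := hy
  refine ⟨hxz, a + Ordinal.omega0, hlam a ha, ?_⟩
  have h1 := hO.sl_icc hL hSL (u := x) (v := z) ⟨le_rfl, hxy⟩ ⟨hxz, hzy⟩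
  have e : Icc x y ∩ Icc x z = Icc x z := inter_eq_right.mpr (Icc_subset_Icc le_rfl hzy)
  rwa [e] at h1

theorem LSt.PP_def (hO : LSt r o lab S) {x z x' z' : M} {lam : Ordinal.{0}} (h1 : lam ≤ om1)
    (hlam : ∀ a < lam, a + Ordinal.omega0 < lam)
    (h : BFR S S univ univ lam {(z, z'), (x, x')}) :
    z ∈ NBA.PP S x lam ↔ z' ∈ NBA.PP S x' lam := by
  have hle : x ≤ z ↔ x' ≤ z' :=
    hO.le_congr h.atEq (a := (x, x')) (b := (z, z')) (Or.inr rfl) (Or.inl rfl)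
  have h2 : BFR S S (Icc x z) (Icc x' z') lam {(z, z'), (x, x')} := by
    refine BFR.restr₀ (subset_univ _) (subset_univ _) ?_ h
    intro c _ c' _ hcc
    have e1 := hO.le_congr hcc (a := (x, x')) (b := (c, c')) (Or.inr (Or.inr rfl)) (Or.inl rfl)
    have e2 := hO.le_congr hcc (a := (c, c')) (b := (z, z')) (Or.inl rfl) (Or.inr (Or.inl rfl))
    exact and_congr e1 e2
  have h3 := SL.lt_congr h1 hlam (BFR.anti (empty_subset _) h2)
  exact and_congr hle h3

end PPL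

section

variable [∀ n, IsEmpty (L.Functions n)] [∀ n, Countable (L.Relations n)]
  {K : Set (L.Structure ℕ)} {δ : Ordinal.{0}} {S : L.Structure M}
  {G : Type} [Monoid G] [Preorder M] {r : L.Relations 2} {o : Bool} {lab : M → M → G}

theorem LSt.Icc_small (hS : VSt K δ S) (hO : LSt r o lab S) (x y : M) : Small S (Icc x y) := by
  classical
  refine hS.small_sub {x, y} (κ := 0) (Ordinal.omega_pos 1) ?_
  intro c c' hcc
  have h1 := hO.le_congr hcc.atEq (a := (x, x)) (b := (c, c')) (Or.inr ⟨x, by simp, rfl⟩)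
    (Or.inl rfl)
  have h2 := hO.le_congr hcc.atEq (a := (c, c')) (b := (y, y)) (Or.inl rfl)
    (Or.inr ⟨y, by simp, rfl⟩)
  exact and_congr h1 h2

theorem LSt.PP_subset (hS : VSt K δ S) (hO : LSt r o lab S) {x : M} {lam : Ordinal.{0}}
    (hlam : lam ≤ om1) : NBA.PP S x lam ⊆ NBA.DD S x := by
  rintro z ⟨hz, a, ha, hSL⟩
  exact ⟨hz, hSL.tame (hO.Icc_small hS x z) (ha.trans_le hlam)⟩

/-- a cut all of whose elements above the base point are far from the elements above the cut -/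
theorem LSt.exists_cut (hL : Ar2 L) (hO : LSt r o lab S) {x : M}
    (hunb : ∀ lam < om1, ∃ z ∈ NBA.DD S x, z ∉ NBA.PP S x lam) {J : Set G} {u₀ : M}
    (hB : IsBse (NBA.DD S x) lab J u₀) (hPP : ∀ lam < om1, NBA.PP S x lam ⊆ NBA.DD S x) {y : M}
    (hy : y ∈ NBA.DD S x) : ∃ lam < om1, (∀ a < lam, a + Ordinal.omega0 < lam) ∧
      y ∈ NBA.PP S x lam ∧ u₀ ∈ NBA.PP S x lam ∧ ∀ z ∈ NBA.PP S x lam, u₀ ≤ z →
        ∀ w ∈ NBA.DD S x, w ∉ NBA.PP S x lam → Far lab J z w := by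
  classical
  obtain ⟨lu, hlu, hu0⟩ := NBA.DD_mem_PP (x := x) (z := u₀) hB.mem
  obtain ⟨ly, hly, hy0⟩ := NBA.DD_mem_PP (x := x) (z := y) hy
  have hstep : ∀ γ : Ordinal.{0}, ∃ μ < om1, γ < om1 → ∃ w ∈ NBA.PP S x μ,
      ∀ w' ∈ NBA.DD S x, w ≤ w' → ∀ z ∈ NBA.PP S x γ, u₀ ≤ z → Far lab J z w' := by
    intro γ
    by_cases hγ : γ < om1
    · obtain ⟨μ, hμ, hle, hadd⟩ := NBA.exists_addClosed (lam := max γ lu) (max_lt hγ hlu)
      have hu1 : u₀ ∈ NBA.PP S x μ := NBA.PP_mono ((le_max_right _ _).trans hle) hu0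
      obtain ⟨v, hv, hvP⟩ := hunb μ hμ
      have habove : ∀ z ∈ NBA.PP S x μ, z < v := by
        intro z hz
        rw [← hO.not_le]
        exact fun h' => hvP (hO.PP_init hL hadd hz hv.1 h')
      obtain ⟨w, hw, hvw, hfar⟩ := hB.exists_far hv (habove u₀ hu1).le
      obtain ⟨μ', hμ', hw'⟩ := NBA.DD_mem_PP hw
      refine ⟨μ', hμ', fun _ => ⟨w, hw', fun w' hw'D hww z hz h0 => ?_⟩⟩
      have hz' : z ∈ NBA.PP S x μ := NBA.PP_mono ((le_max_left _ _).trans hle) hz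
      exact (hfar w' hw'D hww).left hB (hPP μ hμ hz') hw'D h0 (habove z hz').le
    · exact ⟨0, Ordinal.omega_pos 1, fun h => absurd h hγ⟩
  choose g hg1 hg2 using hstep
  obtain ⟨A, lam, -, -, h1, h2, h3, h4⟩ := exists_pair (M := ℕ) (fun _ _ => ∅)
    (fun _ _ _ => countable_empty) (fun _ γ => g γ) (fun _ γ _ => hg1 γ)
    (A₀ := ∅) countable_empty (μ := max (max lu ly) Ordinal.omega0)
    (max_lt (max_lt hlu hly) omega_lt_om1)
  have hadd : ∀ a < lam, a + Ordinal.omega0 < lam := fun a ha =>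
    h3 a ha _ ((le_max_right _ _).trans_lt h1)
  refine ⟨lam, h2, hadd, NBA.PP_mono (((le_max_right _ _).trans (le_max_left _ _)).trans h1.le) hy0,
    NBA.PP_mono (((le_max_left _ _).trans (le_max_left _ _)).trans h1.le) hu0,
    fun z hz h0 w hw hwP => ?_⟩
  obtain ⟨hxz, a, ha, hSL⟩ := hz
  have h1' : (1 : Ordinal.{0}) < lam :=
    (Ordinal.one_lt_omega0).trans ((le_max_right _ _).trans_lt h1)
  have ha1 : a + 1 < lam := h3 a ha 1 h1'
  have hz' : z ∈ NBA.PP S x (a + 1) := ⟨hxz, a, lt_add_one_self a, hSL⟩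
  obtain ⟨v, hv, hfar⟩ := hg2 (a + 1) (ha1.trans h2)
  refine hfar w hw ?_ z hz' h0
  have hvP : v ∈ NBA.PP S x lam := NBA.PP_mono (h4 ∅ (by simp) _ ha1).2.le hv
  by_contra hvw
  exact hwP (hO.PP_init hL hadd hvP hw.1 (hO.not_le.mp hvw).le)

/-- **Countably many types of final segments.** -/
theorem LSt.ct [Finite G] (hL : Ar2 L) (hS : VSt K δ S) (hO : LSt r o lab S) (x : M)
    (hunb : ∀ lam < om1, ∃ z ∈ NBA.DD S x, z ∉ NBA.PP S x lam) {b : Ordinal.{0}}
    (hb : b < om1) :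
    ∃ κ : M → ℕ, ∀ y ∈ NBA.DD S x, ∀ y' ∈ NBA.DD S x, κ y = κ y' →
      ∃ v ∈ NBA.DD S x, y < v ∧ y' < v ∧
      BFR S S (Icc y v) (Icc y' v) b {(y, y'), (v, v)} := by
  classical
  obtain ⟨y₀, hy₀, -⟩ := hunb 0 (Ordinal.omega_pos 1)
  have hxD : x ∈ NBA.DD S x := hO.DD_init hy₀ le_rfl hy₀.1
  obtain ⟨J, u₀, hxu, hB⟩ := exists_bse hO.total hO.mul hxD
  have hch : ∀ i : Om, ∃ z, z ∈ NBA.DD S x ∧ z ∉ NBA.PP S x (od i) := fun i => hunb _ (od_lt i)
  choose v hvD hvP using hch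
  obtain ⟨V, hV, hVb⟩ := hS.branch v ![x, u₀]
  have key : ∀ y ∈ NBA.DD S x, ∃ C : Set Om, C.Countable ∧ ∀ i ∈ V, i ∉ C → y < v i ∧
      ∀ j ∈ V, j ∉ C → BFR S S (Icc y (v i)) (Icc y (v j)) b {(y, y), (v i, v j)} := by
    intro y hy
    obtain ⟨lam, hlam, hadd, hyP, huP, hfar⟩ := hO.exists_cut hL hunb hB
      (fun lam hlam => hO.PP_subset hS hlam.le) hy
    have hPD : NBA.PP S x lam ⊆ NBA.DD S x := hO.PP_subset hS hlam.le
    obtain ⟨C1, hC1, hC1'⟩ := hVb (lam + b) (add_lt_om1 hlam hb)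
    have hvlam : ∀ i, i ∉ C1 ∪ {w | od w < lam} → v i ∉ NBA.PP S x lam := by
      intro i hi h'
      refine hvP i (NBA.PP_mono ?_ h')
      by_contra h''
      exact hi (Or.inr (lt_of_not_ge h''))
    have hinit : ∀ w ∈ NBA.PP S x lam, ∀ z, x ≤ z → z ∉ NBA.PP S x lam → w < z := by
      intro w hw z hxz hz
      rw [← hO.not_le]
      exact fun h' => hz (hO.PP_init hL hadd hw hxz h')
    have hsplit : ∀ i, i ∉ C1 ∪ {w | od w < lam} → Icc y (v i) =
        {z | z ∈ NBA.PP S x lam ∧ y ≤ z} ∪ {z | x ≤ z ∧ z ∉ NBA.PP S x lam ∧ z ≤ v i} := by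
      intro i hi
      ext z
      constructor
      · rintro ⟨h1, h2⟩
        by_cases hz : z ∈ NBA.PP S x lam
        · exact Or.inl ⟨hz, h1⟩
        · exact Or.inr ⟨hy.1.trans h1, hz, h2⟩
      · rintro (⟨h1, h2⟩ | ⟨h1, h2, h3⟩)
        · exact ⟨h2, (hinit z h1 (v i) (hvD i).1 (hvlam i hi)).le⟩
        · exact ⟨(hinit y hyP z h1 h2).le, h3⟩
    refine ⟨C1 ∪ {w | od w < lam}, hC1.union (countable_od_lt hlam), fun i hi hiC =>
      ⟨hinit y hyP (v i) (hvD i).1 (hvlam i hiC), fun j hj hjC => ?_⟩⟩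
    have h1 := hC1' i hi (fun h => hiC (Or.inl h)) j hj (fun h => hjC (Or.inl h))
    have hmv : (v i, v j) ∈ insert (v i, v j) (range fun k => ((![x, u₀] : Fin 2 → M) k,
        (![x, u₀] : Fin 2 → M) k)) := Or.inl rfl
    have hmx : (x, x) ∈ insert (v i, v j) (range fun k => ((![x, u₀] : Fin 2 → M) k,
        (![x, u₀] : Fin 2 → M) k)) := Or.inr ⟨0, rfl⟩
    have hmu : (u₀, u₀) ∈ insert (v i, v j) (range fun k => ((![x, u₀] : Fin 2 → M) k,
        (![x, u₀] : Fin 2 → M) k)) := Or.inr ⟨1, rfl⟩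
    have h2 : BFR S S {z | x ≤ z ∧ z ∉ NBA.PP S x lam ∧ z ≤ v i}
        {z | x ≤ z ∧ z ∉ NBA.PP S x lam ∧ z ≤ v j} b ({(v i, v j)} ∪ {(u₀, u₀)}) := by
      have h3 := BFR.restr (U' := {z | x ≤ z ∧ z ∉ NBA.PP S x lam ∧ z ≤ v i})
        (V' := {z | x ≤ z ∧ z ∉ NBA.PP S x lam ∧ z ≤ v j}) (subset_univ _) (subset_univ _) lam b
        (fun c _ c' _ hcc => by
          refine and_congr (hO.le_congr hcc.atEq (a := (x, x)) (b := (c, c')) (Or.inr hmx)
            (Or.inl rfl)) (and_congr (not_congr ?_) (hO.le_congr hcc.atEq (a := (c, c'))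
            (b := (v i, v j)) (Or.inl rfl) (Or.inr hmv)))
          refine hO.PP_def hlam.le hadd (BFR.anti ?_ hcc)
          rintro a (rfl | rfl)
          · exact Or.inl rfl
          · exact Or.inr hmx) h1
      refine BFR.anti ?_ h3
      rintro a (rfl | rfl)
      · exact hmv
      · exact hmu
    have h4 := BFR.comp_id hL (S := S) (U₁ := {z | z ∈ NBA.PP S x lam ∧ y ≤ z})
      (U₂ := {z | x ≤ z ∧ z ∉ NBA.PP S x lam ∧ z ≤ v i})
      (V₂ := {z | x ≤ z ∧ z ∉ NBA.PP S x lam ∧ z ≤ v j}) (q := {(u₀, u₀)})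
      (fun z hz hz' => hz'.2.1 hz.1) (fun z hz hz' => hz'.2.1 hz.1) ?_ (γ := b)
      (p₁ := {(y, y)}) (p₂ := {(v i, v j)}) ?_ ?_ h2
    · rw [← hsplit i hiC, ← hsplit j hjC] at h4
      exact h4
    · intro z hz w hw w' hw' hww
      have hzw : z < w := hinit z hz.1 w hw.1 hw.2.1
      have hzw' : z < w' := hinit z hz.1 w' hw'.1 hw'.2.1
      have huw : u₀ < w := hinit u₀ huP w hw.1 hw.2.1
      have huw' : u₀ < w' := hinit u₀ huP w' hw'.1 hw'.2.1
      have hlabu : lab u₀ w = lab u₀ w' := by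
        refine hO.inv u₀ w u₀ w' huw.le (AtEq.anti ?_ hww)
        rintro a (rfl | rfl)
        · exact Or.inr rfl
        · exact Or.inl rfl
      have hwD : w ∈ NBA.DD S x := hO.DD_init (hvD i) hw.1 hw.2.2
      have hwD' : w' ∈ NBA.DD S x := hO.DD_init (hvD j) hw'.1 hw'.2.2
      refine hO.cross z w z w' hzw hzw' ?_ (bfr_dgn S univ 0 ?_).atEq (AtEq.anti ?_ hww)
      · by_cases h0 : u₀ ≤ z
        · exact far_lab hB (hPD hz.1) h0 hwD (hPD hz.1) h0 hwD' (hfar z hz.1 h0 w hwD hw.2.1)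
            (hfar z hz.1 h0 w' hwD' hw'.2.1) rfl rfl hlabu
        · have h0' := (hO.not_le.mp h0).le
          rw [hO.mul z u₀ w h0' huw.le, hO.mul z u₀ w' h0' huw'.le, hlabu]
      · rintro a rfl
        rfl
      · rintro a rfl
        exact Or.inl rfl
    · rintro a rfl
      exact ⟨⟨hyP, le_rfl⟩, rfl⟩
    · rintro a rfl
      exact ⟨⟨(hvD i).1, hvlam i hiC, le_rfl⟩, ⟨(hvD j).1, hvlam j hjC, le_rfl⟩⟩
  have hch2 : ∀ y, ∃ (C : Set Om) (i : Om), C.Countable ∧ (y ∈ NBA.DD S x → i ∈ V ∧ i ∉ C ∧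
      ∀ i ∈ V, i ∉ C → y < v i ∧ ∀ j ∈ V, j ∉ C →
        BFR S S (Icc y (v i)) (Icc y (v j)) b {(y, y), (v i, v j)}) := by
    intro y
    by_cases hy : y ∈ NBA.DD S x
    · obtain ⟨C, hC, h⟩ := key y hy
      obtain ⟨i, hi, hiC⟩ := NBA.exists_notMem hV hC
      exact ⟨C, i, hC, fun _ => ⟨hi, hiC, h⟩⟩
    · obtain ⟨i, -, -⟩ := NBA.exists_notMem hV countable_empty
      exact ⟨∅, i, countable_empty, fun h => absurd h hy⟩
  choose C I hC hI using hch2
  obtain ⟨κ₂, hκ₂⟩ := hS.code hb 2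
  refine ⟨fun y => κ₂ ![y, v (I y)], fun y hy y' hy' hyy => ?_⟩
  obtain ⟨h1, h2, h3⟩ := hI y hy
  obtain ⟨h1', h2', h3'⟩ := hI y' hy'
  obtain ⟨j, hj, hjC⟩ := NBA.exists_notMem hV ((hC y).union (hC y'))
  have hj1 : j ∉ C y := fun h => hjC (Or.inl h)
  have hj2 : j ∉ C y' := fun h => hjC (Or.inr h)
  refine ⟨v j, hvD j, (h3 j hj hj1).1, (h3' j hj hj2).1, ?_⟩
  have h4 := hκ₂ _ _ hyy
  have hmy : (y, y') ∈ pr ![y, v (I y)] ![y', v (I y')] := ⟨0, rfl⟩
  have hmv : (v (I y), v (I y')) ∈ pr ![y, v (I y)] ![y', v (I y')] := ⟨1, rfl⟩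
  have h5 : BFR S S (Icc y (v (I y))) (Icc y' (v (I y'))) b {(y, y'), (v (I y), v (I y'))} := by
    have h6 : BFR S S (Icc y (v (I y))) (Icc y' (v (I y'))) b
        (pr ![y, v (I y)] ![y', v (I y')]) := by
      refine BFR.restr₀ (subset_univ _) (subset_univ _) ?_ h4
      intro a _ c _ hac
      exact and_congr (hO.le_congr hac (a := (y, y')) (b := (a, c)) (Or.inr hmy) (Or.inl rfl))
        (hO.le_congr hac (a := (a, c)) (b := (v (I y), v (I y'))) (Or.inl rfl) (Or.inr hmv))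
    refine BFR.anti ?_ h6
    rintro a (rfl | rfl)
    · exact hmy
    · exact hmv
  have h6 := (h3 j hj hj1).2 (I y) h1 h2
  have h7 := (h3' (I y') h1' h2').2 j hj hj2
  have h8 : BFR S S (Icc y (v j)) (Icc y' (v (I y'))) b {(y, y'), (v j, v (I y'))} := by
    refine h6.trans h5 ?_
    rintro a (rfl | rfl)
    · exact ⟨y, Or.inl rfl, Or.inl rfl⟩
    · exact ⟨v (I y), Or.inr rfl, Or.inr rfl⟩
  refine h8.trans h7 ?_
  rintro a (rfl | rfl)
  · exact ⟨y', Or.inl rfl, Or.inl rfl⟩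
  · exact ⟨v (I y'), Or.inr rfl, Or.inr rfl⟩

/-- **Countably many types** in the unbounded case. -/
theorem LSt.small_of_unb [Finite G] (hL : Ar2 L) (hS : VSt K δ S) (hO : LSt r o lab S) (x : M)
    (hunb : ∀ lam < om1, ∃ z ∈ NBA.DD S x, z ∉ NBA.PP S x lam) : Small S (NBA.DD S x) := by
  classical
  intro b hb F hF
  obtain ⟨m, hm, hFm⟩ : ∃ m ∈ NBA.DD S x, ∀ f ∈ F, f ≤ m := by
    obtain ⟨y0, hy0, -⟩ := hunb 0 (Ordinal.omega_pos 1)
    induction F using Finset.induction_on with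
    | empty => exact ⟨y0, hy0, fun f hf => absurd hf (Finset.notMem_empty f)⟩
    | insert a F _ ih =>
      rw [Finset.coe_insert, insert_subset_iff] at hF
      obtain ⟨m, hm, hFm⟩ := ih hF.2
      rcases hO.total a m with h1 | h1
      · refine ⟨m, hm, fun f hf => ?_⟩
        rcases Finset.mem_insert.mp hf with rfl | hf
        · exact h1
        · exact hFm f hf
      · refine ⟨a, hF.1, fun f hf => ?_⟩
        rcases Finset.mem_insert.mp hf with rfl | hf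
        · exact le_rfl
        · exact (hFm f hf).trans h1
  have hFI : (F : Set M) ⊆ Icc x m := fun f hf => ⟨(hF hf).1, hFm f hf⟩
  have hmI : m ∈ Icc x m := ⟨hm.1, le_rfl⟩
  have hFI' : ((insert m F : Finset M) : Set M) ⊆ Icc x m := by
    rw [Finset.coe_insert]
    exact insert_subset hmI hFI
  obtain ⟨κ₁, hκ₁⟩ := hm.2.types (insert m F) hFI'
  obtain ⟨κ₂, hκ₂⟩ := hS.code hb 2
  obtain ⟨κ₃, hκ₃⟩ := hO.ct hL hS x hunb hb
  -- the elements above
  have hgt : ∀ w, {z | z ∈ NBA.DD S x ∧ w ≤ z} ∩ Ioi w = NBA.Dgt S x w := by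
    intro w
    ext z
    constructor
    · rintro ⟨⟨h1, -⟩, h2⟩
      exact ⟨h1, h2⟩
    · rintro ⟨h1, h2⟩
      exact ⟨⟨h1, le_of_lt h2⟩, h2⟩
  have hsplit : NBA.DD S x = Icc x m ∪ NBA.Dgt S x m := by
    ext z
    constructor
    · intro hz
      by_cases hzm : z ≤ m
      · exact Or.inl ⟨hz.1, hzm⟩
      · exact Or.inr ⟨hz, hO.not_le.mp hzm⟩
    · rintro (hz | hz)
      · exact hO.DD_init hm hz.1 hz.2
      · exact hz.1
  have hsplit2 : ∀ u v, u ≤ v → v ∈ NBA.DD S x → u ∈ NBA.DD S x →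
      {z | z ∈ NBA.DD S x ∧ u ≤ z} = Icc u v ∪ NBA.Dgt S x v := by
    intro u v huv hv hu
    ext z
    constructor
    · rintro ⟨hz1, hz2⟩
      by_cases hzv : z ≤ v
      · exact Or.inl ⟨hz2, hzv⟩
      · exact Or.inr ⟨hz1, hO.not_le.mp hzv⟩
    · rintro (⟨hz1, hz2⟩ | ⟨hz1, hz2⟩)
      · exact ⟨hO.DD_init hv (hu.1.trans hz1) hz2, hz1⟩
      · exact ⟨hz1, huv.trans (le_of_lt hz2)⟩
  refine ⟨fun c => if c ≤ m then 2 * κ₁ c else 2 * (Nat.pair (κ₂ ![m, c]) (κ₃ c)) + 1,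
    fun c hc c' hc' hcc => ?_⟩
  by_cases h1 : c ≤ m
  · have h2 : c' ≤ m := by
      by_contra h2
      simp only [if_pos h1, if_neg h2] at hcc
      omega
    simp only [if_pos h1, if_pos h2] at hcc
    have h3 := hκ₁ c ⟨hc.1, h1⟩ c' ⟨hc'.1, h2⟩ (by omega)
    have h4 := hO.comp2n hL (m := m) (m' := m) (U₁ := Icc x m) (V₁ := Icc x m)
      (U₂ := NBA.Dgt S x m) (V₂ := NBA.Dgt S x m) (fun a ha => ha.2) (fun a ha => ha.2)
      (fun a ha => ha.2) (fun a ha => ha.2) (γ := b)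
      (p₁ := insert (c, c') (dg ((insert m F : Finset M) : Set M))) (p₂ := ∅) (by
        rintro a (rfl | ⟨f, hf, rfl⟩)
        · exact ⟨⟨hc.1, h1⟩, ⟨hc'.1, h2⟩⟩
        · exact ⟨hFI' hf, hFI' hf⟩) (fun a ha => absurd ha (notMem_empty a))
      (BFR.anti (by
        rintro a (rfl | ha)
        · exact Or.inr ⟨m, by simp, rfl⟩
        · exact ha) (h3 b hb))
      (bfr_dgn S _ b (by
        rintro a (rfl | ha)
        · rfl
        · exact absurd ha (notMem_empty a)))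
    rw [← hsplit] at h4
    refine BFR.anti ?_ h4
    rintro a (rfl | ⟨f, hf, rfl⟩)
    · exact Or.inr (Or.inl (Or.inl rfl))
    · exact Or.inr (Or.inl (Or.inr ⟨f, by simp [Finset.mem_coe.mp hf], rfl⟩))
  · have h2 : ¬ c' ≤ m := by
      intro h2
      simp only [if_neg h1, if_pos h2] at hcc
      omega
    simp only [if_neg h1, if_neg h2] at hcc
    have h1' := hO.not_le.mp h1
    have h2' := hO.not_le.mp h2
    have hpair : Nat.pair (κ₂ ![m, c]) (κ₃ c) = Nat.pair (κ₂ ![m, c']) (κ₃ c') := by omega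
    obtain ⟨hp1, hp2⟩ := Nat.pair_eq_pair.mp hpair
    have h3 := hκ₂ _ _ hp1
    have hpm : (m, m) ∈ pr ![m, c] ![m, c'] := ⟨0, rfl⟩
    have hpc : (c, c') ∈ pr ![m, c] ![m, c'] := ⟨1, rfl⟩
    -- the interval between `m` and `c`
    have h4 : BFR S S (Icc m c) (Icc m c') b (insert (c, c') {(m, m)}) := by
      have h5 : BFR S S (Icc m c) (Icc m c') b (pr ![m, c] ![m, c']) := by
        refine BFR.restr₀ (subset_univ _) (subset_univ _) ?_ h3
        intro a _ d _ hab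
        exact and_congr (hO.le_congr hab (a := (m, m)) (b := (a, d)) (Or.inr hpm) (Or.inl rfl))
          (hO.le_congr hab (a := (a, d)) (b := (c, c')) (Or.inl rfl) (Or.inr hpc))
      refine BFR.anti ?_ h5
      rintro a (rfl | rfl)
      · exact hpc
      · exact hpm
    -- the rest from `c` on
    obtain ⟨v, hv, hcv, hcv', h5⟩ := hκ₃ c hc c' hc' hp2
    have h6 : BFR S S {z | z ∈ NBA.DD S x ∧ c ≤ z} {z | z ∈ NBA.DD S x ∧ c' ≤ z} b
        {(c, c')} := by
      have h7 := hO.comp2n hL (m := v) (m' := v) (U₁ := Icc c v) (V₁ := Icc c' v)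
        (U₂ := NBA.Dgt S x v) (V₂ := NBA.Dgt S x v) (fun a ha => ha.2) (fun a ha => ha.2)
        (fun a ha => ha.2) (fun a ha => ha.2) (γ := b) (p₁ := {(c, c')}) (p₂ := ∅) (by
          rintro a rfl
          exact ⟨⟨le_rfl, hcv.le⟩, ⟨le_rfl, hcv'.le⟩⟩) (fun a ha => absurd ha (notMem_empty a))
        (BFR.anti (by
          rintro a (rfl | rfl)
          · exact Or.inr rfl
          · exact Or.inl rfl) h5)
        (bfr_dgn S _ b (by
          rintro a (rfl | ha)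
          · rfl
          · exact absurd ha (notMem_empty a)))
      rw [← hsplit2 c v hcv.le hv hc, ← hsplit2 c' v hcv'.le hv hc'] at h7
      refine BFR.anti ?_ h7
      rintro a rfl
      exact Or.inr (Or.inl rfl)
    have h7 : BFR S S (NBA.Dgt S x c) (NBA.Dgt S x c') b {(c, c')} := by
      have h8 := hO.ioi hO (u := c) (u' := c') (mem_singleton _) h6
      rwa [hgt, hgt] at h8
    -- everything above `m`
    have h8 : BFR S S {z | z ∈ NBA.DD S x ∧ m ≤ z} {z | z ∈ NBA.DD S x ∧ m ≤ z} b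
        {(c, c'), (m, m)} := by
      have h9 := hO.comp2n hL (m := c) (m' := c') (U₁ := Icc m c) (V₁ := Icc m c')
        (U₂ := NBA.Dgt S x c) (V₂ := NBA.Dgt S x c') (fun a ha => ha.2) (fun a ha => ha.2)
        (fun a ha => ha.2) (fun a ha => ha.2) (γ := b) (p₁ := {(m, m)}) (p₂ := ∅) (by
          rintro a rfl
          exact ⟨⟨le_rfl, h1'.le⟩, ⟨le_rfl, h2'.le⟩⟩) (fun a ha => absurd ha (notMem_empty a))
        h4 (by
          refine BFR.anti ?_ h7
          rintro a (rfl | ha)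
          · rfl
          · exact absurd ha (notMem_empty a))
      rw [← hsplit2 m c h1'.le hc hm, ← hsplit2 m c' h2'.le hc' hm] at h9
      refine BFR.anti ?_ h9
      rintro a (rfl | rfl)
      · exact Or.inl rfl
      · exact Or.inr (Or.inl rfl)
    have h9 : BFR S S (NBA.Dgt S x m) (NBA.Dgt S x m) b {(c, c'), (m, m)} := by
      have h10 := hO.ioi hO (u := m) (u' := m) (mem_insert_of_mem _ (mem_singleton _)) h8
      rwa [hgt] at h10
    have h10 := hO.comp2n hL (m := m) (m' := m) (U₁ := Icc x m) (V₁ := Icc x m)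
      (U₂ := NBA.Dgt S x m) (V₂ := NBA.Dgt S x m) (fun a ha => ha.2) (fun a ha => ha.2)
      (fun a ha => ha.2) (fun a ha => ha.2) (γ := b) (p₁ := dg (F : Set M))
      (p₂ := {(c, c')}) (by
        rintro _ ⟨f, hf, rfl⟩
        exact ⟨hFI hf, hFI hf⟩) (by
        rintro a rfl
        exact ⟨⟨hc, h1'⟩, ⟨hc', h2'⟩⟩)
      (bfr_dgn S _ b (by
        rintro a (rfl | ⟨f, hf, rfl⟩)
        · rfl
        · rfl))
      (BFR.anti (by
        rintro a (rfl | rfl)
        · exact Or.inr rfl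
        · exact Or.inl rfl) h9)
    rw [← hsplit] at h10
    refine BFR.anti ?_ h10
    rintro a (rfl | ha)
    · exact Or.inr (Or.inr rfl)
    · exact Or.inr (Or.inl ha)

end

end Pool.Agent.Helper97.LO
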