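import Pool.Agent.T2.Nbf
import Pool.Agent.T2.Cut
import Pool.Agent.T2.Nbs2
import Pool.Agent.T2.Small
import Pool.Agent.T2.Plug
import Pool.Agent.Helper79.VCM.LS

/-!
# Nested tame intervals of labelled sums
-/

set_option autoImplicit false
set_option linter.unusedSectionVars false
set_option linter.unusedVariables false

namespace Pool.Agent.Helper97.LO

open Set Pool.Agent.Helper5.DU Pool.Agent.Helper6.Str Pool.Agent.Helper79.VC
  Pool.Agent.Helper97.VC Pool.Agent.Helper97.MD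

variable {L : FirstOrder.Language.{0, 0}} {M N P : Type}

section

variable [∀ n, IsEmpty (L.Functions n)] [∀ n, Countable (L.Relations n)]
  {K : Set (L.Structure ℕ)} {δ : Ordinal.{0}} {S : L.Structure M}
  {G : Type} [Monoid G] [Preorder M] {r : L.Relations 2} {o : Bool} {lab : M → M → G}

/-- large Scott levels occur above every element in the unbounded case -/
theorem nbl_hunb (hL : Ar2 L) (hO : LSt r o lab S) {x : M}
    (hunb : ∀ lam < om1, ∃ z ∈ NBA.DD S x, z ∉ NBA.PP S x lam) {γ : Ordinal.{0}}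
    (hγ : γ < om1) {u : M} (hu : u ∈ NBA.DD S x) :
    ∃ v ∈ NBA.DD S x, u ≤ v ∧ ¬ SL S (Icc u v) γ := by
  by_contra hcon
  push Not at hcon
  obtain ⟨α, hα, hSL⟩ := hu.2.exists_SL
  have hβ : max α γ < om1 := max_lt hα hγ
  have h1 : max α γ + Ordinal.omega0 + 1 < om1 :=
    add_one_lt_om1 (add_lt_om1 hβ omega_lt_om1)
  obtain ⟨z, hz, hzP⟩ := hunb (max α γ + Ordinal.omega0 + 1 + 1) (add_one_lt_om1 h1)
  apply hzP
  rcases hO.total u z with huz | hzu
  · refine ⟨hz.1, _, lt_add_one_self _, ?_⟩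
    have h2 := LSt.sl_concat hL hO (X := univ) hβ (x := x) (u := u) (v := z) (mem_univ u) hu.1
      huz (by rw [univ_inter]; exact hSL.mono (le_max_left _ _))
      (by rw [univ_inter]; exact (hcon z hz huz).mono (le_max_right _ _))
    rwa [univ_inter] at h2
  · refine ⟨hz.1, α + Ordinal.omega0, ?_, ?_⟩
    · refine lt_of_le_of_lt ?_ (lt_add_one_self _)
      refine le_trans ?_ (lt_add_one_self _).le
      gcongr
      exact le_max_left _ _
    · have hx : x ∈ Icc x u := ⟨le_rfl, hu.1⟩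
      have hz' : z ∈ Icc x u := ⟨hz.1, hzu⟩
      have h2 := LSt.sl_icc hL hO (X := Icc x u) hSL hx hz'
      have h3 : Icc x u ∩ Icc x z = Icc x z := by
        refine inter_eq_self_of_subset_right ?_
        exact fun w hw => ⟨hw.1, hw.2.trans hzu⟩
      rwa [h3] at h2

/-- **Nested tame intervals of labelled sums.** -/
theorem nb_lab [Finite G] (hL : Ar2 L) (hS : VSt K δ S) (hO : LSt r o lab S) (x : M) :
    TameX S {y | x ≤ y ∧ TameX S (Icc x y)} := by
  classical
  by_cases hcof : ∃ C : Set M, C.Countable ∧ C ⊆ NBA.DD S x ∧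
      ∀ y ∈ NBA.DD S x, ∃ c ∈ C, y ≤ c
  · obtain ⟨C, h1, h2, h3⟩ := hcof
    exact LSt.tame_of_cofinal hL hO h1 h2 h3
  · have hnc : ∀ C : Set M, C.Countable → C ⊆ NBA.DD S x →
        ∃ v ∈ NBA.DD S x, ∀ c ∈ C, c < v := by
      intro C hC hCD
      by_contra hcon
      refine hcof ⟨C, hC, hCD, fun y hy => ?_⟩
      by_contra hcon'
      push Not at hcon'
      exact hcon ⟨y, hy, fun c hc => hO.not_le.mp (hcon' c hc)⟩
    obtain ⟨v₀, hv₀, -⟩ := hnc ∅ countable_empty (empty_subset _)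
    have hxD : x ∈ NBA.DD S x := LSt.DD_init hO hv₀ le_rfl hv₀.1
    obtain ⟨J, u₀, hxu, hB⟩ := exists_bse (G := G) (D := NBA.DD S x) (lab := lab) hO.total
      hO.mul hxD
    have hlast : ∀ y ∈ NBA.DD S x, ∃ z ∈ NBA.DD S x, y < z := by
      intro y hy
      obtain ⟨v, hv, h⟩ := hnc {y} (countable_singleton y) (singleton_subset_iff.mpr hy)
      exact ⟨v, hv, h y rfl⟩
    have hini : ∀ y ∈ NBA.DD S x, ∀ z, u₀ ≤ z → z ≤ y → z ∈ NBA.DD S x :=
      fun y hy z h1 h2 => LSt.DD_init hO hy (hxu.trans h1) h2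
    have ht : ∀ v ∈ NBA.DD S x, TameX S (Icc u₀ v) := fun v hv => LSt.DD_tame hO hB.mem hv
    have hV : ∃ (K' : Set ((EL L (G × Set G)).Structure ℕ)) (δ' : Ordinal.{0}),
        VSt K' δ' (nbS S (NBA.DD S x) u₀ lab J) := by
      by_cases hb : ∃ lam < om1, NBA.DD S x ⊆ NBA.PP S x lam
      · obtain ⟨lam, hlam, hb⟩ := hb
        exact nbS_vst_bounded hL hS hO hB hlast hlam hb
      · have hunb : ∀ lam < om1, ∃ z ∈ NBA.DD S x, z ∉ NBA.PP S x lam := by
          intro lam hlam
          by_contra h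
          push Not at h
          exact hb ⟨lam, hlam, h⟩
        have hsm := nbS_small hL hO hB (LSt.small_of_unb hL hS hO x hunb)
        have hne : Nonempty (Dge (NBA.DD S x) u₀) := ⟨bpt hB⟩
        have hnm : NoMaxOrder (Dge (NBA.DD S x) u₀) := by
          refine ⟨fun a => ?_⟩
          obtain ⟨z, hz, haz⟩ := hlast a.1 a.2.1
          exact ⟨⟨z, hz, a.2.2.trans haz.le⟩, haz⟩
        have hinf : Infinite (Dge (NBA.DD S x) u₀) := NoMaxOrder.infinite
        exact VSt.plug hS (Subtype.val : Dge (NBA.DD S x) u₀ → M) Subtype.val_injective hsm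
          (fun p _ h Q hQ => nbS_out hL hO hB hini p h Q hQ) (bpt hB) omega_lt_om1
          (fun p hp h => nbS_def hL hO hB p hp h)
          (fun A hA => nbS_cut hL hO hB hini
            (fun γ hγ u hu _ => nbl_hunb hL hO hunb hγ hu) A hA)
    obtain ⟨K', δ', hV⟩ := hV
    exact tame_of_nbS hL hO hB (@ls (EL L (G × Set G)) (Dge (NBA.DD S x) u₀) _ _ K' δ'
      (nbS S (NBA.DD S x) u₀ lab J) (cPre hB) (nb2 L (G × Set G)) true (ar2_EL hL) hV
      (nbS_ost hL hO hB) (fun y => nbS_part hL hO hB hini ht hnc y))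

theorem nb_lab_dual [Finite G] (hL : Ar2 L) (hS : VSt K δ S) (hO : LSt r o lab S) (x : M) :
    TameX S {y | y ≤ x ∧ TameX S (Icc y x)} := by
  have hfin : Finite Gᵐᵒᵖ := Finite.of_equiv G MulOpposite.opEquiv
  have h := @nb_lab L M _ _ K δ S Gᵐᵒᵖ _ (dualPre M) r (!o)
    (fun a b => MulOpposite.op (lab b a)) hfin hL hS hO.dual x
  have e1 : ∀ y : M, @Icc M (dualPre M) x y = Icc y x := by
    intro y
    ext z
    exact and_comm
  have e2 : {y | @LE.le M (dualPre M).toLE x y ∧ TameX S (@Icc M (dualPre M) x y)} =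
      {y | y ≤ x ∧ TameX S (Icc y x)} := by
    ext y
    rw [mem_ofPred_eq, mem_ofPred_eq, e1]
    exact Iff.rfl
  rw [e2] at h
  exact h

end

end Pool.Agent.Helper97.LO
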