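import Pool.Agent.T2.TelTr
import Pool.Agent.T2.Nbl

/-!
# The classes of the equivalence given by tame intervals are tame
-/

set_option autoImplicit false
set_option linter.unusedSectionVars false
set_option linter.unusedVariables false

namespace Pool.Agent.Helper97.LO

open Set Pool.Agent.Helper5.DU Pool.Agent.Helper6.Str Pool.Agent.Helper79.VC
  Pool.Agent.Helper97.VC Pool.Agent.Helper97.MD

variable {L : FirstOrder.Language.{0, 0}} {M : Type}

variable [∀ n, IsEmpty (L.Functions n)] [∀ n, Countable (L.Relations n)]
  {K : Set (L.Structure ℕ)} {δ : Ordinal.{0}} {S : L.Structure M}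
  {G : Type} [Monoid G] [Preorder M] {r : L.Relations 2} {o : Bool} {lab : M → M → G}

/-- the classes are tame -/
theorem LSt.te_class [Finite G] (hL : Ar2 L) (hS : VSt K δ S) (hO : LSt r o lab S)
    (h : ∀ y, TameX S {z : M | z ≤ y ∧ y ≤ z}) (x : M) : TameX S {y | TE S x y} :=
  hO.te_class_of hL h x (nb_lab hL hS hO x) (nb_lab_dual hL hS hO x)

end Pool.Agent.Helper97.LO
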