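import Pool.Agent.T2.Small
import Pool.Agent.T2.Exp
import Pool.Agent.T2.TeClass
import Pool.Agent.Helper97.VCM.Fin
import Pool.Agent.Helper97.VCM.Tree3

/-!
# Homogeneous labelled sums: tame intervals cover everything
-/

set_option autoImplicit false
set_option linter.unusedSectionVars false
set_option linter.unusedVariables false

namespace Pool.Agent.Helper97.LO

open Set Pool.Agent.Helper5.DU Pool.Agent.Helper6.Str Pool.Agent.Helper79.VC
  Pool.Agent.Helper97.VC Pool.Agent.Helper97.MD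

variable {L : FirstOrder.Language.{0, 0}} {M N P : Type}

section

variable {G : Type} [Monoid G] [Preorder M] {r : L.Relations 2} {o : Bool} {lab : M → M → G}
  {S : L.Structure M}

/-! ### the order facts in an equivalent structure -/

/-- `r` is a total preorder -/
structure ROrd (r : L.Relations 2) (T : L.Structure N) : Prop where
  refl : ∀ a, T.RelMap r ![a, a]
  total : ∀ a b, T.RelMap r ![a, b] ∨ T.RelMap r ![b, a]
  trans : ∀ a b c, T.RelMap r ![a, b] → T.RelMap r ![b, c] → T.RelMap r ![a, c]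

theorem LSt.rel_iff (hO : LSt r o lab S) (a b : M) :
    S.RelMap r ![a, b] ↔ (if o then a ≤ b else b ≤ a) := by
  cases o
  · simpa using (hO.le_iff b a).symm
  · simpa using (hO.le_iff a b).symm

theorem LSt.rOrd (hO : LSt r o lab S) {T : L.Structure N}
    (h : BFR T S univ univ Ordinal.omega0 ∅) : ROrd r T := by
  have hS := hO.rel_iff
  refine ⟨fun a => ?_, fun a b => ?_, fun a b c h1 h2 => ?_⟩
  · obtain ⟨a', b', c', d', h1⟩ := pull4 h a a a a
    rw [rel_of_atEq h1 (R := r) (a := a) (b := a) (a' := a') (b' := a') (by simp) (by simp), hS]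
    split_ifs <;> exact le_rfl
  · obtain ⟨a', b', c', d', h1⟩ := pull4 h a b a a
    rw [rel_of_atEq h1 (R := r) (a := a) (b := b) (a' := a') (b' := b') (by simp) (by simp),
      rel_of_atEq h1 (R := r) (a := b) (b := a) (a' := b') (b' := a') (by simp) (by simp), hS, hS]
    have := hO.total a' b'
    split_ifs <;> tauto
  · obtain ⟨a', b', c', d', h3⟩ := pull4 h a b c a
    rw [rel_of_atEq h3 (R := r) (a := a) (b := b) (a' := a') (b' := b') (by simp) (by simp), hS] at h1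
    rw [rel_of_atEq h3 (R := r) (a := b) (b := c) (a' := b') (b' := c') (by simp) (by simp), hS] at h2
    rw [rel_of_atEq h3 (R := r) (a := a) (b := c) (a' := a') (b' := c') (by simp) (by simp), hS]
    split_ifs at h1 h2 ⊢
    · exact h1.trans h2
    · exact h2.trans h1

theorem hullr_of_leR {T : L.Structure N} (hT : ROrd r T) {x y : N} (hxy : T.RelMap r ![x, y]) :
    hullr r N T x y = {z | T.RelMap r ![x, z] ∧ T.RelMap r ![z, y]} := by
  ext z
  constructor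
  · rintro (h | ⟨h1, h2⟩)
    · exact h
    · exact ⟨hT.trans _ _ _ hxy h1, hT.trans _ _ _ h2 hxy⟩
  · intro h
    exact Or.inl h

/-! ### cross pairs -/

theorem LSt.te_refl (h : ∀ y, TameX S {z : M | z ≤ y ∧ y ≤ z}) (x : M) : TE S x x :=
  TE.refl h x

theorem LSt.crossRule_te [∀ n, IsEmpty (L.Functions n)] [∀ n, Countable (L.Relations n)]
    (hL : Ar2 L) (hO : LSt r o lab S)
    (h : ∀ y, TameX S {z : M | z ≤ y ∧ y ≤ z})
    (hcr : ∀ a b a' b' : M, a ≤ b → ¬ TE S a b → a' ≤ b' → ¬ TE S a' b' →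
      AtEq S S {(a, a')} → AtEq S S {(b, b')} → lab a b = lab a' b') :
    CrossRule S (TE S) := by
  intro p hp hpx
  have key : ∀ a ∈ p, ∀ b ∈ p, a.1 ≤ b.1 → ¬ TE S a.1 b.1 → AtEq S S {(a.1, a.2)} →
      AtEq S S {(b.1, b.2)} → AtEq S S {(a.1, a.2), (b.1, b.2)} := by
    intro a ha b hb h3 hab h1 h2
    have h4 := hO.te_lt_of hL h h3 hab (TE.refl h _) (TE.refl h _)
    have h5 := hO.te_lt_of hL h h3 hab (hp a ha) (hp b hb)
    have h6 : ¬ TE S a.2 b.2 := fun h' =>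
      hab (hO.te_trans hL (hO.te_trans hL (hp a ha) h') (hp b hb).symm)
    exact hO.cross _ _ _ _ h4 h5 (hcr _ _ _ _ h3 hab h5.le h6 h1 h2) h1 h2
  refine atEq_of_pairs hL fun a ha b hb => ?_
  by_cases hab : TE S a.1 b.1
  · refine AtEq.anti ?_ (hpx a.1)
    rintro c (rfl | rfl)
    · exact ⟨ha, TE.refl h _⟩
    · exact ⟨hb, hab⟩
  · have h1 : AtEq S S {(a.1, a.2)} := AtEq.anti (by
      rintro c rfl
      exact ⟨ha, TE.refl h _⟩) (hpx a.1)
    have h2 : AtEq S S {(b.1, b.2)} := AtEq.anti (by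
      rintro c rfl
      exact ⟨hb, TE.refl h _⟩) (hpx b.1)
    rcases hO.total a.1 b.1 with h3 | h3
    · exact key a ha b hb h3 hab h1 h2
    · rw [pair_comm]
      exact key b hb a ha h3 (fun h' => hab h'.symm) h2 h1

end

section

variable [∀ n, IsEmpty (L.Functions n)] [∀ n, Countable (L.Relations n)]
  {K : Set (L.Structure ℕ)} {δ : Ordinal.{0}} {S : L.Structure M}
  {G : Type} [Monoid G] [Preorder M] {r : L.Relations 2} {o : Bool} {lab : M → M → G}

/-! ### the piece -/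

/-- tameness of an interval is definable if there is a bound for the Scott levels -/
theorem LSt.te_iff_sl (hS : VSt K δ S) (hO : LSt r o lab S)
    {ρ : Ordinal.{0}} (hρ : ρ < om1) {x₀ y₀ : M}
    (hsl : ∀ u v, x₀ ≤ u → u ≤ v → v ≤ y₀ → TameX S (Icc u v) → SL S (Icc u v) ρ) {u v : M}
    (h1 : x₀ ≤ u) (h2 : u ≤ v) (h3 : v ≤ y₀) : TE S u v ↔ SL S (Icc u v) ρ :=
  ⟨fun h => hsl u v h1 h2 h3 (hO.te_tame h h2),
    fun h => TE.of_le h2 (SL.tame (LSt.Icc_small hS hO u v) hρ h)⟩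

theorem LSt.te_congr (hS : VSt K δ S) (hO : LSt r o lab S)
    {ρ : Ordinal.{0}} (hρ : ρ < om1) {x₀ y₀ : M}
    (hsl : ∀ u v, x₀ ≤ u → u ≤ v → v ≤ y₀ → TameX S (Icc u v) → SL S (Icc u v) ρ)
    {p : Set (M × M)} (hp : BFR S S univ univ (ρ + Ordinal.omega0) p) {u v u' v' : M}
    (hu : (u, u') ∈ p) (hv : (v, v') ∈ p) (hux : x₀ ≤ u) (hvy : v ≤ y₀) (hux' : x₀ ≤ u')
    (hvy' : v' ≤ y₀) (huv : u ≤ v) : TE S u v ↔ TE S u' v' := by
  have huv' : u' ≤ v' := (hO.le_congr hp.atEq hu hv).mp huv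
  have h1 := hO.icc hO hu hv hp
  rw [univ_inter, univ_inter] at h1
  have h2 := BFR.anti (empty_subset _) h1
  rw [LSt.te_iff_sl hS hO hρ hsl hux huv hvy, LSt.te_iff_sl hS hO hρ hsl hux' huv' hvy']
  constructor
  · intro h
    exact h.congr hρ h2
  · intro h
    exact h.congr hρ (h2.symm fun a ha => absurd ha (notMem_empty a))

/-- the coarse relation given by the order and tame intervals -/
def crl (S : L.Structure M) (a b : M) : Prop := a ≤ b ∨ TE S a b

theorem LSt.crl_trans (hL : Ar2 L) (hO : LSt r o lab S) {a b c : M} (h1 : crl S a b)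
    (h2 : crl S b c) : crl S a c := by
  rcases h1 with h1 | h1 <;> rcases h2 with h2 | h2
  · exact Or.inl (h1.trans h2)
  · rcases hO.total a c with h3 | h3
    · exact Or.inl h3
    · exact Or.inr (hO.te_left h2.symm h3 h1).symm
  · rcases hO.total a c with h3 | h3
    · exact Or.inl h3
    · exact Or.inr (hO.te_right h1.symm h2 h3).symm
  · exact Or.inr (hO.te_trans hL h1 h2)

theorem LSt.crl_iff (hL : Ar2 L) (hO : LSt r o lab S)
    (h : ∀ y, TameX S {z : M | z ≤ y ∧ y ≤ z}) {a b : M} :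
    crl S a b ∧ ¬ crl S b a ↔ a ≤ b ∧ ¬ TE S a b := by
  constructor
  · rintro ⟨h1, h2⟩
    have h3 : ¬ TE S a b := fun h' => h2 (Or.inr h'.symm)
    exact ⟨h1.resolve_right h3, h3⟩
  · rintro ⟨h1, h2⟩
    refine ⟨Or.inl h1, ?_⟩
    rintro (h3 | h3)
    · have h4 := hO.te_lt_of hL h h1 h2 (TE.refl h _) (TE.refl h _)
      exact absurd h3 (lt_iff_le_not_ge.mp h4).2
    · exact h2 h3.symm

theorem LSt.crl_te (hL : Ar2 L) (hO : LSt r o lab S)
    (h : ∀ y, TameX S {z : M | z ≤ y ∧ y ≤ z}) {a b : M} :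
    crl S a b ∧ crl S b a ↔ TE S a b := by
  constructor
  · rintro ⟨h1, h2⟩
    rcases h1 with h1 | h1
    · by_contra h3
      exact ((hO.crl_iff hL h).mpr ⟨h1, h3⟩).2 h2
    · exact h1
  · intro h1
    exact ⟨Or.inr h1, Or.inr h1.symm⟩

/-- the coarse preorder on a piece -/
@[reducible]
def crPre (hL : Ar2 L) (hO : LSt r o lab S) (X : Set M) : Preorder X where
  le a b := crl S a.1 b.1
  lt a b := crl S a.1 b.1 ∧ ¬ crl S b.1 a.1
  le_refl a := Or.inl le_rfl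
  le_trans _ _ _ h1 h2 := hO.crl_trans hL h1 h2
  lt_iff_le_not_ge _ _ := Iff.rfl

/-- the data over the end points -/
def edat (lab : M → M → G) (x₀ y₀ : M) (z : M) : G × G := (lab x₀ z, lab z y₀)

theorem LSt.edat_congr (hO : LSt r o lab S) {x₀ y₀ : M} {p : Set (M × M)} (hp : AtEq S S p)
    (hx : (x₀, x₀) ∈ p) (hy : (y₀, y₀) ∈ p) {z z' : M} (hz : (z, z') ∈ p)
    (hzX : z ∈ Icc x₀ y₀) : edat lab x₀ y₀ z = edat lab x₀ y₀ z' := by
  refine Prod.ext ?_ ?_
  · refine hO.inv _ _ _ _ hzX.1 (AtEq.anti ?_ hp)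
    rintro c (rfl | rfl)
    · exact hx
    · exact hz
  · refine hO.inv _ _ _ _ hzX.2 (AtEq.anti ?_ hp)
    rintro c (rfl | rfl)
    · exact hz
    · exact hy

/-- the data are determined over the end points of a smaller interval -/
theorem LSt.edat_congr_sub (hO : LSt r o lab S) {x₀ y₀ u v : M} {p : Set (M × M)}
    (hp : AtEq S S p) (hu : (u, u) ∈ p) (hv : (v, v) ∈ p) (hxu : x₀ ≤ u) (hvy : v ≤ y₀)
    {z z' : M} (hz : (z, z') ∈ p) (hzX : z ∈ Icc u v) :
    edat lab x₀ y₀ z = edat lab x₀ y₀ z' := by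
  have h1 := hO.edat_congr hp hu hv hz hzX
  have h2 : lab u z = lab u z' := congrArg Prod.fst h1
  have h3 : lab z v = lab z' v := congrArg Prod.snd h1
  have h4 : u ≤ z' := (hO.le_congr hp hu hz).mp hzX.1
  have h5 : z' ≤ v := (hO.le_congr hp hz hv).mp hzX.2
  refine Prod.ext ?_ ?_
  · show lab x₀ z = lab x₀ z'
    rw [hO.mul _ _ _ hxu hzX.1, hO.mul _ _ _ hxu h4, h2]
  · show lab z y₀ = lab z' y₀
    rw [hO.mul _ _ _ hzX.2 hvy, hO.mul _ _ _ h5 hvy, h3]

/-- the relations to elements outside of the interval -/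
theorem LSt.edat_out (hO : LSt r o lab S) {x₀ y₀ : M} {g : M} (hg : g ∉ Icc x₀ y₀) {z z' : M}
    (hz : z ∈ Icc x₀ y₀) (hz' : z' ∈ Icc x₀ y₀) (hd : edat lab x₀ y₀ z = edat lab x₀ y₀ z')
    (h : AtEq S S {(z, z')}) : AtEq S S {(g, g), (z, z')} := by
  have h2 : lab x₀ z = lab x₀ z' := congrArg Prod.fst hd
  have h3 : lab z y₀ = lab z' y₀ := congrArg Prod.snd hd
  have hgg : AtEq S S {(g, g)} := by
    refine (BFR.refl S univ 0 ?_).atEq
    rintro c rfl
    exact ⟨mem_univ _, rfl⟩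
  by_cases hx : x₀ ≤ g
  · have hy : ¬ g ≤ y₀ := fun h' => hg ⟨hx, h'⟩
    have hy' := hO.lt_of_not_le hy
    rw [pair_comm]
    refine hO.cross _ _ _ _ (hz.2.trans_lt hy') (hz'.2.trans_lt hy') ?_ h hgg
    rw [hO.mul _ _ _ hz.2 hy'.le, hO.mul _ _ _ hz'.2 hy'.le, h3]
  · have hx' := hO.lt_of_not_le hx
    refine hO.cross _ _ _ _ (hx'.trans_le hz.1) (hx'.trans_le hz'.1) ?_ hgg h
    rw [hO.mul _ _ _ hx'.le hz.1, hO.mul _ _ _ hx'.le hz'.1, h2]

/-- the interval with the labels to the end points -/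
@[reducible]
def ipc (S : L.Structure M) (lab : M → M → G) (x₀ y₀ : M) (rel : M → M → Prop) :
    (EL L (G × G)).Structure (Icc x₀ y₀) :=
  exS (pl S (Subtype.val : Icc x₀ y₀ → M)) (fun z => edat lab x₀ y₀ z.1) fun z w => rel z.1 w.1

theorem LSt.icc_infinite {x₀ y₀ : M} (hxy : x₀ ≤ y₀) (hne : ¬ TE S x₀ y₀) :
    Infinite (Icc x₀ y₀) := by
  by_contra hfin
  rw [not_infinite_iff_finite] at hfin
  exact hne (TE.of_le hxy (tameX_of_countable (toFinite _).countable))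

/-- the interval as a large structure -/
theorem LSt.ipc_vst [Finite G] (hL : Ar2 L) (hS : VSt K δ S) (hO : LSt r o lab S)
    {x₀ y₀ : M} (hxy : x₀ ≤ y₀) (hne : ¬ TE S x₀ y₀) (rel : M → M → Prop)
    {η : Ordinal.{0}} (hη : η < om1)
    (hrel : ∀ z ∈ Icc x₀ y₀, ∀ w ∈ Icc x₀ y₀, ∀ z' ∈ Icc x₀ y₀, ∀ w' ∈ Icc x₀ y₀,
      ∀ p : Set (M × M), (z, z') ∈ p → (w, w') ∈ p →
      BFR S S univ univ η p → (rel z w ↔ rel z' w')) :
    ∃ (K' : Set ((EL L (G × G)).Structure ℕ)) (δ' : Ordinal.{0}),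
      VSt K' δ' (ipc S lab x₀ y₀ rel) := by
  classical
  have hinf := LSt.icc_infinite (S := S) hxy hne
  refine VSt.piece hL hS (Icc x₀ y₀) (edat lab x₀ y₀) rel {x₀, y₀} hη ?_ ?_ ?_ ?_
  · intro c c' h
    have m1 : (x₀, x₀) ∈ insert (c, c') (dg (({x₀, y₀} : Finset M) : Set M)) :=
      mem_insert_of_mem _ ⟨x₀, by simp, rfl⟩
    have m2 : (y₀, y₀) ∈ insert (c, c') (dg (({x₀, y₀} : Finset M) : Set M)) :=
      mem_insert_of_mem _ ⟨y₀, by simp, rfl⟩
    have m3 : (c, c') ∈ insert (c, c') (dg (({x₀, y₀} : Finset M) : Set M)) :=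
      mem_insert _ _
    exact and_congr (hO.le_congr h.atEq m1 m3) (hO.le_congr h.atEq m3 m2)
  · intro z hz z' hz' h
    exact hO.edat_congr h.atEq (mem_insert_of_mem _ ⟨x₀, by simp, rfl⟩)
      (mem_insert_of_mem _ ⟨y₀, by simp, rfl⟩) (mem_insert _ _) hz
  · intro z hz w hw z' hz' w' hw' h
    exact hrel z hz w hw z' hz' w' hw' _ (mem_insert _ _)
      (mem_insert_of_mem _ (mem_insert _ _)) h
  · intro g hg z hz z' hz' hd h
    exact hO.edat_out hg hz hz' hd h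

/-- the interval as a labelled sum -/
theorem LSt.ipc_lst (hL : Ar2 L) (hO : LSt r o lab S) {x₀ y₀ : M} :
    LSt (old (C := G × G) r) o (fun a b : Icc x₀ y₀ => lab a.1 b.1)
      (ipc S lab x₀ y₀ fun _ _ => True) :=
  hO.piece hL (Icc x₀ y₀) (edat lab x₀ y₀) (fun _ _ => True)
    fun a b a' b' _ _ _ _ _ => ⟨Iff.rfl, Iff.rfl⟩

theorem val_Icc {x₀ y₀ : M} (u v : Icc x₀ y₀) :
    (Subtype.val : Icc x₀ y₀ → M) '' Icc u v = Icc u.1 v.1 := by
  ext z
  constructor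
  · rintro ⟨w, hw, rfl⟩
    exact ⟨hw.1, hw.2⟩
  · intro hz
    exact ⟨⟨z, u.2.1.trans hz.1, hz.2.trans v.2.2⟩, ⟨hz.1, hz.2⟩, rfl⟩

/-- pieces of the interval -/
theorem LSt.ipc_reduct {x₀ y₀ : M} {rel : M → M → Prop} {Z : Set (Icc x₀ y₀)}
    (h : TameX (ipc S lab x₀ y₀ rel) Z) : TameX S ((Subtype.val : Icc x₀ y₀ → M) '' Z) := by
  rw [← tameX_pl Subtype.val_injective]
  refine h.reduct fun p hp hpX hat => ?_
  exact (atEq_exS.mp hat).1

theorem LSt.ipc_icc (hL : Ar2 L) (hO : LSt r o lab S) {x₀ y₀ : M} {u v : Icc x₀ y₀} :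
    TameX (ipc S lab x₀ y₀ fun _ _ => True) (Icc u v) ↔ TameX S (Icc u.1 v.1) := by
  classical
  constructor
  · intro h
    have := LSt.ipc_reduct h
    rwa [val_Icc] at this
  · intro h
    rw [← val_Icc, ← tameX_pl Subtype.val_injective] at h
    by_cases huv : u ≤ v
    · refine h.expand {u, v} ?_ (η := 0) zero_lt_om1 ?_
      · intro z hz
        rw [Finset.coe_insert, Finset.coe_singleton] at hz
        rcases hz with rfl | rfl
        · exact ⟨le_rfl, huv⟩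
        · exact ⟨huv, le_rfl⟩
      · intro p hp hpX hF hb
        refine atEq_exS.mpr ⟨hb.atEq, ?_, fun a _ b _ => Iff.rfl⟩
        intro a ha
        have h1 := (TR.atEq_pl Subtype.val_injective).mp hb.atEq
        refine hO.edat_congr_sub (u := u.1) (v := v.1) h1 ?_ ?_ u.2.1 v.2.2
          ⟨a, ha, rfl⟩ ⟨(hpX a ha).1.1, (hpX a ha).1.2⟩
        · exact ⟨(u, u), hF ⟨u, by simp, rfl⟩, rfl⟩
        · exact ⟨(v, v), hF ⟨v, by simp, rfl⟩, rfl⟩
    · have : Icc u v = ∅ := Icc_eq_empty huv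
      rw [this]
      exact tameX_of_countable countable_empty

theorem LSt.ipc_te (hL : Ar2 L) (hO : LSt r o lab S) {x₀ y₀ : M} {u v : Icc x₀ y₀} :
    TE (ipc S lab x₀ y₀ fun _ _ => True) u v ↔ TE S u.1 v.1 := by
  unfold TE
  rw [hO.ipc_icc hL, hO.ipc_icc hL]
  rfl

theorem LSt.ipc_cls (hL : Ar2 L) (hO : LSt r o lab S) {x₀ y₀ : M}
    (h : ∀ y, TameX S {z : M | z ≤ y ∧ y ≤ z}) (y : Icc x₀ y₀) :
    TameX (ipc S lab x₀ y₀ fun _ _ => True) {z | z ≤ y ∧ y ≤ z} := by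
  have h1 : TameX (ipc S lab x₀ y₀ fun _ _ => True) (Icc y y) := by
    rw [hO.ipc_icc hL]
    exact (hO.te_tame (TE.refl h y.1) le_rfl)
  have e : {z : Icc x₀ y₀ | z ≤ y ∧ y ≤ z} = Icc y y := by
    ext z
    exact and_comm
  rwa [e]

/-- the bounded case, reduced to unlabelled sums by the coarse order given by tame intervals -/
theorem hom_bounded [Finite G] (hL : Ar2 L) (hS : VSt K δ S) (hO : LSt r o lab S)
    (h : ∀ y, TameX S {z : M | z ≤ y ∧ y ≤ z})
    (hcr : ∀ a b a' b' : M, a ≤ b → ¬ TE S a b → a' ≤ b' → ¬ TE S a' b' →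
      AtEq S S {(a, a')} → AtEq S S {(b, b')} → lab a b = lab a' b')
    {ρ : Ordinal.{0}} (hρ : ρ < om1) {x₀ y₀ : M} (hxy : x₀ ≤ y₀) (hne : ¬ TE S x₀ y₀)
    (hsl : ∀ u v, x₀ ≤ u → u ≤ v → v ≤ y₀ → TameX S (Icc u v) → SL S (Icc u v) ρ) : False := by
  classical
  obtain ⟨K1, δ1, hS1⟩ := LSt.ipc_vst hL hS hO hxy hne (fun _ _ => True) zero_lt_om1
    (fun _ _ _ _ _ _ _ _ _ _ _ _ => Iff.rfl)
  have hO1 := hO.ipc_lst (x₀ := x₀) (y₀ := y₀) hL
  have hL1 : Ar2 (EL L (G × G)) := ar2_EL hL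
  have hc1 := fun x => hO1.te_class hL1 hS1 (hO.ipc_cls hL h) x
  obtain ⟨K3, δ3, hS3⟩ := LSt.ipc_vst hL hS hO hxy hne (crl S)
    (add_lt_om1 hρ omega_lt_om1) (by
      intro z hz w hw z' hz' w' hw' p h1 h2 hp
      have h3 := hO.le_congr hp.atEq h1 h2
      have h3' : z ≤ w ↔ z' ≤ w' := h3
      by_cases hzw : z ≤ w
      · exact iff_of_true (Or.inl hzw) (Or.inl (h3'.mp hzw))
      · have hwz := (hO.total z w).resolve_left hzw
        have h4 := LSt.te_congr hS hO hρ hsl hp h2 h1 hw.1 hz.2 hw'.1 hz'.2 hwz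
        have hzw' : ¬ z' ≤ w' := fun h' => hzw (h3'.mpr h')
        constructor
        · intro h5
          exact Or.inr (h4.mp (h5.resolve_left hzw).symm).symm
        · intro h5
          exact Or.inr (h4.mpr (h5.resolve_left hzw').symm).symm)
  have hO3 : @OSt (EL L (G × G)) (Icc x₀ y₀) (crPre hL hO (Icc x₀ y₀)) (nb2 L (G × G)) true
      (ipc S lab x₀ y₀ (crl S)) := by
    refine @OSt.mk (EL L (G × G)) (Icc x₀ y₀) (crPre hL hO (Icc x₀ y₀)) _ _ _ ?_ ?_ ?_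
    · intro a b
      rcases hO.total a.1 b.1 with h1 | h1
      · exact Or.inl (Or.inl h1)
      · exact Or.inr (Or.inl h1)
    · intro a b
      exact Iff.rfl
    · intro a b a' b' hab hab' ha hb
      have h1 := (hO.crl_iff hL h).mp hab
      have h1' := (hO.crl_iff hL h).mp hab'
      obtain ⟨ha1, ha2, -⟩ := atEq_exS.mp ha
      obtain ⟨hb1, hb2, -⟩ := atEq_exS.mp hb
      rw [TR.atEq_pl Subtype.val_injective, image_singleton] at ha1 hb1
      have h2 := hcr _ _ _ _ h1.1 h1.2 h1'.1 h1'.2 ha1 hb1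
      have hlt := hO.te_lt_of hL h h1.1 h1.2 (TE.refl h _) (TE.refl h _)
      have hlt' := hO.te_lt_of hL h h1'.1 h1'.2 (TE.refl h _) (TE.refl h _)
      have h3 := hO.cross _ _ _ _ hlt hlt' h2 ha1 hb1
      refine atEq_exS.mpr ⟨?_, ?_, ?_⟩
      · rw [TR.atEq_pl Subtype.val_injective, image_pair]
        exact h3
      · rintro c (rfl | rfl)
        · exact ha2 _ rfl
        · exact hb2 _ rfl
      · rintro c (rfl | rfl) d (rfl | rfl)
        · exact iff_of_true (Or.inl le_rfl) (Or.inl le_rfl)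
        · exact iff_of_true hab.1 hab'.1
        · exact iff_of_false hab.2 hab'.2
        · exact iff_of_true (Or.inl le_rfl) (Or.inl le_rfl)
  have hc3 : ∀ y : Icc x₀ y₀, TameX (ipc S lab x₀ y₀ (crl S))
      {z | crl S z.1 y.1 ∧ crl S y.1 z.1} := by
    intro y
    have e : {z : Icc x₀ y₀ | crl S z.1 y.1 ∧ crl S y.1 z.1} =
        {z | TE (ipc S lab x₀ y₀ fun _ _ => True) y z} := by
      ext z
      show (crl S z.1 y.1 ∧ crl S y.1 z.1) ↔ TE (ipc S lab x₀ y₀ fun _ _ => True) y z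
      rw [hO.crl_te hL h, hO.ipc_te hL]
      exact ⟨TE.symm, TE.symm⟩
    rw [e]
    refine (hc1 y).reduct fun p hp hpX hat => ?_
    obtain ⟨h1, h2, -⟩ := atEq_exS.mp hat
    refine atEq_exS.mpr ⟨h1, h2, fun a ha b hb => ?_⟩
    have h3 : ∀ u v : Icc x₀ y₀, TE (ipc S lab x₀ y₀ fun _ _ => True) y u →
        TE (ipc S lab x₀ y₀ fun _ _ => True) y v → crl S u.1 v.1 := by
      intro u v hu hv
      rw [hO.ipc_te hL] at hu hv
      exact Or.inr (hO.te_trans hL hu.symm hv)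
    exact iff_of_true (h3 _ _ (hpX a ha).1 (hpX b hb).1) (h3 _ _ (hpX a ha).2 (hpX b hb).2)
  have h4 : TameX (ipc S lab x₀ y₀ (crl S)) univ :=
    @ls (EL L (G × G)) (Icc x₀ y₀) _ _ K3 δ3 (ipc S lab x₀ y₀ (crl S))
      (crPre hL hO (Icc x₀ y₀)) (nb2 L (G × G)) true hL1 hS3 hO3 hc3
  have h5 := LSt.ipc_reduct h4
  rw [image_univ, Subtype.range_coe] at h5
  exact hne (TE.of_le hxy h5)

/-- **Homogeneous labelled sums of tame structures.** -/
theorem ls_hom [Finite G] (hL : Ar2 L) (hS : VSt K δ S) (hO : LSt r o lab S)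
    (h : ∀ y, TameX S {z : M | z ≤ y ∧ y ≤ z})
    (hcr : ∀ a b a' b' : M, a ≤ b → ¬ TE S a b → a' ≤ b' → ¬ TE S a' b' →
      AtEq S S {(a, a')} → AtEq S S {(b, b')} → lab a b = lab a' b') (x y : M) : TE S x y := by
  by_cases hcase : ∃ (x₀ y₀ : M) (ρ : Ordinal.{0}), ρ < om1 ∧ x₀ ≤ y₀ ∧ ¬ TE S x₀ y₀ ∧
      ∀ u v, x₀ ≤ u → u ≤ v → v ≤ y₀ → TameX S (Icc u v) → SL S (Icc u v) ρ
  · obtain ⟨x₀, y₀, ρ, h1, h2, h3, h4⟩ := hcase
    exact (hom_bounded hL hS hO h hcr h1 h2 h3 h4).elim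
  · push Not at hcase
    have hE : Equivalence (TE S) :=
      ⟨TE.refl h, fun h' => h'.symm, fun h1 h2 => hO.te_trans hL h1 h2⟩
    have hub' : ∀ x y, x ≤ y → ¬ TE S x y → ∀ ρ < om1, ∃ u ∈ hullr r M S x y,
        ∃ v ∈ hullr r M S x y, TE S u v ∧ ¬ SL S (hullr r M S u v) ρ := by
      intro x y hxy hne ρ hρ
      obtain ⟨u, v, h1, h2, h3, h4, h5⟩ := hcase x y ρ hρ hxy hne
      refine ⟨u, ?_, v, ?_, TE.of_le h2 h4, ?_⟩
      · rw [hO.hullr_eq]
        exact Or.inl ⟨h1, h2.trans h3⟩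
      · rw [hO.hullr_eq]
        exact Or.inl ⟨h1.trans h2, h3⟩
      · have : hullr r M S u v = Icc u v := by
          rw [hO.hullr_eq]
          refine union_eq_self_of_subset_right ?_
          rintro z ⟨h6, h7⟩
          exact ⟨h2.trans h6, h7.trans h2⟩
        rwa [this]
    exact pcl_hull hL hS hE (hO.crossRule_te hL h hcr) (hO.te_class hL hS h)
      (fun N T x y => hullr r N T x y) omega_lt_om1
      (by
        intro N N' T T' x y z x' y' z' _ _ hb hz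
        have m1 : (x, x') ∈ ({(x, x'), (y, y'), (z, z')} : Set (N × N')) := by simp
        have m2 : (y, y') ∈ ({(x, x'), (y, y'), (z, z')} : Set (N × N')) := by simp
        have m3 : (z, z') ∈ ({(x, x'), (y, y'), (z, z')} : Set (N × N')) := by simp
        rcases hz with ⟨h1, h2⟩ | ⟨h1, h2⟩
        · exact Or.inl ⟨(rel_of_atEq hb.atEq m1 m3).mp h1, (rel_of_atEq hb.atEq m3 m2).mp h2⟩
        · exact Or.inr ⟨(rel_of_atEq hb.atEq m2 m3).mp h1, (rel_of_atEq hb.atEq m3 m1).mp h2⟩)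
      (by
        intro N T hT x y
        have hT' := hO.rOrd hT
        rcases hT'.total x y with h1 | h1
        · exact ⟨Or.inl ⟨hT'.refl _, h1⟩, Or.inl ⟨h1, hT'.refl _⟩⟩
        · exact ⟨Or.inr ⟨h1, hT'.refl _⟩, Or.inr ⟨hT'.refl _, h1⟩⟩)
      (by
        intro N T hT x y u hu v hv z hz
        have hT' := hO.rOrd hT
        have tr := hT'.trans
        rcases hT'.total x y with h1 | h1
        · rw [hullr_of_leR hT' h1] at hu hv ⊢
          rcases hz with ⟨h2, h3⟩ | ⟨h2, h3⟩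
          · exact ⟨tr _ _ _ hu.1 h2, tr _ _ _ h3 hv.2⟩
          · exact ⟨tr _ _ _ hv.1 h2, tr _ _ _ h3 hu.2⟩
        · rw [hullr_comm, hullr_of_leR hT' h1] at hu hv ⊢
          rcases hz with ⟨h2, h3⟩ | ⟨h2, h3⟩
          · exact ⟨tr _ _ _ hu.1 h2, tr _ _ _ h3 hv.2⟩
          · exact ⟨tr _ _ _ hv.1 h2, tr _ _ _ h3 hu.2⟩)
      (by
        intro x y hxy z hz
        rw [hO.hullr_eq] at hz
        rcases hz with ⟨h1, h2⟩ | ⟨h1, h2⟩
        · exact hO.te_left hxy h1 h2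
        · exact (hO.te_right hxy.symm h1 h2).symm)
      (by
        intro N T hT U hU x hx y hy ρ hρ hSL
        exact hO.sl_hull hL hT hx hy (hU x hx y hy) hρ hSL)
      (by
        intro x y hne ρ hρ
        rcases hO.total x y with h1 | h1
        · exact hub' x y h1 hne ρ hρ
        · show ∃ u ∈ hullr r M S x y, ∃ v ∈ hullr r M S x y, TE S u v ∧ ¬ SL S (hullr r M S u v) ρ
          rw [hullr_comm (x := x) (y := y)]
          exact hub' y x h1 (fun h' => hne h'.symm) ρ hρ) x y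

end

end Pool.Agent.Helper97.LO
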