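import Pool.Agent.T2.Nbs1
import Pool.Agent.T2.Small
import Pool.Agent.Helper52.VCM.VI

/-!
# The coarse structure: conclusion of the bounded case, and tameness
-/

set_option autoImplicit false
set_option linter.unusedSectionVars false
set_option linter.unusedVariables false

namespace Pool.Agent.Helper97.LO

open Set Pool.Agent.Helper5.DU Pool.Agent.Helper6.Str Pool.Agent.Helper79.VC
  Pool.Agent.Helper97.VC Pool.Agent.Helper97.MD

variable {L : FirstOrder.Language.{0, 0}} {M N P : Type}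

/-- countable ordinals are below countable ordinals closed under addition of `ω` -/
theorem exists_omega_closed {lam : Ordinal.{0}} (hlam : lam < om1) :
    ∃ mu : Ordinal.{0}, mu < om1 ∧ lam ≤ mu ∧ ∀ a < mu, a + Ordinal.omega0 < mu := by
  let f : ℕ → Ordinal.{0} := fun n => lam + Ordinal.omega0 * (n : Ordinal.{0})
  have hf : ∀ n, f n + Ordinal.omega0 = f (n + 1) := by
    intro n
    show lam + Ordinal.omega0 * (n : Ordinal.{0}) + Ordinal.omega0 =
      lam + Ordinal.omega0 * ((n + 1 : ℕ) : Ordinal.{0})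
    rw [Nat.cast_add, Nat.cast_one, mul_add, mul_one, add_assoc]
  have hf1 : ∀ n, f n < om1 := by
    intro n
    induction n with
    | zero =>
      show lam + Ordinal.omega0 * ((0 : ℕ) : Ordinal.{0}) < om1
      rw [Nat.cast_zero, mul_zero, add_zero]
      exact hlam
    | succ n ih =>
      rw [← hf n]
      exact add_lt_om1 ih omega_lt_om1
  refine ⟨⨆ n, f n, iSup_lt_om1 hf1, ?_, fun a ha => ?_⟩
  · refine le_trans ?_ (Ordinal.le_iSup f 0)
    exact le_self_add
  · obtain ⟨n, hn⟩ := Ordinal.lt_iSup_iff.mp ha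
    have h1 : a + Ordinal.omega0 ≤ f (n + 1) := by
      rw [← hf n]
      gcongr
    refine lt_of_le_of_lt h1 (lt_of_lt_of_le ?_ (Ordinal.le_iSup f (n + 2)))
    rw [← hf (n + 1)]
    exact lt_add_of_pos_right _ Ordinal.omega0_pos

section

variable [∀ n, IsEmpty (L.Functions n)] [∀ n, Countable (L.Relations n)]
  {K : Set (L.Structure ℕ)} {δ : Ordinal.{0}} {S : L.Structure M}
  {G : Type} [Monoid G] [Preorder M] {r : L.Relations 2} {o : Bool} {lab : M → M → G}
  {J : Set G} {u₀ : M}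

/-- the bounded case -/
theorem nbS_vst_bounded [Finite G] (hL : Ar2 L) (hS : VSt K δ S) (hO : LSt r o lab S) {x : M}
    (hB : IsBse (NBA.DD S x) lab J u₀) (hlast : ∀ y ∈ NBA.DD S x, ∃ z ∈ NBA.DD S x, y < z)
    {lam : Ordinal.{0}} (hlam : lam < om1) (hb : NBA.DD S x ⊆ NBA.PP S x lam) :
    ∃ (K' : Set ((EL L (G × Set G)).Structure ℕ)) (δ' : Ordinal.{0}),
      VSt K' δ' (nbS S (NBA.DD S x) u₀ lab J) := by
  classical
  obtain ⟨mu, hmu, hlm, hcl⟩ := exists_omega_closed hlam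
  -- the piece is given by Scott levels
  have hD : NBA.DD S x = NBA.PP S x mu := by
    refine Subset.antisymm (fun z hz => ?_) (LSt.PP_subset hS hO hmu.le)
    obtain ⟨h1, a, ha, h2⟩ := hb hz
    exact ⟨h1, a, ha.trans_le hlm, h2⟩
  have hini : ∀ y ∈ NBA.DD S x, ∀ z, u₀ ≤ z → z ≤ y → z ∈ NBA.DD S x :=
    fun y hy z h1 h2 => LSt.DD_init hO hy (le_trans hB.mem.1 h1) h2
  -- the piece is infinite
  have : Nonempty (Dge (NBA.DD S x) u₀) := ⟨bpt hB⟩
  have : NoMaxOrder (Dge (NBA.DD S x) u₀) := by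
    refine ⟨fun y => ?_⟩
    obtain ⟨z, hz, hyz⟩ := hlast y.1 y.2.1
    exact ⟨⟨z, hz, y.2.2.trans hyz.le⟩, hyz⟩
  have : Infinite (Dge (NBA.DD S x) u₀) := NoMaxOrder.infinite
  have hF : ((({x, u₀} : Finset M) : Set M)) = {x, u₀} := by
    rw [Finset.coe_insert, Finset.coe_singleton]
  -- the piece is definable
  have hX : ∀ c c', BFR S S univ univ mu (insert (c, c') (dg ((({x, u₀} : Finset M) : Set M)))) →
      (c ∈ range (Subtype.val : Dge (NBA.DD S x) u₀ → M) ↔
        c' ∈ range (Subtype.val : Dge (NBA.DD S x) u₀ → M)) := by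
    intro c c' h
    rw [hF] at h
    have h1 : c ∈ NBA.DD S x ↔ c' ∈ NBA.DD S x := by
      rw [hD]
      refine LSt.PP_def hO hmu.le hcl (BFR.anti ?_ h)
      rintro a (rfl | rfl)
      · exact mem_insert _ _
      · exact mem_insert_of_mem _ ⟨x, mem_insert _ _, rfl⟩
    have h2 : u₀ ≤ c ↔ u₀ ≤ c' := LSt.le_congr hO h.atEq (a := (u₀, u₀)) (b := (c, c'))
      (mem_insert_of_mem _ ⟨u₀, mem_insert_of_mem _ rfl, rfl⟩) (mem_insert _ _)
    constructor
    · rintro ⟨d, rfl⟩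
      exact ⟨⟨c', h1.mp d.2.1, h2.mp d.2.2⟩, rfl⟩
    · rintro ⟨d, rfl⟩
      exact ⟨⟨c, h1.mpr d.2.1, h2.mpr d.2.2⟩, rfl⟩
  refine VSt.interp hS (Subtype.val : Dge (NBA.DD S x) u₀ → M) Subtype.val_injective {x, u₀}
    (η := mu + Ordinal.omega0) (add_lt_om1 hmu omega_lt_om1) ?_ ?_ ?_
  · intro c c' h
    exact hX c c' (h.mono le_self_add)
  · intro p hp h
    refine nbS_def hL hO hB p hp ?_
    refine VI.restr (S := S) (e := (Subtype.val : Dge (NBA.DD S x) u₀ → M)) hX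
      (fun q hq h' => ?_) Ordinal.omega0 (hp.insert _) (BFR.anti ?_ h)
    · have h1 : AtEq S S ((fun a : Dge (NBA.DD S x) u₀ × Dge (NBA.DD S x) u₀ =>
          (a.1.1, a.2.1)) '' q) := AtEq.anti subset_union_left h'.atEq
      refine ⟨fun a ha b hb => ?_, fun n R v hv => ?_⟩
      · rw [← Subtype.val_injective.eq_iff, ← Subtype.val_injective.eq_iff (a := a.2)]
        exact h1.1 _ ⟨a, ha, rfl⟩ _ ⟨b, hb, rfl⟩
      · exact h1.2 n R (fun i => ((v i).1.1, (v i).2.1)) fun i => ⟨v i, hv i, rfl⟩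
    · rintro a (⟨b, (rfl | hb), rfl⟩ | ha)
      · refine Or.inr ⟨u₀, ?_, rfl⟩
        rw [hF]
        exact mem_insert_of_mem _ rfl
      · exact Or.inl ⟨b, hb, rfl⟩
      · exact Or.inr ha
  · intro p _ h Q hQ
    exact nbS_out hL hO hB hini p h Q hQ

/-- tameness of the coarse structure implies tameness of `D` -/
theorem tame_of_nbS [Finite G] (hL : Ar2 L) (hO : LSt r o lab S) {x : M}
    (hB : IsBse (NBA.DD S x) lab J u₀)
    (h : TameX (nbS S (NBA.DD S x) u₀ lab J) univ) : TameX S (NBA.DD S x) := by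
  have h1 : TameX (pl S (Subtype.val : Dge (NBA.DD S x) u₀ → M)) univ :=
    h.reduct fun p _ _ hp => (atEq_exS.mp hp).1
  have h2 : TameX S {z | z ∈ NBA.DD S x ∧ u₀ ≤ z} := by
    have h3 := (tameX_pl Subtype.val_injective).mp h1
    rwa [image_univ, Subtype.range_coe] at h3
  have hu : u₀ ∈ NBA.DD S x := hB.mem
  have h4 := LSt.tame_union hL hO hu.2 h2 (m := u₀) ⟨hu.1, le_rfl⟩ ⟨hu, le_rfl⟩
    (fun a ha => ha.2) (fun b hb => hb.2) fun b hb hbu => ⟨hb.1.1, hbu⟩
  have e : Icc x u₀ ∪ {z | z ∈ NBA.DD S x ∧ u₀ ≤ z} = NBA.DD S x := by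
    ext z
    constructor
    · rintro (hz | hz)
      · exact LSt.DD_init hO hu hz.1 hz.2
      · exact hz.1
    · intro hz
      rcases hB.tot z u₀ with h5 | h5
      · exact Or.inl ⟨hz.1, h5⟩
      · exact Or.inr ⟨hz, h5⟩
  rwa [e] at h4

end

end Pool.Agent.Helper97.LO
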