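import Pool.Agent.T2.Co
import Pool.Agent.T2.Basic
import Pool.Agent.Helper97.VCM.Tree3

/-!
# The coarse structure on the part of `D` above the base point
-/

set_option autoImplicit false
set_option linter.unusedSectionVars false
set_option linter.unusedVariables false

namespace Pool.Agent.Helper97.LO

open Set Pool.Agent.Helper5.DU Pool.Agent.Helper6.Str Pool.Agent.Helper79.VC
  Pool.Agent.Helper97.VC Pool.Agent.Helper97.MD

variable {L : FirstOrder.Language.{0, 0}} {M N P : Type}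

section

variable [∀ n, IsEmpty (L.Functions n)] [∀ n, Countable (L.Relations n)]
  {K : Set (L.Structure ℕ)} {δ : Ordinal.{0}} {S : L.Structure M}
  {G : Type} [Monoid G] [Preorder M] {r : L.Relations 2} {o : Bool} {lab : M → M → G}

variable {D : Set M} {J : Set G} {u₀ : M}

/-- the coarse structure -/
@[reducible]
def nbS (S : L.Structure M) (D : Set M) (u₀ : M) (lab : M → M → G) (J : Set G) :
    (EL L (G × Set G)).Structure (Dge D u₀) :=
  exS (pl S (Subtype.val : Dge D u₀ → M)) (fun z => (lab u₀ z.1, rho D lab J z.1))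
    fun a b => cle D u₀ lab J a.1 b.1

/-- the base point -/
def bpt (hB : IsBse D lab J u₀) : Dge D u₀ := ⟨u₀, hB.mem, le_rfl⟩

/-- atomic equivalence of a finite set of pairs of the piece, in the big structure -/
theorem nbS_pair {a a' b b' : Dge D u₀}
    (h : AtEq S S {(a.1, a'.1), (b.1, b'.1)}) :
    AtEq (pl S (Subtype.val : Dge D u₀ → M)) (pl S (Subtype.val : Dge D u₀ → M))
      {(a, a'), (b, b')} := by
  rw [TR.atEq_pl Subtype.val_injective]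
  refine AtEq.anti ?_ h
  rintro _ ⟨c, (rfl | rfl), rfl⟩
  · exact mem_insert _ _
  · exact mem_insert_of_mem _ rfl

/-- atomic equivalence of one pair of the piece -/
theorem nbS_one {a a' : Dge D u₀}
    (h : AtEq (pl S (Subtype.val : Dge D u₀ → M)) (pl S (Subtype.val : Dge D u₀ → M))
      {(a, a')}) : AtEq S S {(a.1, a'.1)} := by
  rw [TR.atEq_pl Subtype.val_injective] at h
  refine AtEq.anti ?_ h
  rintro _ rfl
  exact ⟨(a, a'), rfl, rfl⟩

theorem nbS_ost [Finite G] (hL : Ar2 L) (hO : LSt r o lab S) (hB : IsBse D lab J u₀) :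
    @OSt (EL L (G × Set G)) (Dge D u₀) (cPre hB) (nb2 L (G × Set G)) true
      (nbS S D u₀ lab J) := by
  refine @OSt.mk _ _ (cPre hB) _ _ _ ?_ ?_ ?_
  · intro a b
    rcases hO.total a.1 b.1 with h | h
    · exact Or.inl (cle_of_le a.2.1 a.2.2 h)
    · exact Or.inr (cle_of_le b.2.1 b.2.2 h)
  · intro a b
    exact Iff.rfl
  · intro a b a' b' hab hab' ha hb
    have hab1 : cle D u₀ lab J a.1 b.1 ∧ ¬ cle D u₀ lab J b.1 a.1 := hab
    have hab1' : cle D u₀ lab J a'.1 b'.1 ∧ ¬ cle D u₀ lab J b'.1 a'.1 := hab'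
    obtain ⟨h1, h2⟩ := far_of_not_cle hB a.2.1 a.2.2 b.2.1 b.2.2 hab1.2
    obtain ⟨h1', h2'⟩ := far_of_not_cle hB a'.2.1 a'.2.2 b'.2.1 b'.2.2 hab1'.2
    rw [atEq_exS] at ha hb
    obtain ⟨ha1, ha2, ha3⟩ := ha
    obtain ⟨hb1, hb2, hb3⟩ := hb
    have ha4 := ha2 (a, a') rfl
    have hb4 := hb2 (b, b') rfl
    simp only [Prod.mk.injEq] at ha4 hb4
    have hl : lab a.1 b.1 = lab a'.1 b'.1 :=
      far_lab hB a.2.1 a.2.2 b.2.1 a'.2.1 a'.2.2 b'.2.1 h2 h2' ha4.1 ha4.2 hb4.1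
    have hc := hO.cross a.1 b.1 a'.1 b'.1 h1 h1' hl (nbS_one ha1) (nbS_one hb1)
    rw [atEq_exS]
    refine ⟨nbS_pair hc, ?_, ?_⟩
    · rintro _ (rfl | rfl)
      · exact Prod.ext ha4.1 ha4.2
      · exact Prod.ext hb4.1 hb4.2
    · rintro _ (rfl | rfl) _ (rfl | rfl)
      · exact ⟨fun _ => cle_of_le a'.2.1 a'.2.2 le_rfl, fun _ => cle_of_le a.2.1 a.2.2 le_rfl⟩
      · exact ⟨fun _ => hab1'.1, fun _ => hab1.1⟩
      · exact ⟨fun h => absurd h hab1.2, fun h => absurd h hab1'.2⟩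
      · exact ⟨fun _ => cle_of_le b'.2.1 b'.2.2 le_rfl, fun _ => cle_of_le b.2.1 b.2.2 le_rfl⟩

/-- the facts preserved by atomic equivalence of the piece -/
theorem nbS_le (hO : LSt r o lab S) {q : Set (Dge D u₀ × Dge D u₀)}
    (h : AtEq (pl S (Subtype.val : Dge D u₀ → M)) (pl S (Subtype.val : Dge D u₀ → M)) q)
    {a a' b b' : Dge D u₀} (ha : (a, a') ∈ q) (hb : (b, b') ∈ q) :
    a.1 ≤ b.1 ↔ a'.1 ≤ b'.1 := by
  rw [TR.atEq_pl Subtype.val_injective] at h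
  exact hO.le_congr h (a := (a.1, a'.1)) (b := (b.1, b'.1)) ⟨(a, a'), ha, rfl⟩ ⟨(b, b'), hb, rfl⟩

theorem nbS_lab (hO : LSt r o lab S) {q : Set (Dge D u₀ × Dge D u₀)}
    (h : AtEq (pl S (Subtype.val : Dge D u₀ → M)) (pl S (Subtype.val : Dge D u₀ → M)) q)
    {a a' b b' : Dge D u₀} (ha : (a, a') ∈ q) (hb : (b, b') ∈ q) (hab : a.1 ≤ b.1) :
    lab a.1 b.1 = lab a'.1 b'.1 := by
  rw [TR.atEq_pl Subtype.val_injective] at h
  refine hO.inv a.1 b.1 a'.1 b'.1 hab (AtEq.anti ?_ h)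
  rintro _ (rfl | rfl)
  · exact ⟨(a, a'), ha, rfl⟩
  · exact ⟨(b, b'), hb, rfl⟩

theorem nbS_far (hO : LSt r o lab S) {q : Set (Dge D u₀ × Dge D u₀)}
    (h : AtEq (pl S (Subtype.val : Dge D u₀ → M)) (pl S (Subtype.val : Dge D u₀ → M)) q)
    {a a' b b' : Dge D u₀} (ha : (a, a') ∈ q) (hb : (b, b') ∈ q) :
    Far lab J a.1 b.1 ↔ Far lab J a'.1 b'.1 := by
  have h1 := nbS_le hO h ha hb
  have h2 := nbS_lab hO h ha hb
  constructor
  · rintro ⟨h3, h4⟩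
    exact ⟨h1.1 h3, by rw [← h2 h3]; exact h4⟩
  · rintro ⟨h3, h4⟩
    exact ⟨h1.2 h3, by rw [h2 (h1.2 h3)]; exact h4⟩

/-- chains are preserved -/
theorem nbS_rch (hO : LSt r o lab S) (n : ℕ) : ∀ {q : Set (Dge D u₀ × Dge D u₀)},
    BFR (pl S (Subtype.val : Dge D u₀ → M)) (pl S (Subtype.val : Dge D u₀ → M)) univ univ
      (n : Ordinal.{0}) q → ∀ {y y' z z' : Dge D u₀}, (y, y') ∈ q → (z, z') ∈ q →
      z.1 ∈ Rch D u₀ lab J y.1 n → z'.1 ∈ Rch D u₀ lab J y'.1 n := by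
  induction n with
  | zero =>
    rintro q hq y y' z z' hy hz ⟨h1, h2, h3⟩
    exact ⟨z'.2.1, z'.2.2, (nbS_le hO hq.atEq hz hy).1 h3⟩
  | succ n ih =>
    rintro q hq y y' z z' hy hz ⟨h1, h2, c, hc, h3⟩
    have hcD : c ∈ D ∧ u₀ ≤ c := by
      cases n with
      | zero => exact ⟨hc.1, hc.2.1⟩
      | succ n => exact ⟨hc.1, hc.2.1⟩
    have hlt : ((n : ℕ) : Ordinal.{0}) < ((n + 1 : ℕ) : Ordinal.{0}) := by
      exact_mod_cast Nat.lt_succ_self n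
    obtain ⟨c', -, hc'⟩ := hq.forth hlt (x := ⟨c, hcD⟩) (mem_univ _)
    have h4 := ih hc' (mem_insert_of_mem _ hy) (mem_insert _ _) hc
    refine ⟨z'.2.1, z'.2.2, c'.1, h4, ?_⟩
    rcases h3 with h3 | h3
    · exact Or.inl ((nbS_le hO hc'.atEq (mem_insert_of_mem _ hz) (mem_insert _ _)).1 h3)
    · exact Or.inr fun h5 => h3
        ((nbS_far hO hc'.atEq (mem_insert _ _) (mem_insert_of_mem _ hz)).2 h5)

/-- the right ideals are preserved -/
theorem nbS_rho (hO : LSt r o lab S) {q : Set (Dge D u₀ × Dge D u₀)} {γ : Ordinal.{0}}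
    (hγ : 0 < γ)
    (hq : BFR (pl S (Subtype.val : Dge D u₀ → M)) (pl S (Subtype.val : Dge D u₀ → M)) univ univ
      γ q) {z z' : Dge D u₀} (hz : (z, z') ∈ q) :
    rho D lab J z.1 ⊆ rho D lab J z'.1 := by
  rintro t ⟨w, hw, hf, b, rfl⟩
  obtain ⟨w', -, hw'⟩ := hq.forth hγ (x := ⟨w, hw, z.2.2.trans hf.1⟩) (mem_univ _)
  refine ⟨w'.1, w'.2.1, (nbS_far hO hw'.atEq (mem_insert_of_mem _ hz) (mem_insert _ _)).1 hf, b, ?_⟩
  rw [← nbS_lab hO hw'.atEq (mem_insert_of_mem _ hz) (mem_insert _ _) hf.1]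

/-- the coarse structure is definable -/
theorem nbS_def [Finite G] (hL : Ar2 L) (hO : LSt r o lab S) (hB : IsBse D lab J u₀)
    (p : Set (Dge D u₀ × Dge D u₀)) (hp : p.Finite)
    (h : BFR (pl S (Subtype.val : Dge D u₀ → M)) (pl S (Subtype.val : Dge D u₀ → M)) univ univ
      Ordinal.omega0 (insert (bpt hB, bpt hB) p)) :
    AtEq (nbS S D u₀ lab J) (nbS S D u₀ lab J) p := by
  have hs := h.swap
  have hmem : ∀ a : Dge D u₀ × Dge D u₀, a ∈ p →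
      (a.2, a.1) ∈ Prod.swap ⁻¹' insert (bpt hB, bpt hB) p :=
    fun a ha => mem_insert_of_mem _ ha
  rw [atEq_exS]
  refine ⟨AtEq.anti (subset_insert _ _) h.atEq, fun a ha => ?_, fun a ha b hb => ?_⟩
  · refine Prod.ext ?_ ?_
    · exact nbS_lab hO h.atEq (mem_insert _ _) (mem_insert_of_mem _ ha) a.1.2.2
    · exact Subset.antisymm (nbS_rho hO Ordinal.omega0_pos h (mem_insert_of_mem _ ha))
        (nbS_rho hO Ordinal.omega0_pos hs (hmem a ha))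
  · constructor
    · rintro ⟨n, hn⟩
      exact ⟨n, nbS_rch hO n (h.mono (Ordinal.natCast_lt_omega0 n).le)
        (mem_insert_of_mem _ hb) (mem_insert_of_mem _ ha) hn⟩
    · rintro ⟨n, hn⟩
      exact ⟨n, nbS_rch hO n (hs.mono (Ordinal.natCast_lt_omega0 n).le)
        (hmem b hb) (hmem a ha) hn⟩

/-- the relations to elements outside -/
theorem nbS_out [Finite G] (hL : Ar2 L) (hO : LSt r o lab S) (hB : IsBse D lab J u₀)
    (hini : ∀ y ∈ D, ∀ z, u₀ ≤ z → z ≤ y → z ∈ D)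
    (p : Set (Dge D u₀ × Dge D u₀)) (h : AtEq (nbS S D u₀ lab J) (nbS S D u₀ lab J) p)
    (Q : Set M) (hQ : ∀ g ∈ Q, g ∉ range (Subtype.val : Dge D u₀ → M)) :
    AtEq S S ((fun a => (a.1.1, a.2.1)) '' p ∪ dg Q) := by
  have hp := atEq_exS.1 h
  obtain ⟨hp1, hp2, hp3⟩ := hp
  have hp4 := (TR.atEq_pl Subtype.val_injective).1 hp1
  -- mixed pairs
  have key : ∀ a ∈ p, ∀ g ∈ Q, AtEq S S {(a.1.1, a.2.1), (g, g)} := by
    intro a ha g hg
    have ha1 := hp2 a ha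
    simp only [Prod.mk.injEq] at ha1
    have ha2 : AtEq S S {(a.1.1, a.2.1)} := AtEq.anti (by
      rintro _ rfl
      exact ⟨a, ha, rfl⟩) hp4
    have hg2 : AtEq S S {(g, g)} := TR.atEq_refl S (by rintro _ rfl; rfl)
    have hgD : ¬ (g ∈ D ∧ u₀ ≤ g) := fun h1 => hQ g hg ⟨⟨g, h1⟩, rfl⟩
    by_cases h0 : u₀ ≤ g
    · have hg3 : ∀ d ∈ D, ¬ g ≤ d := fun d hd h1 => hgD ⟨hini d hd g h0 h1, h0⟩
      have hg4 : ∀ d ∈ D, d ≤ g := fun d hd => (hO.total d g).resolve_right (hg3 d hd)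
      have hl : lab a.1.1 g = lab a.2.1 g :=
        high_lab hB a.1.2.1 a.1.2.2 a.2.2.1 a.2.2.2 ha1.1 ha1.2 hg4
      exact hO.cross _ _ _ _ (hO.not_le.1 (hg3 _ a.1.2.1)) (hO.not_le.1 (hg3 _ a.2.2.1)) hl ha2 hg2
    · have hgu : g < u₀ := hO.not_le.1 h0
      have hl : lab g a.1.1 = lab g a.2.1 := by
        rw [hO.mul g u₀ a.1.1 hgu.le a.1.2.2, hO.mul g u₀ a.2.1 hgu.le a.2.2.2, ha1.1]
      have := hO.cross _ _ _ _ (hgu.trans_le a.1.2.2) (hgu.trans_le a.2.2.2) hl hg2 ha2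
      rw [pair_comm]
      exact this
  refine atEq_of_pairs hL ?_
  rintro _ (⟨a, ha, rfl⟩ | ⟨g, hg, rfl⟩) _ (⟨b, hb, rfl⟩ | ⟨g', hg', rfl⟩)
  · refine AtEq.anti ?_ hp4
    rintro _ (rfl | rfl)
    · exact ⟨a, ha, rfl⟩
    · exact ⟨b, hb, rfl⟩
  · exact key a ha g' hg'
  · rw [pair_comm]
    exact key b hb g hg
  · refine TR.atEq_refl S ?_
    rintro _ (rfl | rfl) <;> rfl

end

end Pool.Agent.Helper97.LO
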