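import Pool.Agent.T2.Basic
import Pool.Agent.Helper79.VCM.LS

/-!
# Labelled ordered sums: the equivalence given by tame intervals, transfer to equivalent structures
-/

set_option autoImplicit false
set_option linter.unusedSectionVars false
set_option linter.unusedVariables false

namespace Pool.Agent.Helper97.LO

open Set Pool.Agent.Helper5.DU Pool.Agent.Helper6.Str Pool.Agent.Helper79.VC
  Pool.Agent.Helper97.VC Pool.Agent.Helper97.MD

variable {L : FirstOrder.Language.{0, 0}} {M N P : Type}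

section

variable [Preorder M] {G : Type} [Monoid G] {r : L.Relations 2} {o : Bool} {lab : M → M → G}
  {S : L.Structure M}

theorem LSt.te_tame (hO : LSt r o lab S) {x y : M} (h : TE S x y) (hxy : x ≤ y) :
    TameX S (Icc x y) := by
  rcases h with h | h
  · exact h.2
  · have : Icc x y = Icc y x := by
      ext z
      rw [mem_Icc, mem_Icc]
      constructor
      · rintro ⟨h1, h2⟩
        exact ⟨h.1.trans h1, h2.trans h.1⟩
      · rintro ⟨h1, h2⟩
        exact ⟨hxy.trans h1, h2.trans hxy⟩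
    rw [this]
    exact h.2

theorem LSt.te_left (hO : LSt r o lab S) {x y z : M} (h : TE S x z) (hxy : x ≤ y)
    (hyz : y ≤ z) : TE S x y :=
  TE.of_le hxy (hO.tame_icc_sub (hO.te_tame h (hxy.trans hyz)) ⟨le_rfl, hxy.trans hyz⟩ ⟨hxy, hyz⟩)

theorem LSt.te_right (hO : LSt r o lab S) {x y z : M} (h : TE S x z) (hxy : x ≤ y)
    (hyz : y ≤ z) : TE S y z :=
  TE.of_le hyz (hO.tame_icc_sub (hO.te_tame h (hxy.trans hyz)) ⟨hxy, hyz⟩ ⟨hxy.trans hyz, le_rfl⟩)

theorem LSt.te_trans (hL : Ar2 L) (hO : LSt r o lab S) {x y z : M} (h1 : TE S x y)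
    (h2 : TE S y z) : TE S x z := by
  rcases h1 with ⟨hxy, h1⟩ | ⟨hyx, h1⟩ <;> rcases h2 with ⟨hyz, h2⟩ | ⟨hzy, h2⟩
  · exact TE.of_le (hxy.trans hyz) (hO.tame_icc hL hxy hyz h1 h2)
  · rcases hO.total x z with hxz | hzx
    · exact hO.te_left (TE.of_le hxy h1) hxz hzy
    · exact (hO.te_left (TE.of_le hzy h2) hzx hxy).symm
  · rcases hO.total x z with hxz | hzx
    · exact hO.te_right (TE.of_le hyz h2) hyx hxz
    · exact (hO.te_right (TE.of_le hyx h1) hyz hzx).symm
  · exact (TE.of_le (hzy.trans hyx) (hO.tame_icc hL hzy hyx h2 h1)).symm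

theorem LSt.te_lt_of (hL : Ar2 L) (hO : LSt r o lab S)
    (h : ∀ y, TameX S {z : M | z ≤ y ∧ y ≤ z}) {a b a' b' : M} (hab : a ≤ b)
    (hne : ¬ TE S a b) (ha : TE S a a') (hb : TE S b b') : a' < b' := by
  by_contra hcon
  have h1 : b' ≤ a' := hO.not_lt.mp hcon
  rcases hO.total a b' with h2 | h2
  · exact hne (hO.te_trans hL (hO.te_left ha h2 h1) hb.symm)
  · exact hne (hO.te_right hb.symm h2 hab)

/-- the classes are tame, from the two halves -/
theorem LSt.te_class_of (hL : Ar2 L) (hO : LSt r o lab S)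
    (h : ∀ y, TameX S {z : M | z ≤ y ∧ y ≤ z}) (x : M)
    (h1 : TameX S {y | x ≤ y ∧ TameX S (Icc x y)})
    (h2 : TameX S {y | y ≤ x ∧ TameX S (Icc y x)}) : TameX S {y | TE S x y} := by
  have hcl : ∀ b, b ≤ x → x ≤ b → TameX S (Icc b x) := by
    intro b hb hb'
    have : Icc b x = {z : M | z ≤ x ∧ x ≤ z} := by
      ext z
      constructor
      · rintro ⟨h3, h4⟩
        exact ⟨h4, hb'.trans h3⟩
      · rintro ⟨h3, h4⟩
        exact ⟨hb.trans h4, h3⟩
    rw [this]
    exact h x
  have hx1 : x ∈ {y | x ≤ y ∧ TameX S (Icc x y)} := ⟨le_rfl, hcl x le_rfl le_rfl⟩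
  have hx2 : x ∈ {y | y ≤ x ∧ TameX S (Icc y x)} := ⟨le_rfl, hcl x le_rfl le_rfl⟩
  have h3 := hO.tame_union hL h2 h1 hx2 hx1 (fun a ha => ha.1) (fun b hb => hb.1)
    (fun b hb hb' => ⟨hb', hcl b hb' hb.1⟩)
  have : {y | TE S x y} = {y | y ≤ x ∧ TameX S (Icc y x)} ∪ {y | x ≤ y ∧ TameX S (Icc x y)} := by
    ext y
    exact or_comm
  rwa [this]

/-! ### transfer -/

theorem LSt.transfer (hO : LSt r o lab S) {T : L.Structure N}
    (h : BFR T S univ univ Ordinal.omega0 ∅) :
    ∃ (PN : Preorder N) (lab' : N → N → G), @LSt L N PN G _ r o lab' T := by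
  classical
  have hS : ∀ a b : M, S.RelMap r ![a, b] ↔ (if o then a ≤ b else b ≤ a) := by
    intro a b
    cases o
    · simpa using (hO.le_iff b a).symm
    · simpa using (hO.le_iff a b).symm
  let leN : N → N → Prop := fun a b => if o then T.RelMap r ![a, b] else T.RelMap r ![b, a]
  -- the order of copies
  have hle : ∀ {p : Set (N × M)} {a b : N} {a' b' : M}, AtEq T S p → (a, a') ∈ p → (b, b') ∈ p →
      (leN a b ↔ a' ≤ b') := by
    intro p a b a' b' hp ha hb
    have h1 := rel_of_atEq hp (R := r) ha hb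
    have h2 := rel_of_atEq hp (R := r) hb ha
    rw [hO.le_iff]
    show (if o then T.RelMap r ![a, b] else T.RelMap r ![b, a]) ↔ _
    rw [h1, h2]
  have hrefl : ∀ a, leN a a := by
    intro a
    obtain ⟨a', b', c', d', h1⟩ := pull4 h a a a a
    exact (hle h1 (a := a) (b := a) (a' := a') (b' := a') (by simp) (by simp)).mpr le_rfl
  have htrans : ∀ a b c, leN a b → leN b c → leN a c := by
    intro a b c h2 h3
    obtain ⟨a', b', c', d', h1⟩ := pull4 h a b c c
    have e1 := hle h1 (a := a) (b := b) (a' := a') (b' := b') (by simp) (by simp)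
    have e2 := hle h1 (a := b) (b := c) (a' := b') (b' := c') (by simp) (by simp)
    have e3 := hle h1 (a := a) (b := c) (a' := a') (b' := c') (by simp) (by simp)
    exact e3.mpr ((e1.mp h2).trans (e2.mp h3))
  have htot : ∀ a b, leN a b ∨ leN b a := by
    intro a b
    obtain ⟨a', b', c', d', h1⟩ := pull4 h a b b b
    have e1 := hle h1 (a := a) (b := b) (a' := a') (b' := b') (by simp) (by simp)
    have e2 := hle h1 (a := b) (b := a) (a' := b') (b' := a') (by simp) (by simp)
    rw [e1, e2]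
    exact hO.total a' b'
  have hcopy : ∀ a b : N, ∃ c : M × M, AtEq T S {(a, c.1), (b, c.2)} := by
    intro a b
    obtain ⟨a', b', c', d', h1⟩ := pull4 h a b b b
    refine ⟨(a', b'), AtEq.anti ?_ h1⟩
    rintro z (rfl | rfl) <;> simp
  choose f hf using hcopy
  let PN : Preorder N :=
    { le := leN
      le_refl := hrefl
      le_trans := htrans }
  -- labels of copies
  have hlab : ∀ (a b : N) (a' b' : M), leN a b → AtEq T S {(a, a'), (b, b')} →
      lab (f a b).1 (f a b).2 = lab a' b' := by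
    intro a b a' b' hab h1
    refine hO.inv _ _ _ _ ?_ ?_
    · exact (hle (hf a b) (a := a) (b := b) (by simp) (by simp)).mp hab
    · refine atEq_transLS (atEq_symmLS (hf a b) (q := {((f a b).1, a), ((f a b).2, b)}) ?_) h1 ?_
      · rintro z (rfl | rfl) <;> simp
      · rintro z (rfl | rfl)
        · exact ⟨a, by simp, by simp⟩
        · exact ⟨b, by simp, by simp⟩
  refine ⟨PN, fun a b => lab (f a b).1 (f a b).2, ?_⟩
  let := PN
  refine @LSt.mk L N PN G _ r o _ T ?_ ?_ ?_ ?_ ?_ ?_
  · exact htot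
  · exact fun a b => Iff.rfl
  · intro a b h1 h2
    exact hO.one _ _ ((hle (hf a b) (a := a) (b := b) (by simp) (by simp)).mp h1)
      ((hle (hf a b) (a := b) (b := a) (by simp) (by simp)).mp h2)
  · intro a b c h2 h3
    obtain ⟨a', b', c', d', h1⟩ := pull4 h a b c c
    have e1 := hle h1 (a := a) (b := b) (a' := a') (b' := b') (by simp) (by simp)
    have e2 := hle h1 (a := b) (b := c) (a' := b') (b' := c') (by simp) (by simp)
    rw [hlab a c a' c' (htrans _ _ _ h2 h3) (AtEq.anti (by rintro z (rfl | rfl) <;> simp) h1),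
      hlab a b a' b' h2 (AtEq.anti (by rintro z (rfl | rfl) <;> simp) h1),
      hlab b c b' c' h3 (AtEq.anti (by rintro z (rfl | rfl) <;> simp) h1)]
    exact hO.mul _ _ _ (e1.mp h2) (e2.mp h3)
  · intro a b a' b' h1 h2
    show lab (f a b).1 (f a b).2 = lab (f a' b').1 (f a' b').2
    refine hlab a b _ _ h1 ?_
    refine atEq_transLS h2 (hf a' b') ?_
    rintro z (rfl | rfl)
    · exact ⟨a', by simp, by simp⟩
    · exact ⟨b', by simp, by simp⟩
  · intro a b a' b' h1 h2 h3 h4 h5
    have hlt : ∀ a b : N, a < b → (f a b).1 < (f a b).2 := by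
      intro a b hab
      have e1 := hle (hf a b) (a := a) (b := b) (a' := (f a b).1) (b' := (f a b).2) (by simp)
        (by simp)
      have e2 := hle (hf a b) (a := b) (b := a) (a' := (f a b).2) (b' := (f a b).1) (by simp)
        (by simp)
      rw [lt_iff_le_not_ge, ← e1, ← e2]
      exact lt_iff_le_not_ge.mp hab
    have s1 : AtEq S T {((f a b).1, a), ((f a b).2, b)} := by
      refine atEq_symmLS (hf a b) ?_
      rintro z (rfl | rfl) <;> simp
    have s2 : AtEq S T {((f a' b').1, a'), ((f a' b').2, b')} := by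
      refine atEq_symmLS (hf a' b') ?_
      rintro z (rfl | rfl) <;> simp
    have h6 : AtEq S S {((f a b).1, (f a' b').1)} := by
      refine atEq_transLS (atEq_transLS (s := {((f a b).1, a')}) s1 h4 ?_) (hf a' b') ?_
      · rintro z rfl
        exact ⟨a, by simp, by simp⟩
      · rintro z rfl
        exact ⟨a', by simp, by simp⟩
    have h7 : AtEq S S {((f a b).2, (f a' b').2)} := by
      refine atEq_transLS (atEq_transLS (s := {((f a b).2, b')}) s1 h5 ?_) (hf a' b') ?_
      · rintro z rfl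
        exact ⟨b, by simp, by simp⟩
      · rintro z rfl
        exact ⟨b', by simp, by simp⟩
    have h8 := hO.cross _ _ _ _ (hlt a b h1) (hlt a' b' h2) h3 h6 h7
    refine atEq_transLS (atEq_transLS (s := {(a, (f a' b').1), (b, (f a' b').2)}) (hf a b) h8 ?_)
      s2 ?_
    · rintro z (rfl | rfl)
      · exact ⟨(f a b).1, by simp, by simp⟩
      · exact ⟨(f a b).2, by simp, by simp⟩
    · rintro z (rfl | rfl)
      · exact ⟨(f a' b').1, by simp, by simp⟩
      · exact ⟨(f a' b').2, by simp, by simp⟩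

/-- the hull in a labelled sum -/
theorem LSt.hullr_eq (hO : LSt r o lab S) (x y : M) : hullr r M S x y = Icc x y ∪ Icc y x := by
  have hS : ∀ a b : M, S.RelMap r ![a, b] ↔ (if o then a ≤ b else b ≤ a) := by
    intro a b
    cases o
    · simpa using (hO.le_iff b a).symm
    · simpa using (hO.le_iff a b).symm
  ext z
  show ((S.RelMap r ![x, z] ∧ S.RelMap r ![z, y]) ∨ (S.RelMap r ![y, z] ∧ S.RelMap r ![z, x])) ↔ _
  rw [hS, hS, hS, hS]
  cases o
  · simp only [Bool.false_eq_true, if_false, mem_union, mem_Icc]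
    tauto
  · simp only [if_true, mem_union, mem_Icc]

theorem LSt.sl_hull (hL : Ar2 L) (hO : LSt r o lab S) {T : L.Structure N}
    (hT : BFR T S univ univ Ordinal.omega0 ∅) {U : Set N} {x y : N}
    (hx : x ∈ U) (hy : y ∈ U) (hU : hullr r N T x y ⊆ U) {ρ : Ordinal.{0}} (hρ : ρ < om1)
    (h : SL T U ρ) : SL T (hullr r N T x y) (Ordinal.omega0 + ρ + Ordinal.omega0) := by
  obtain ⟨PN, lab', hT'⟩ := hO.transfer hT
  let := PN
  have key : ∀ x y : N, x ≤ y → x ∈ U → y ∈ U → Icc x y ⊆ U → hullr r N T x y = Icc x y →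
      SL T (hullr r N T x y) (Ordinal.omega0 + ρ + Ordinal.omega0) := by
    intro x y hxy hx hy hsub he
    rw [he]
    have h1 := hT'.sl_icc hL h hx hy
    rw [inter_eq_right.2 hsub] at h1
    refine h1.mono ?_
    gcongr
    exact le_add_self
  have hsub : ∀ x y : N, x ≤ y → hullr r N T x y = Icc x y := by
    intro x y hxy
    rw [hT'.hullr_eq]
    refine union_eq_self_of_subset_right ?_
    rintro z ⟨h6, h7⟩
    exact ⟨hxy.trans h6, h7.trans hxy⟩
  rcases hT'.total x y with hxy | hyx
  · exact key x y hxy hx hy (by rwa [hsub x y hxy] at hU) (hsub x y hxy)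
  · rw [hullr_comm] at hU ⊢
    exact key y x hyx hy hx (by rwa [hsub y x hyx] at hU) (hsub y x hyx)

end

end Pool.Agent.Helper97.LO
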